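import Pool.Agent.H65KF.Fin
import Pool.Agent.R559.NP.Near

set_option autoImplicit false

/-!
Counting the numbers `x ∈ K` with small conductors, and the consequences near almost every point of the product of
the completions at infinity.
-/

namespace Pool.Agent.H65KF

open NumberField NumberField.mixedEmbedding MeasureTheory Filter Topology Metric
open scoped ENNReal Classical

variable {K : Type} [Field K] [NumberField K]

/-- the height -/
noncomputable abbrev hgt (x : K) : ℝ := Pool.Agent.W17.WK.height x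

/-- the conductor -/
noncomputable abbrev cnd (x : K) : ℝ := Pool.Agent.W17.WK.cond x

/-- the sum of the three conductors -/
noncomputable def cond3 (x : K) : ℝ := cnd x + cnd x⁻¹ + cnd (x - 1)

instance instCountableK : Countable K := (Module.finBasis ℚ K).equivFun.injective.countable

lemma height_nonneg (x : K) : 0 ≤ hgt x := by
  unfold hgt Pool.Agent.W17.WK.height
  refine mul_nonneg (by positivity) (add_nonneg ?_ ?_)
  · exact Finset.sum_nonneg fun w _ => mul_nonneg (Nat.cast_nonneg _) (Real.log_nonneg (le_max_left _ _))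
  · exact finsum_nonneg fun v => Real.log_nonneg (le_max_left _ _)

lemma cond_nonneg (x : K) : 0 ≤ cnd x := by
  unfold cnd Pool.Agent.W17.WK.cond
  refine mul_nonneg (by positivity) (finsum_nonneg fun v => ?_)
  split_ifs
  · exact Real.log_natCast_nonneg _
  · exact le_rfl

/-- the count: at most `C B ^ (d max (1, s - 1) + ε)` numbers of height at most `B` with sum of conductors `≤ s h` -/
theorem count (s : ℝ) (hs : 0 < s) (ε : ℝ) (hε : 0 < ε) : ∃ C : ℝ, ∀ B : ℝ, 1 ≤ B →
    {x : K | (x ≠ 0 ∧ x ≠ 1 ∧ cond3 x ≤ s * hgt x) ∧ Real.exp (hgt x) ≤ B}.Finite ∧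
    (({x : K | (x ≠ 0 ∧ x ≠ 1 ∧ cond3 x ≤ s * hgt x) ∧ Real.exp (hgt x) ≤ B}.ncard : ℕ) : ℝ) ≤
      C * B ^ ((Module.finrank ℚ K : ℝ) * max 1 (s - 1) + ε) := by
  have hκ : 0 < 1 / s := by positivity
  have he : (0 : ℝ) ≤ max 1 (s - 1) := zero_le_one.trans (le_max_left _ _)
  have hF := finM K (1 / (1 / s)) (by positivity)
  rw [one_div_one_div] at hF
  obtain ⟨C, hC⟩ := Pool.Agent.W17.WK.count_exc hκ he (by rw [one_div_one_div]; exact hF) 0 ε hε
  refine ⟨C, fun B hB => ?_⟩
  have e : {x : K | (x ≠ 0 ∧ x ≠ 1 ∧ cond3 x ≤ s * hgt x) ∧ Real.exp (hgt x) ≤ B} =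
      Pool.Agent.W17.WK.exceptional K (1 / s) 0 B := by
    ext x
    simp only [Pool.Agent.W17.WK.exceptional, cond3, Set.mem_ofPred_eq, add_zero]
    have h1 : 1 / s * (cnd x + cnd x⁻¹ + cnd (x - 1)) ≤ hgt x ↔
        cnd x + cnd x⁻¹ + cnd (x - 1) ≤ s * hgt x := by
      rw [one_div, inv_mul_le_iff₀ hs]
    rw [h1]
    tauto
  rw [e]
  exact hC B hB

/-- the distance in the product of the completions -/
lemma dist_le_of (p : mixedSpace K) (x : K) (r : ℝ)
    (h : ∀ w : InfinitePlace K, normAtPlace w (mixedEmbedding K x - p) ≤ r) :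
    dist (mixedEmbedding K x) p ≤ r := by
  rw [dist_eq_norm, norm_eq_sup'_normAtPlace]
  exact Finset.sup'_le _ _ fun w _ => h w

lemma le_of_dist (p : mixedSpace K) (x : K) (r : ℝ) (h : dist (mixedEmbedding K x) p ≤ r)
    (w : InfinitePlace K) : normAtPlace w (mixedEmbedding K x - p) ≤ r := by
  rw [dist_eq_norm, norm_eq_sup'_normAtPlace] at h
  exact (Finset.le_sup' (fun w => normAtPlace w (mixedEmbedding K x - p)) (Finset.mem_univ w)).trans h

/-- the subspace of the points with coordinate zero at `w` -/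
noncomputable def zeroAt (w : InfinitePlace K) : Submodule ℝ (mixedSpace K) where
  carrier := {q | normAtPlace w q = 0}
  add_mem' := by
    intro a b ha hb
    simp only [Set.mem_ofPred_eq] at ha hb ⊢
    refine le_antisymm ?_ (normAtPlace_nonneg _ _)
    have := normAtPlace_add_le w a b
    rwa [ha, hb, add_zero] at this
  zero_mem' := by simp
  smul_mem' := by
    intro c a ha
    simp only [Set.mem_ofPred_eq] at ha ⊢
    rw [normAtPlace_smul, ha, mul_zero]

lemma ae_avoids : ∀ᵐ p : mixedSpace K, ∀ x : K, ∀ w : InfinitePlace K,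
    normAtPlace w (p - mixedEmbedding K x) ≠ 0 := by
  rw [ae_all_iff]
  intro x
  rw [eventually_countable_forall]
  intro w
  have h1 : (volume : Measure (mixedSpace K)) (zeroAt w : Set (mixedSpace K)) = 0 := by
    refine Measure.addHaar_submodule _ _ fun h => ?_
    have h2 : (1 : mixedSpace K) ∈ zeroAt w := by rw [h]; trivial
    have h3 : normAtPlace w (1 : mixedSpace K) = 0 := h2
    rw [map_one] at h3
    exact one_ne_zero h3
  have h2 : (volume : Measure (mixedSpace K))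
      ((fun p => p + (-(mixedEmbedding K x))) ⁻¹' (zeroAt w : Set (mixedSpace K))) = 0 := by
    rw [measure_preimage_add_right]
    exact h1
  rw [ae_iff]
  refine measure_mono_null ?_ h2
  intro p hp
  simp only [Set.mem_ofPred_eq, not_not] at hp
  rw [Set.mem_preimage, ← sub_eq_add_neg]
  exact hp

/-- the volume of the balls -/
lemma vol_ball : ∃ C₀ : ℝ, 0 ≤ C₀ ∧ ∀ (x : mixedSpace K) (r : ℝ), 0 < r →
    (volume : Measure (mixedSpace K)) (closedBall x r) ≤
      ENNReal.ofReal (C₀ * r ^ (Module.finrank ℚ K : ℝ)) := by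
  refine ⟨((volume : Measure (mixedSpace K)) (ball 0 1)).toReal, ENNReal.toReal_nonneg, ?_⟩
  intro x r hr
  rw [Measure.addHaar_closedBall _ _ hr.le, mixedEmbedding.finrank, Real.rpow_natCast, mul_comm,
    ENNReal.ofReal_mul ENNReal.toReal_nonneg, ENNReal.ofReal_toReal]
  exact measure_ball_lt_top.ne

/-- (1) for rational parameters -/
lemma ae_lower₀ (t s : ℝ) (ht : 1 < t) (hs0 : 0 < s) (hs : s < 1 + t) :
    ∀ᵐ p : mixedSpace K, ∀ A : ℝ, {x : K | dist (mixedEmbedding K x) p ≤ A * Real.exp (hgt x) ^ (-t) ∧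
      (x ≠ 0 ∧ x ≠ 1 ∧ cond3 x ≤ s * hgt x)}.Finite := by
  obtain ⟨C₀, hC₀, hμ⟩ := vol_ball (K := K)
  have hd : (0 : ℝ) < Module.finrank ℚ K := by exact_mod_cast Module.finrank_pos
  exact Pool.Agent.R559.NP.near_ae (T := K) (X := mixedSpace K) volume hμ
    (H := fun x => Real.exp (hgt x)) (fun x => Real.one_le_exp (height_nonneg x))
    (Bad := fun x => x ≠ 0 ∧ x ≠ 1 ∧ cond3 x ≤ s * hgt x)
    (s := (Module.finrank ℚ K : ℝ) * max 1 (s - 1)) (τ := t)
    (by positivity) (by
      rw [mul_comm t]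
      exact mul_lt_mul_of_pos_left (max_lt ht (by linarith)) hd)
    (fun ε hε => count s hs0 ε hε) (fun x => mixedEmbedding K x)

/-- (1): near almost every point the sum of the conductors is at least `(1 + t - δ) h` -/
theorem ae_lower : ∀ᵐ p : mixedSpace K, ∀ t s : ℝ, 1 < t → s < 1 + t →
    {x : K | x ≠ 0 ∧ x ≠ 1 ∧ (∀ w : InfinitePlace K, normAtPlace w (mixedEmbedding K x - p) ≤
      Real.exp (-t * hgt x)) ∧ cond3 x ≤ s * hgt x}.Finite := by
  have h0 : ∀ a : ℚ × ℚ, ∀ᵐ p : mixedSpace K, 1 < (a.1 : ℝ) → 0 < (a.2 : ℝ) → (a.2 : ℝ) < 1 + a.1 →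
      ∀ A : ℝ, {x : K | dist (mixedEmbedding K x) p ≤ A * Real.exp (hgt x) ^ (-(a.1 : ℝ)) ∧
        (x ≠ 0 ∧ x ≠ 1 ∧ cond3 x ≤ a.2 * hgt x)}.Finite := by
    intro a
    by_cases h : 1 < (a.1 : ℝ) ∧ 0 < (a.2 : ℝ) ∧ (a.2 : ℝ) < 1 + a.1
    · filter_upwards [ae_lower₀ (K := K) a.1 a.2 h.1 h.2.1 h.2.2] with p hp _ _ _
      exact hp
    · exact Eventually.of_forall fun p h1 h2 h3 => absurd ⟨h1, h2, h3⟩ h
  filter_upwards [ae_all_iff.2 h0] with p hp t s ht hs
  -- rational parameters in between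
  obtain ⟨s', hs1, hs2⟩ := exists_rat_btwn (show max s 0 < 1 + t from max_lt hs (by linarith))
  have hs3 : s < s' := (le_max_left _ _).trans_lt hs1
  have hs4 : (0 : ℝ) < s' := (le_max_right _ _).trans_lt hs1
  obtain ⟨t', ht1, ht2⟩ := exists_rat_btwn (show max 1 ((s' : ℝ) - 1) < t from
    max_lt ht (by linarith))
  have ht3 : (1 : ℝ) < t' := (le_max_left _ _).trans_lt ht1
  have ht4 : (s' : ℝ) - 1 < t' := (le_max_right _ _).trans_lt ht1
  refine (hp (t', s') ht3 hs4 (by linarith) 1).subset ?_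
  rintro x ⟨hx0, hx1, hx2, hx3⟩
  have hh := height_nonneg x
  refine ⟨?_, hx0, hx1, hx3.trans (mul_le_mul_of_nonneg_right hs3.le hh)⟩
  refine (dist_le_of p x _ hx2).trans ?_
  rw [one_mul, ← Real.exp_mul]
  apply Real.exp_le_exp.2
  simp only
  nlinarith

/-- the upper bound for the dimension -/
theorem dim_upper (t s : ℝ) (ht : 0 < t) (hs : 2 ≤ s) :
    dimH {p : mixedSpace K | {x : K | x ≠ 0 ∧ x ≠ 1 ∧
      (∀ w : InfinitePlace K, normAtPlace w (mixedEmbedding K x - p) ≤ Real.exp (-t * hgt x)) ∧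
      cond3 x ≤ s * hgt x}.Infinite} ≤
    ENNReal.ofReal ((Module.finrank ℚ K : ℝ) * (s - 1) / t) := by
  have hd : (0 : ℝ) < Module.finrank ℚ K := by exact_mod_cast Module.finrank_pos
  obtain ⟨E, hE, hE'⟩ := Pool.Agent.R559.NP.near_dim (T := K) (X := mixedSpace K)
    (H := fun x => Real.exp (hgt x)) (fun x => Real.one_le_exp (height_nonneg x))
    (Bad := fun x => x ≠ 0 ∧ x ≠ 1 ∧ cond3 x ≤ s * hgt x)
    (s := (Module.finrank ℚ K : ℝ) * max 1 (s - 1)) (τ := t)
    (by positivity) ht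
    (fun ε hε => count s (by linarith) ε hε) (fun x => mixedEmbedding K x)
  rw [max_eq_right (by linarith)] at hE
  refine (dimH_mono fun p hp => ?_).trans hE
  by_contra hcon
  refine hp ((hE' p hcon 1).subset ?_)
  rintro x ⟨hx0, hx1, hx2, hx3⟩
  refine ⟨?_, hx0, hx1, hx3⟩
  refine (dist_le_of p x _ hx2).trans ?_
  rw [one_mul, ← Real.exp_mul]
  apply Real.exp_le_exp.2
  linarith

end Pool.Agent.H65KF
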