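import Pool.Agent.W17.WK.Cert

set_option autoImplicit false

/-!
The numerical certificate for the exponent `max 1 (lam - 1)`: the gap principle for the classes of the exponents
`≥ 2`, and the gap principle for the square roots, suffice.
-/

namespace Pool.Agent.H65KF

open Finset Pool.Agent.W17.WK

/-- the class of the exponent `1` -/
def i0 : Option (Fin 2) := some 0

/-- the class of the exponent `2` -/
def i1 : Option (Fin 2) := some 1

/-- the two bounds -/
def Alt (e C X η : ℝ) (v w : Fin 3 → Option (Fin 2) → ℝ) (s : Fin 3 → ℝ) : Prop :=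
  (tot v 0 {i0}ᶜ + tot v 1 {i0}ᶜ + tot v 2 {i0}ᶜ + max 0 (2 * X / (1 : ℕ) -
    ((tot w 0 {i0}ᶜ + s 0) + (tot w 1 {i0}ᶜ + s 1)) / (1 : ℕ) - (tot w 2 {i0}ᶜ + s 2)) ≤ e * X + C * η) ∨
  ∃ p q r : Fin 3, p ≠ q ∧ q ≠ r ∧ p ≠ r ∧
    tot v p {i1}ᶜ + tot v q {i1}ᶜ + tot v r {i0}ᶜ + max 0 (2 * X / (2 : ℕ) -
      ((tot w p {i1}ᶜ + s p) + (tot w q {i1}ᶜ + s q)) / (2 : ℕ) - (tot w r {i0}ᶜ + s r)) ≤ e * X + C * η

theorem cert (lam : ℝ) (X η : ℝ) (v w : Fin 3 → Option (Fin 2) → ℝ) (s : Fin 3 → ℝ) (hX : 0 ≤ X)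
    (hη : 0 ≤ η) (hP : Poly 2 lam X η v w s) : Alt (max 1 (lam - 1)) 4 X η v w s := by
  classical
  have hsum : ∀ f : Option (Fin 2) → ℝ, ∑ i, f i = f none + (f i0 + f i1) := by
    intro f
    rw [Fintype.sum_option, Fin.sum_univ_two]
    rfl
  have hv := hP.v_nn
  have hw0 : ∀ l, w l i0 = v l i0 := by
    intro l
    have := hP.w_eq l 0
    simpa [i0] using this
  have hw1 : ∀ l, w l i1 = 2 * v l i1 := by
    intro l
    have := hP.w_eq l 1
    simp only [Fin.val_one, Nat.cast_one] at this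
    rw [i1, this]
    norm_num
  have hw2 : ∀ l, 3 * v l none ≤ w l none := by
    intro l
    have := hP.w_tail l
    push_cast at this
    linarith
  have hT : ∀ (u : Fin 3 → Option (Fin 2) → ℝ) l, tot u l univ = u l none + (u l i0 + u l i1) := by
    intro u l
    exact hsum (u l)
  have hW : ∀ l, X - η ≤ w l none + (v l i0 + 2 * v l i1) + s l ∧
      w l none + (v l i0 + 2 * v l i1) + s l ≤ X + η := by
    intro l
    have h := abs_le.mp (hP.sum l)
    rw [hT, hw0, hw1] at h
    constructor <;> linarith [h.1, h.2]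
  have hc := hP.cost
  rw [hT, hT, hT] at hc
  have e1 : (1 : ℝ) * X ≤ max 1 (lam - 1) * X := mul_le_mul_of_nonneg_right (le_max_left _ _) hX
  have e2 : (lam - 1) * X ≤ max 1 (lam - 1) * X := mul_le_mul_of_nonneg_right (le_max_right _ _) hX
  have e3 : (lam - 1) * X = lam * X - X := by ring
  unfold Alt
  simp only [tot_compl, tot_single, hT, hw0, hw1, Nat.cast_one, div_one, Nat.cast_ofNat]
  by_contra hcon
  push Not at hcon
  obtain ⟨hA, hB⟩ := hcon
  have h012 := hB 0 1 2 (by decide) (by decide) (by decide)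
  have h120 := hB 1 2 0 (by decide) (by decide) (by decide)
  have h201 := hB 2 0 1 (by decide) (by decide) (by decide)
  have n0 := hv 0 none
  have n1 := hv 1 none
  have n2 := hv 2 none
  have a0 := hv 0 i0
  have a1 := hv 1 i0
  have a2 := hv 2 i0
  have b0 := hv 0 i1
  have b1 := hv 1 i1
  have b2 := hv 2 i1
  have t0 := hw2 0
  have t1 := hw2 1
  have t2 := hw2 2
  have s0 := hP.s_ge 0
  have s1 := hP.s_ge 1
  have s2 := hP.s_ge 2
  obtain ⟨w0l, w0u⟩ := hW 0
  obtain ⟨w1l, w1u⟩ := hW 1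
  obtain ⟨w2l, w2u⟩ := hW 2
  generalize hE : max 1 (lam - 1) * X = E at *
  generalize v 0 none = c0 at *
  generalize v 1 none = c1 at *
  generalize v 2 none = c2 at *
  generalize v 0 i0 = x0 at *
  generalize v 1 i0 = x1 at *
  generalize v 2 i0 = x2 at *
  generalize v 0 i1 = y0 at *
  generalize v 1 i1 = y1 at *
  generalize v 2 i1 = y2 at *
  generalize w 0 none = z0 at *
  generalize w 1 none = z1 at *
  generalize w 2 none = z2 at *
  generalize s 0 = s0' at *
  generalize s 1 = s1' at *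
  generalize s 2 = s2' at *
  -- the maxima vanish
  have key : ∀ a b c : ℝ, a < b + max 0 c → a < b ∨ a < b + c := by
    intro a b c h
    rcases le_total 0 c with h1 | h1
    · right; rwa [max_eq_right h1] at h
    · left; rwa [max_eq_left h1, add_zero] at h
  rcases key _ _ _ hA with hA | hA
  swap
  · linarith
  rcases key _ _ _ h012 with h012 | h012
  swap
  · linarith
  rcases key _ _ _ h120 with h120 | h120
  swap
  · linarith
  rcases key _ _ _ h201 with h201 | h201
  swap
  · linarith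
  linarith

end Pool.Agent.H65KF
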