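import Pool.Agent.H65KF.Pt

set_option autoImplicit false

/-!
The exponent in the count cannot be lowered.
-/

namespace Pool.Agent.H65KF

open NumberField NumberField.mixedEmbedding MeasureTheory Filter Topology Metric IsDedekindDomain
open scoped ENNReal Classical

variable {K : Type} [Field K] [NumberField K]

/-- the exponent in the count with three conditions is at least `d (a + b + c - 1)` -/
theorem count_sharp (a b c e : ℝ) (ha : 0 < a) (hb : 0 < b) (hc : 0 < c) (ha1 : a ≤ 1)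
    (hb1 : b ≤ 1) (hc1 : c ≤ 1) (hs : 1 < a + b + c)
    (he : e < (Module.finrank ℚ K : ℝ) * (a + b + c - 1)) : ¬ ∃ C : ℝ, ∀ B : ℝ, 1 ≤ B →
    (({x : K | (x ≠ 0 ∧ x ≠ 1 ∧ cnd x ≤ a * hgt x ∧ cnd x⁻¹ ≤ b * hgt x ∧
      cnd (x - 1) ≤ c * hgt x) ∧ Real.exp (hgt x) ≤ B}.ncard : ℕ) : ℝ) ≤ C * B ^ e := by
  rintro ⟨C, hC⟩
  have hd : (0 : ℝ) < Module.finrank ℚ K := by exact_mod_cast Module.finrank_pos
  obtain ⟨C₀, hC₀, hμ⟩ := vol_ball (K := K)
  obtain ⟨τ, h1, h2⟩ := exists_between (show max 0 (e / Module.finrank ℚ K) < a + b + c - 1 from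
    max_lt (by linarith) ((div_lt_iff₀ hd).2 (by rwa [mul_comm (a + b + c - 1)])))
  have hτ0 : 0 < τ := (le_max_left _ _).trans_lt h1
  have hτe : e < τ * Module.finrank ℚ K := by
    rw [← div_lt_iff₀ hd]
    exact (le_max_right _ _).trans_lt h1
  have hae := Pool.Agent.R559.NP.near_ae (T := K) (X := mixedSpace K) volume hμ
    (H := fun x => Real.exp (hgt x)) (fun x => Real.one_le_exp (height_nonneg x))
    (Bad := fun x => x ≠ 0 ∧ x ≠ 1 ∧ cnd x ≤ a * hgt x ∧ cnd x⁻¹ ≤ b * hgt x ∧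
      cnd (x - 1) ≤ c * hgt x)
    (s := max e 0) (τ := τ) (le_max_right _ _) (max_lt hτe (by positivity))
    (fun ε hε => by
      obtain ⟨C', hC'⟩ := count (K := K) 3 (by norm_num) 1 one_pos
      refine ⟨|C|, fun B hB => ⟨(hC' B hB).1.subset ?_, (hC B hB).trans ?_⟩⟩
      · rintro x ⟨⟨h3, h4, h5, h6, h7⟩, h8⟩
        refine ⟨⟨h3, h4, ?_⟩, h8⟩
        have hh := height_nonneg x
        have h9 := mul_le_mul_of_nonneg_right ha1 hh
        have h10 := mul_le_mul_of_nonneg_right hb1 hh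
        have h11 := mul_le_mul_of_nonneg_right hc1 hh
        unfold cond3
        linarith
      · calc C * B ^ e ≤ |C| * B ^ e :=
              mul_le_mul_of_nonneg_right (le_abs_self C) (Real.rpow_nonneg (by linarith) _)
          _ ≤ |C| * B ^ (max e 0 + ε) := by
            refine mul_le_mul_of_nonneg_left (Real.rpow_le_rpow_of_exponent_le hB ?_) (abs_nonneg C)
            have := le_max_left e 0
            linarith)
    (fun x => mixedEmbedding K x)
  have hne : (volume : Measure (mixedSpace K)) ≠ 0 := by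
    intro h
    have h9 := isOpen_univ.measure_pos (volume : Measure (mixedSpace K)) ⟨0, trivial⟩
    rw [h] at h9
    simp at h9
  have := ae_neBot.2 hne
  obtain ⟨p, hp, hp2⟩ := (hae.and (ae_avoids (K := K))).exists
  refine infinite_of_heights (fun B => ?_) (hp 1)
  obtain ⟨x, hx0, hx1, hxB, hxw, hxv, ha', hb', hc'⟩ :=
    Pool.Agent.Results.MP_f5a5f7_nt.ExponentAtEveryPoint.result.1 K a b c τ
      ha hb hc ha1 hb1 hc1 hs h2 p 0 1 B one_pos
      (fun w => hp2 0 w) (fun w => hp2 1 w) (Or.inl fun x w => hp2 x w)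
  have hh := height_nonneg x
  change B ≤ hgt x at hxB
  change ∀ w : InfinitePlace K, normAtPlace w (mixedEmbedding K x - p) ≤
    Real.exp (-τ * hgt x) at hxw
  refine ⟨x, ⟨?_, hx0, hx1, ha', hb', hc'⟩, hxB⟩
  rw [one_mul, ← Real.exp_mul, mul_comm]
  exact dist_le_of p x _ (by simpa only [neg_mul, mul_comm] using hxw)

end Pool.Agent.H65KF
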