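import Pool.Agent.Y729.RV.Tup
import Pool.Agent.W462.AK.Pre
import Pool.Agent.W52.AK.CNT

set_option autoImplicit false

/-!
The number of the divisors of an ideal.
-/

namespace Pool.Agent.H65KF

open NumberField IsDedekindDomain Finset

theorem div_card (K : Type) [Field K] [NumberField K] {δ : ℝ} (hδ : 0 < δ) :
    ∃ D : ℝ, 0 < D ∧ ∀ (J : Ideal (𝓞 K)) (Q : Finset (Ideal (𝓞 K))), J ≠ ⊥ →
      (∀ I ∈ Q, I ∣ J) → (Q.card : ℝ) ≤ D * (Ideal.absNorm J : ℝ) ^ δ := by
  classical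
  obtain ⟨D, hD, h⟩ := Pool.Agent.W462.AK.card_div (K := K) Pool.Agent.W52.AK.fac hδ
  refine ⟨D, hD, fun J Q hJ hQ => ?_⟩
  have hQ0 : ∀ I ∈ Q, I ≠ ⊥ := by
    intro I hI h0
    have h1 := hQ I hI
    rw [h0] at h1
    exact hJ (zero_dvd_iff.1 h1)
  have hinj : Set.InjOn (Pool.Agent.Y729.RV.ex (K := K)) (Q : Set (Ideal (𝓞 K))) := by
    intro I hI I' hI' he
    have h1 := hQ0 I hI
    have h1' := hQ0 I' hI'
    have e1 := Ideal.finprod_heightOneSpectrum_factorization h1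
    have e2 := Ideal.finprod_heightOneSpectrum_factorization h1'
    rw [← e1, ← e2]
    refine finprod_congr fun v => ?_
    unfold HeightOneSpectrum.maxPowDividing
    rw [← Pool.Agent.Y729.RV.ex_apply h1, ← Pool.Agent.Y729.RV.ex_apply h1', he]
  rw [← Finset.card_image_of_injOn hinj]
  have h2 := h (Pool.Agent.Y729.RV.ex J) (Q.image (Pool.Agent.Y729.RV.ex (K := K))) (by
    intro a ha
    obtain ⟨I, hI, rfl⟩ := Finset.mem_image.1 ha
    have h1 := hQ0 I hI
    intro v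
    rw [Pool.Agent.Y729.RV.ex_apply h1, Pool.Agent.Y729.RV.ex_apply hJ]
    have hirr : Irreducible (Associates.mk v.asIdeal) := by
      rw [Associates.irreducible_mk]
      exact v.irreducible
    rw [← Associates.prime_pow_dvd_iff_le (Associates.mk_ne_zero.2 hJ) hirr]
    refine le_trans ((Associates.prime_pow_dvd_iff_le (Associates.mk_ne_zero.2 h1) hirr).2 le_rfl) ?_
    exact Associates.mk_le_mk_of_dvd (hQ I hI))
  refine h2.trans (le_of_eq ?_)
  rw [Pool.Agent.Y729.RV.len_ex hJ, Real.rpow_def_of_pos, mul_comm δ]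
  have h3 : Ideal.absNorm J ≠ 0 := by rwa [Ne, Ideal.absNorm_eq_zero_iff]
  exact_mod_cast Nat.pos_of_ne_zero h3

end Pool.Agent.H65KF
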