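import Pool.Agent.H65KF.Pr
import Pool.Agent.H34x.KG.Main

set_option autoImplicit false

/-!
Many numbers with prescribed conductors, at every scale: the family.
-/

namespace Pool.Agent.H65KF.CL

open NumberField IsDedekindDomain Finset
open Module (finrank)
open Pool.Agent.H34x.KF (height num_mem norm_le)
open Pool.Agent.H34x.KG (w_nat cast_coprime cond_bound')

variable {K : Type} [Field K] [NumberField K]

/-- the number of a pair -/
noncomputable def xx (k0 k1 k2 n : ℕ) (p : (Ix K → ℕ) × (Ix K → ℕ)) : K :=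
  ((alp k0 k2 (gam k1 n p.1) p.2 : 𝓞 K) : K) / ((gam k1 n p.1 : 𝓞 K) : K)

/-- the norm of the common divisor -/
noncomputable def nI (k0 k1 k2 n : ℕ) (p : (Ix K → ℕ) × (Ix K → ℕ)) : ℕ :=
  Ideal.absNorm (Ideal.span {alp k0 k2 (gam k1 n p.1) p.2, gam k1 n p.1})

/-- few pairs have the same number -/
lemma fib_card (K : Type) [Field K] [NumberField K] : ∃ C : ℝ, 1 ≤ C ∧
    ∀ (k0 k1 k2 n : ℕ) (G : ℝ) (P : Finset ((Ix K → ℕ) × (Ix K → ℕ))), 0 < n → 1 ≤ G →
      (∀ p ∈ P, (∀ i, p.1 i < n) ∧ (nI k0 k1 k2 n p : ℝ) ≤ G) → ∀ b : K,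
      (∀ p ∈ P, xx k0 k1 k2 n p = b) → (P.card : ℝ) ≤ C * G ^ finrank ℚ K := by
  classical
  obtain ⟨C, hC1, hC⟩ := small_card K
  refine ⟨C * 4 ^ finrank ℚ K, ?_, ?_⟩
  · have : (1 : ℝ) ≤ 4 ^ finrank ℚ K := one_le_pow₀ (by norm_num)
    nlinarith
  intro k0 k1 k2 n G P hn hG hP b hb
  rcases P.eq_empty_or_nonempty with rfl | ⟨p1, hp1⟩
  · simp only [Finset.card_empty, Nat.cast_zero]
    positivity
  have hmem := Ideal.absNorm_mem (Ideal.span {alp k0 k2 (gam k1 n p1.1) p1.2, gam (K := K) k1 n p1.1})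
  obtain ⟨u, v, huv⟩ := Ideal.mem_span_pair.1 hmem
  have hN1 : ((nI k0 k1 k2 n p1 : ℕ) : 𝓞 K) = u * alp k0 k2 (gam k1 n p1.1) p1.2 +
      v * gam k1 n p1.1 := huv.symm
  have hN0 : nI k0 k1 k2 n p1 ≠ 0 := by
    unfold nI
    rw [Ne, Ideal.absNorm_eq_zero_iff, Ideal.span_eq_bot]
    intro h
    exact gam_ne k1 n p1.1 (h _ (by simp))
  have hN0K : ((nI k0 k1 k2 n p1 : ℕ) : 𝓞 K) ≠ 0 := by exact_mod_cast hN0
  -- cross multiplication
  have hcr : ∀ p ∈ P, alp k0 k2 (gam k1 n p.1) p.2 * gam k1 n p1.1 =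
      alp k0 k2 (gam k1 n p1.1) p1.2 * gam k1 n p.1 := by
    intro p hp
    have h1 := (hb p hp).trans (hb p1 hp1).symm
    unfold xx at h1
    have h2 : ((gam k1 n p.1 : 𝓞 K) : K) ≠ 0 := by exact_mod_cast gam_ne k1 n p.1
    have h3 : ((gam k1 n p1.1 : 𝓞 K) : K) ≠ 0 := by exact_mod_cast gam_ne k1 n p1.1
    rw [div_eq_div_iff h2 h3] at h1
    exact_mod_cast h1
  obtain ⟨z, hz⟩ : ∃ z : (Ix K → ℕ) × (Ix K → ℕ) → 𝓞 K, ∀ p, z p =
      u * alp k0 k2 (gam k1 n p.1) p.2 + v * gam k1 n p.1 := ⟨_, fun _ => rfl⟩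
  have hz1 : ∀ p ∈ P, z p * gam k1 n p1.1 = gam k1 n p.1 * (nI k0 k1 k2 n p1 : ℕ) := by
    intro p hp
    rw [hz, hN1]
    linear_combination u * hcr p hp
  have hinj : Set.InjOn z (P : Set ((Ix K → ℕ) × (Ix K → ℕ))) := by
    intro p hp p' hp' h
    have h1 := hz1 p hp
    have h2 := hz1 p' hp'
    rw [h, h2] at h1
    have h3 : gam k1 n p'.1 = gam (K := K) k1 n p.1 := mul_right_cancel₀ hN0K h1
    have h4 := gam_inj k1 n h3
    have h5 := hcr p hp
    have h6 := hcr p' hp'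
    rw [← h4] at h5
    have h7 := mul_right_cancel₀ (gam_ne k1 n p1.1) (h5.trans h6.symm)
    exact Prod.ext h4.symm (alp_inj k0 k2 _ h7)
  rw [← Finset.card_image_of_injOn hinj, mul_assoc, ← mul_pow]
  refine hC (4 * G) _ (by linarith) ?_
  intro y hy w
  obtain ⟨p, hp, rfl⟩ := Finset.mem_image.1 hy
  have h1 := congrArg (fun t : 𝓞 K => w (t : K)) (hz1 p hp)
  push_cast at h1
  rw [map_mul, map_mul, w_nat] at h1
  have h2 := w_gam_le k1 hn (hP p hp).1 w
  have h3 := le_w_gam k1 (hP p1 hp1).1 w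
  have h4 : (0 : ℝ) < 3 ^ k1 * (10 * cc K * n) := by
    have : (0 : ℝ) < cc K := by exact_mod_cast (cc_pos (K := K))
    have : (0 : ℝ) < n := by exact_mod_cast hn
    positivity
  have h5 : w ((z p : 𝓞 K) : K) * (3 ^ k1 * (10 * cc K * n)) ≤
      4 * G * (3 ^ k1 * (10 * cc K * n)) := by
    calc w ((z p : 𝓞 K) : K) * (3 ^ k1 * (10 * cc K * n)) ≤
        w ((z p : 𝓞 K) : K) * w ((gam k1 n p1.1 : 𝓞 K) : K) :=
          mul_le_mul_of_nonneg_left h3 (apply_nonneg w _)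
      _ = w ((gam k1 n p.1 : 𝓞 K) : K) * (nI k0 k1 k2 n p1 : ℕ) := h1
      _ ≤ (3 ^ k1 * (31 * cc K * n)) * G := by
        refine mul_le_mul h2 (hP p1 hp1).2 (Nat.cast_nonneg _) (by positivity)
      _ ≤ _ := by nlinarith
  exact le_of_mul_le_mul_right h5 h4

/-- the family -/
theorem pairs (K : Type) [Field K] [NumberField K] {δ : ℝ} (hδ : 0 < δ) : ∃ C : ℝ, 1 ≤ C ∧
    ∀ (k0 k1 k2 n n' r : ℕ) (B G a b c : ℝ), 0 < n → 0 < r → 1 ≤ k0 → 1 ≤ G → 1 ≤ B →
      ((cc K : ℝ) * r) ^ finrank ℚ K ≤ G → 3 ^ k1 * (31 * (cc K : ℝ) * n) ≤ B →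
      (cc K : ℝ) * MM k0 k2 * (n' + 1) ≤ B → Real.exp ((1 - a) * Real.log B) ≤ 2 ^ k0 →
      Real.exp ((1 - b) * Real.log B) ≤ 3 ^ k1 → Real.exp ((1 - c) * Real.log B) ≤ 5 ^ k2 →
      C * B ^ ((finrank ℚ K : ℝ) * δ) * ((n' : ℝ) / r + 1) ^ finrank ℚ K ≤
        (n' : ℝ) ^ finrank ℚ K / 2 →
      ∃ X : Finset K, (∀ x ∈ X, x ≠ 0 ∧ x ≠ 1 ∧ height x ≤ Real.log B ∧
        Real.log (3 ^ k1 * (10 * cc K * n)) - Real.log G / finrank ℚ K ≤ height x ∧
        Pool.Agent.H34x.KF.cond x ≤ a * Real.log B + 2 ∧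
        Pool.Agent.H34x.KF.cond x⁻¹ ≤ b * Real.log B + 3 ∧
        Pool.Agent.H34x.KF.cond (x - 1) ≤ c * Real.log B + (Real.log 2 + 5)) ∧
      (n : ℝ) ^ finrank ℚ K * (n' : ℝ) ^ finrank ℚ K / 2 ≤ C * G ^ finrank ℚ K * X.card := by
  classical
  obtain ⟨D, hD0, hD⟩ := div_card K hδ
  obtain ⟨C, hC1, hC⟩ := fib_card K
  refine ⟨max C D, hC1.trans (le_max_left _ _), ?_⟩
  intro k0 k1 k2 n n' r B G a b c hn hr hk0 hG hB hrG hB1 hB2 ha hb hc hmain
  obtain ⟨F, hF⟩ : ∃ F : Finset (Ix K → ℕ), F = Fintype.piFinset fun _ => Finset.range n :=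
    ⟨_, rfl⟩
  obtain ⟨F', hF'⟩ : ∃ F' : Finset (Ix K → ℕ), F' = Fintype.piFinset fun _ => Finset.range n' :=
    ⟨_, rfl⟩
  have hFm : ∀ f ∈ F, ∀ i, f i < n := by
    intro f hf i
    rw [hF, Fintype.mem_piFinset] at hf
    exact Finset.mem_range.1 (hf i)
  have hFm' : ∀ f ∈ F', ∀ i, f i < n' := by
    intro f hf i
    rw [hF', Fintype.mem_piFinset] at hf
    exact Finset.mem_range.1 (hf i)
  have hFc : (F.card : ℝ) = (n : ℝ) ^ finrank ℚ K := by
    rw [hF, Fintype.card_piFinset, Finset.prod_const, Finset.card_range, Finset.card_univ,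
      card_ix, Nat.cast_pow]
  have hFc' : (F'.card : ℝ) = (n' : ℝ) ^ finrank ℚ K := by
    rw [hF', Fintype.card_piFinset, Finset.prod_const, Finset.card_range, Finset.card_univ,
      card_ix, Nat.cast_pow]
  have hwg : ∀ f ∈ F, ∀ w : InfinitePlace K, w ((gam k1 n f : 𝓞 K) : K) ≤ B := fun f hf w =>
    (w_gam_le k1 hn (hFm f hf) w).trans hB1
  obtain ⟨P, hP⟩ : ∃ P : Finset ((Ix K → ℕ) × (Ix K → ℕ)), P =
      (F ×ˢ F').filter fun p => (nI k0 k1 k2 n p : ℝ) ≤ G := ⟨_, rfl⟩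
  have hPm : ∀ p ∈ P, p.1 ∈ F ∧ p.2 ∈ F' ∧ (nI k0 k1 k2 n p : ℝ) ≤ G := by
    intro p hp
    rw [hP, Finset.mem_filter, Finset.mem_product] at hp
    exact ⟨hp.1.1, hp.1.2, hp.2⟩
  -- the bad pairs
  have hbad : ((((F ×ˢ F').filter fun p => ¬ (nI k0 k1 k2 n p : ℝ) ≤ G).card : ℕ) : ℝ) ≤
      (n : ℝ) ^ finrank ℚ K * ((n' : ℝ) ^ finrank ℚ K / 2) := by
    refine (Pool.Agent.W462.AK.card_le_mul_fib _ (fun p => p.1) (n ^ finrank ℚ K)
      ((n' : ℝ) ^ finrank ℚ K / 2) (by positivity) ?_ ?_)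
    · rw [← hFc]
      refine Nat.cast_le.2 (Finset.card_le_card fun f hf => ?_)
      obtain ⟨p, hp, rfl⟩ := Finset.mem_image.1 hf
      exact (Finset.mem_product.1 (Finset.mem_filter.1 hp).1).1
    · intro f hf
      obtain ⟨p0, hp0, rfl⟩ := Finset.mem_image.1 hf
      have hp0F := (Finset.mem_product.1 (Finset.mem_filter.1 hp0).1).1
      have hinj : Set.InjOn (fun p : (Ix K → ℕ) × (Ix K → ℕ) => p.2)
          ((((F ×ˢ F').filter fun p => ¬ (nI k0 k1 k2 n p : ℝ) ≤ G).filter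
            fun p => p.1 = p0.1 : Finset _) : Set ((Ix K → ℕ) × (Ix K → ℕ))) := by
        intro p hp p' hp' h
        rw [Finset.mem_coe, Finset.mem_filter] at hp hp'
        exact Prod.ext (hp.2.trans hp'.2.symm) h
      rw [← Finset.card_image_of_injOn hinj]
      refine (bad_card hD0.le hD k0 k2 (n' := n') (gam_ne k1 n p0.1) (gam_cop k1 n p0.1) hr hrG _
        ?_).trans ?_
      · intro g hg
        obtain ⟨p, hp, rfl⟩ := Finset.mem_image.1 hg
        rw [Finset.mem_filter, Finset.mem_filter, Finset.mem_product] at hp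
        refine ⟨hFm' _ hp.1.1.2, ?_⟩
        rw [← hp.2]
        exact not_le.1 hp.1.2
      · have h1 : (Ideal.absNorm (Ideal.span {gam (K := K) k1 n p0.1}) : ℝ) ≤ B ^ finrank ℚ K :=
          norm_le (hwg _ hp0F)
        have h2 : (Ideal.absNorm (Ideal.span {gam (K := K) k1 n p0.1}) : ℝ) ^ δ ≤
            B ^ ((finrank ℚ K : ℝ) * δ) := by
          rw [Real.rpow_mul (by linarith), Real.rpow_natCast]
          exact Real.rpow_le_rpow (Nat.cast_nonneg _) h1 hδ.le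
        refine le_trans ?_ hmain
        refine mul_le_mul_of_nonneg_right ?_ (by positivity)
        exact mul_le_mul (le_max_right _ _) h2 (by positivity) (by positivity)
  have hgood : (n : ℝ) ^ finrank ℚ K * (n' : ℝ) ^ finrank ℚ K / 2 ≤ P.card := by
    have h1 := Finset.card_filter_add_card_filter_not (s := F ×ˢ F')
      (fun p => (nI k0 k1 k2 n p : ℝ) ≤ G)
    rw [← hP, Finset.card_product] at h1
    have h2 : (P.card : ℝ) + ((((F ×ˢ F').filter fun p => ¬ (nI k0 k1 k2 n p : ℝ) ≤ G).card : ℕ) : ℝ)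
        = (n : ℝ) ^ finrank ℚ K * (n' : ℝ) ^ finrank ℚ K := by
      rw [← hFc, ← hFc']
      exact_mod_cast h1
    linarith
  refine ⟨P.image (xx k0 k1 k2 n), ?_, ?_⟩
  · intro x hx
    obtain ⟨p, hp, rfl⟩ := Finset.mem_image.1 hx
    obtain ⟨hp1, hp2, hp3⟩ := hPm p hp
    have hγ := gam_ne (K := K) k1 n p.1
    have hγc := gam_cop (K := K) k1 n p.1
    have hα := alp_ne k0 k2 (gam (K := K) k1 n p.1) p.2
    have hαγ := alp_ne_gam hk0 k2 hγc p.2
    have hγK : ((gam k1 n p.1 : 𝓞 K) : K) ≠ 0 := by exact_mod_cast hγ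
    have hαK : ((alp k0 k2 (gam k1 n p.1) p.2 : 𝓞 K) : K) ≠ 0 := by exact_mod_cast hα
    have hwα : ∀ w : InfinitePlace K, w ((alp k0 k2 (gam k1 n p.1) p.2 : 𝓞 K) : K) ≤ B :=
      fun w => (w_alp k0 k2 _ (hFm' _ hp2) w).trans hB2
    have hT : Real.exp (Real.log B) = B := Real.exp_log (by linarith)
    refine ⟨div_ne_zero hαK hγK, ?_, Pool.Agent.H34x.KF.height_le hγ hwα (hwg _ hp1), ?_, ?_, ?_, ?_⟩
    · intro h
      unfold xx at h
      rw [div_eq_one_iff_eq hγK] at h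
      exact hαγ (by exact_mod_cast h)
    · have h4 : (0 : ℝ) < 3 ^ k1 * (10 * cc K * n) := by
        have : (0 : ℝ) < cc K := by exact_mod_cast (cc_pos (K := K))
        have : (0 : ℝ) < n := by exact_mod_cast hn
        positivity
      exact height_ge hγ h4 (fun w => le_w_gam k1 (hFm _ hp1) w) hp3
    · have h := cond_bound' (x := xx k0 k1 k2 n p) hα (fun v hv => num_mem hγ v hv) (b := 2)
        (e := k0) le_rfl (by exact_mod_cast alp_two k0 k2 _ _) (T := Real.log B) (A := 1)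
        (a := 1 - a) one_pos (fun w => by rw [hT, one_mul]; exact hwα w) (by exact_mod_cast ha)
      rw [Real.log_one] at h
      push_cast at h
      linarith
    · have e : (xx k0 k1 k2 n p)⁻¹ = ((gam k1 n p.1 : 𝓞 K) : K) /
          ((alp k0 k2 (gam k1 n p.1) p.2 : 𝓞 K) : K) := by
        unfold xx
        rw [inv_div]
      have h := cond_bound' (x := (xx k0 k1 k2 n p)⁻¹) hγ (fun v hv => by
          rw [e] at hv
          exact num_mem hα v hv) (b := 3)
        (e := k1) (by norm_num) (by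
          have : (3 : 𝓞 K) ^ k1 ∣ gam k1 n p.1 := Dvd.intro _ rfl
          exact_mod_cast this) (T := Real.log B) (A := 1)
        (a := 1 - b) one_pos (fun w => by rw [hT, one_mul]; exact hwg _ hp1 w)
        (by exact_mod_cast hb)
      rw [Real.log_one] at h
      push_cast at h
      linarith
    · have e : xx k0 k1 k2 n p - 1 = ((alp k0 k2 (gam k1 n p.1) p.2 - gam k1 n p.1 : 𝓞 K) : K) /
          ((gam k1 n p.1 : 𝓞 K) : K) := by
        unfold xx
        push_cast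
        rw [sub_div, div_self hγK]
      have h := cond_bound' (x := xx k0 k1 k2 n p - 1)
        (β := alp k0 k2 (gam k1 n p.1) p.2 - gam k1 n p.1) (sub_ne_zero.2 hαγ) (fun v hv => by
          rw [e] at hv
          exact num_mem hγ v hv) (b := 5)
        (e := k2) (by norm_num) (by exact_mod_cast alp_five k0 k2 _ _) (T := Real.log B) (A := 2)
        (a := 1 - c) two_pos (fun w => by
          rw [hT]
          push_cast
          have h1 := w.1.add_le ((alp k0 k2 (gam k1 n p.1) p.2 : 𝓞 K) : K)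
            (-((gam k1 n p.1 : 𝓞 K) : K))
          rw [AbsoluteValue.map_neg, ← sub_eq_add_neg] at h1
          have h2 := hwα w
          have h3 := hwg _ hp1 w
          refine h1.trans ?_
          have h4 : w.1 ((alp k0 k2 (gam k1 n p.1) p.2 : 𝓞 K) : K) ≤ B := h2
          have h5 : w.1 ((gam k1 n p.1 : 𝓞 K) : K) ≤ B := h3
          linarith) (by exact_mod_cast hc)
      push_cast at h
      linarith
  · have h1 : (P.card : ℝ) ≤ (P.image (xx k0 k1 k2 n)).card * (C * G ^ finrank ℚ K) := by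
      refine Pool.Agent.W462.AK.card_le_mul_fib P (xx k0 k1 k2 n) _ _ (by positivity) le_rfl ?_
      intro b hb
      refine hC k0 k1 k2 n G _ hn hG ?_ b ?_
      · intro p hp
        rw [Finset.mem_filter] at hp
        exact ⟨hFm _ (hPm p hp.1).1, (hPm p hp.1).2.2⟩
      · intro p hp
        rw [Finset.mem_filter] at hp
        exact hp.2
    have h2 : (C : ℝ) * G ^ finrank ℚ K * (P.image (xx k0 k1 k2 n)).card ≤
        max C D * G ^ finrank ℚ K * (P.image (xx k0 k1 k2 n)).card := by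
      have := le_max_left C D
      gcongr
    linarith

end Pool.Agent.H65KF.CL
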