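import Pool.Agent.W17.WK.All
import Pool.Agent.H65KF.Cert

set_option autoImplicit false
set_option linter.unusedSectionVars false

/-!
The count of the points with `rad ≤ lam h + c₀` over a number field, `lam` arbitrary: the exponent `max 1 (lam - 1)`.
-/

namespace Pool.Agent.H65KF

open NumberField IsDedekindDomain Finset Pool.Agent.H691R3 Pool.Agent.W223.AK Pool.Agent.W108.AK
open Pool.Agent.W17.WK

variable {K : Type} [Field K] [NumberField K]

section Cases

variable {S : Finset (Pr K)} {n : ℕ} {lam c₀ Y : ℝ} {E : Finset K} {P : K → Fin 3 → Idl K}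
  {x₀ : K}

/-- the gap principle with root extraction in a cell -/
lemma caseN_M (h : IsCellN S n lam c₀ Y E P x₀) {k : ℕ} {ε D : ℝ} (hD : 0 ≤ D)
    (hM : ∀ (X : ℝ) (E : Finset K) (P : K → Fin 3 → Idl K) (p q r : Fin 3) (I : Fin 3 → Set ℕ)
      (c g : Fin 3 → ℝ),
    0 ≤ X → (∀ x ∈ E, Pt x ∧ IsP S x (P x) ∧ ht x ≤ X) → p ≠ q → q ≠ r → p ≠ r →
    (∀ m, 1 ≤ m → m ∉ I p → k ∣ m) → (∀ m, 1 ≤ m → m ∉ I q → k ∣ m) →
    (∀ x ∈ E, ∀ l, rl (ex (P x l) (I l)) ≤ c l) →
    (∀ x ∈ E, ∀ l, g l ≤ len (ex (P x l) (I l)) + ∑ v ∈ Spl S, lm v l x) →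
    (E.card : ℝ) ≤ D * Real.exp (ε * X + (c p + c q + c r) +
      max 0 (2 * X / k - (g p + g q) / k - g r)))
    {p q r : Fin 3} {I : Fin 3 → Finset (Option (Fin n))} (hpq : p ≠ q) (hqr : q ≠ r) (hpr : p ≠ r)
    (hk : 1 ≤ k)
    (hIp : ∀ m, 1 ≤ m → m ∉ Unn n (I p) → k ∣ m)
    (hIq : ∀ m, 1 ≤ m → m ∉ Unn n (I q) → k ∣ m) {R : ℝ}
    (hR : rl (ex (P x₀ p) (Unn n (I p))) + rl (ex (P x₀ q) (Unn n (I q))) +
      rl (ex (P x₀ r) (Unn n (I r))) +
        max 0 (2 * Y / k - ((len (ex (P x₀ p) (Unn n (I p))) + ∑ v ∈ Spl S, lm v p x₀) +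
          (len (ex (P x₀ q) (Unn n (I q))) + ∑ v ∈ Spl S, lm v q x₀)) / k -
          (len (ex (P x₀ r) (Unn n (I r))) + ∑ v ∈ Spl S, lm v r x₀)) ≤ R) :
    (E.card : ℝ) ≤ D * Real.exp (ε * Y + R + 3 * (n + 1) +
      3 * ((n + 1) * (n + 1) + (Spl S).card)) := by
  have hk0 : (0 : ℝ) < k := by exact_mod_cast (by omega : 0 < k)
  have hn0 : (0 : ℝ) ≤ n := Nat.cast_nonneg n
  have hmain := hM Y E P p q r (fun l => Unn n (I l))
    (fun l => rl (ex (P x₀ l) (Unn n (I l))) + (n + 1))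
    (fun l => len (ex (P x₀ l) (Unn n (I l))) + ∑ v ∈ Spl S, lm v l x₀ -
      ((n + 1) * (n + 1) + (Spl S).card))
    h.Y_nonneg h.pt hpq hqr hpr hIp hIq
    (fun x hx l => h.rl_le hx l (I l))
    (fun x hx l => by
      have h1 := h.le_len hx l (I l)
      have h2 := (abs_le.mp (closeN_sum_lm (h.close x hx) l)).1
      linarith)
  refine hmain.trans (mul_le_mul_of_nonneg_left (Real.exp_le_exp.mpr ?_) hD)
  set G : ℝ := (n + 1) * (n + 1) + (Spl S).card with hG
  have hG0 : 0 ≤ G := by positivity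
  set a : ℝ := len (ex (P x₀ p) (Unn n (I p))) + ∑ v ∈ Spl S, lm v p x₀
  set b : ℝ := len (ex (P x₀ q) (Unn n (I q))) + ∑ v ∈ Spl S, lm v q x₀
  set c : ℝ := len (ex (P x₀ r) (Unn n (I r))) + ∑ v ∈ Spl S, lm v r x₀
  have h1 : 2 * Y / k - (a - G + (b - G)) / k - (c - G) =
      2 * Y / k - (a + b) / k - c + (2 * G / k + G) := by
    field_simp
    ring
  have h2 : 2 * G / k ≤ 2 * G := by
    rw [div_le_iff₀ hk0]
    have h3 : (1 : ℝ) ≤ k := by exact_mod_cast hk
    nlinarith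
  have h3 : max 0 (2 * Y / k - (a - G + (b - G)) / k - (c - G)) ≤
      max 0 (2 * Y / k - (a + b) / k - c) + 3 * G := by
    rw [h1]
    have h4 := le_max_left 0 (2 * Y / k - (a + b) / k - c)
    have h5 := le_max_right 0 (2 * Y / k - (a + b) / k - c)
    refine max_le ?_ ?_ <;> linarith
  linarith

end Cases

/-- the complement of the class of the exponent `2` -/
lemma dvd_i1 (m : ℕ) (hm : 1 ≤ m) (h : m ∉ Unn 2 {i1}ᶜ) : 2 ∣ m := by
  obtain ⟨i, hi⟩ := mem_cn (n := 2) hm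
  have h1 : i = i1 := by
    by_contra hne
    exact h ⟨i, by rw [Finset.mem_compl, Finset.mem_singleton]; exact hne, hi⟩
  rw [h1, i1] at hi
  simp only [cn, Option.elim, Fin.val_one, Set.mem_singleton_iff] at hi
  omega

/-- the bound for a cell -/
theorem cellM (lam : ℝ) (hlam : 0 ≤ lam) (S : Finset (Pr K)) (hSG : SGood S 2)
    (hM : StmtMB S) (c₀ δ : ℝ) (hδ : 0 < δ) :
    ∃ D : ℝ, 0 < D ∧ ∀ (P : K → Fin 3 → Idl K) (E : Finset K) (X : ℝ), 0 ≤ X →
      (∀ x ∈ E, Pt x ∧ IsP S x (P x) ∧ ht x ≤ X ∧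
        rl (P x 0) + rl (P x 1) + rl (P x 2) ≤ lam * ht x + c₀) →
      (∀ x ∈ E, ∀ y ∈ E, CloseN S 2 P x y) →
      (E.card : ℝ) ≤ D * Real.exp ((max 1 (lam - 1) + δ / 2) * X) := by
  classical
  set e : ℝ := max 1 (lam - 1) with he'
  have he : 0 ≤ e := zero_le_one.trans (le_max_left _ _)
  have hε : 0 < δ / 8 := by positivity
  have hSG1 : SGood S 1 := fun i h1 h2 => hSG i h1 (h2.trans (by norm_num))
  obtain ⟨D1, hD1, hm1⟩ := hM 1 (δ / 8) le_rfl hSG1 hε
  obtain ⟨D2, hD2, hm2⟩ := hM 2 (δ / 8) (by norm_num) hSG hε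
  set D0 : ℝ := D1 + D2 with hD0
  have hD00 : 0 < D0 := by positivity
  have hcS := cS_nonneg S
  set η : ℝ := 1 + cS S + |c₀| with hη
  have hη0 : 0 ≤ η := by positivity
  set K0 : ℝ := 4 * η + 3 * ((2 : ℕ) + 1) + 3 * (((2 : ℕ) + 1) * ((2 : ℕ) + 1) + (Spl S).card) with hK0
  have hK00 : 0 ≤ K0 := by positivity
  refine ⟨D0 * Real.exp (K0 + (e + δ / 2)), by positivity, ?_⟩
  intro P E X hX hEx hcl
  rcases E.eq_empty_or_nonempty with rfl | ⟨x₀, hx₀⟩
  · rw [Finset.card_empty, Nat.cast_zero]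
    positivity
  obtain ⟨hpt0, hP0, hht0, hrl0⟩ := hEx x₀ hx₀
  have hcell : IsCellN S 2 lam c₀ (ht x₀ + 1) E P x₀ := by
    refine ⟨hx₀, rfl, fun x hx => ?_, hrl0, fun x hx => hcl x hx x₀ hx₀⟩
    obtain ⟨h1, h2, _⟩ := hEx x hx
    have h3 := (abs_le.mp (hcl x hx x₀ hx₀).hht).2
    exact ⟨h1, h2, by linarith⟩
  set Y : ℝ := ht x₀ + 1 with hY
  have hhtn := ht_nonneg x₀
  have hY0 : 0 ≤ Y := hcell.Y_nonneg
  suffices hmain : (E.card : ℝ) ≤ D0 * Real.exp (K0 + (e + δ / 2) * Y) by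
    refine hmain.trans ?_
    rw [mul_assoc, ← Real.exp_add]
    refine mul_le_mul_of_nonneg_left (Real.exp_le_exp.mpr ?_) hD00.le
    have h1 : (e + δ / 2) * Y ≤ (e + δ / 2) * (X + 1) :=
      mul_le_mul_of_nonneg_left (by linarith) (by positivity)
    linarith
  -- the certificate
  set s : Fin 3 → ℝ := fun l => ∑ v ∈ Spl S, lm v l x₀ with hs
  have hpoly : Poly 2 lam Y η (fun l i => rl (ex (P x₀ l) (cn 2 i)))
      (fun l i => len (ex (P x₀ l) (cn 2 i))) s := by
    refine ⟨fun l i => rl_nonneg _, fun l i => ?_, fun l => ?_, fun l => ?_, fun l => ?_, ?_⟩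
    · show len (ex (P x₀ l) {(i : ℕ) + 1}) = _
      rw [len_single]
      push_cast
      rfl
    · have h1 := le_len_of (P x₀ l) (cn 2 none) (2 + 1) (fun m hm => by
        have : 2 < m := hm
        omega)
      push_cast at h1 ⊢
      linarith
    · have h1 := sum_lm_ge (S := S) hpt0 l
      have h2 := abs_nonneg c₀
      have h3 : s l = ∑ v ∈ Spl S, lm v l x₀ := rfl
      rw [h3]
      linarith
    · rw [tot_w_eq, exn_univ]
      have h1 := sum_lm hpt0 hP0 l
      have h3 : s l = ∑ v ∈ Spl S, lm v l x₀ := rfl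
      rw [h3, h1, hY]
      have h2 := abs_nonneg c₀
      have h4 : ht x₀ - (ht x₀ + 1) = -1 := by ring
      rw [h4, abs_neg, abs_one]
      linarith
    · rw [tot_v_eq, tot_v_eq, tot_v_eq, exn_univ, exn_univ, exn_univ]
      have h2 := le_abs_self c₀
      have h3 : lam * ht x₀ ≤ lam * Y := mul_le_mul_of_nonneg_left (by linarith) hlam
      linarith
  have hc := cert lam Y η _ _ s hY0 hη0 hpoly
  unfold Alt at hc
  simp only [tot_v_eq, tot_w_eq] at hc
  have h9 : (e + δ / 2) * Y = e * Y + δ * Y / 2 := by ring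
  have h3'' : 0 ≤ δ * Y := by positivity
  have h4 : δ / 8 * Y = (δ * Y) / 8 := by ring
  rcases hc with hin | ⟨p, q, r, hpq, hqr, hpr, hin⟩
  · have h1 := caseN_M (I := fun _ => {i0}ᶜ) hcell hD1.le hm1 (p := 0) (q := 1) (r := 2) (by decide) (by decide)
      (by decide) le_rfl (fun m _ _ => one_dvd m) (fun m _ _ => one_dvd m) hin
    refine h1.trans ?_
    refine mul_le_mul (by linarith) (Real.exp_le_exp.mpr ?_) (Real.exp_pos _).le hD00.le
    rw [h9, hK0, h4]
    linarith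
  · have hI : ∀ l, l ≠ r → (if l = r then ({i0}ᶜ : Finset (Option (Fin 2))) else {i1}ᶜ) = {i1}ᶜ :=
      fun l hl => if_neg hl
    have hIr : (if r = r then ({i0}ᶜ : Finset (Option (Fin 2))) else {i1}ᶜ) = {i0}ᶜ := if_pos rfl
    have h1 := caseN_M (I := fun l => if l = r then {i0}ᶜ else {i1}ᶜ) hcell hD2.le hm2 (p := p) (q := q)
      (r := r) hpq hqr hpr (by norm_num)
      (fun m h1 h2 => by
        simp only [hI p hpr] at h2
        exact dvd_i1 m h1 h2)
      (fun m h1 h2 => by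
        simp only [hI q hqr] at h2
        exact dvd_i1 m h1 h2)
      (R := e * Y + 4 * η) (by
        simp only [hI p hpr, hI q hqr, if_true]
        exact hin)
    refine h1.trans ?_
    refine mul_le_mul (by linarith) (Real.exp_le_exp.mpr ?_) (Real.exp_pos _).le hD00.le
    rw [h9, hK0, h4]
    linarith

theorem finM (K : Type) [Field K] [NumberField K] (lam : ℝ) (hlam : 0 ≤ lam) :
    StmtF K lam (max 1 (lam - 1)) := by
  classical
  intro T c₀ δ hδ
  -- the set of special primes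
  have hfin : ∀ i : ℕ, {v : Pr K | 1 ≤ i ∧ fv v (i : K) ≠ 1}.Finite := by
    intro i
    by_cases hi : 1 ≤ i
    · refine (fv_support_finite (K := K) (x := (i : K)) ?_).subset fun v hv => hv.2
      exact_mod_cast (by omega : i ≠ 0)
    · refine Set.Finite.subset Set.finite_empty fun v hv => absurd hv.1 hi
  obtain ⟨S, hS, w, C, hw⟩ := Pool.Agent.W45.AK.uni (K := K)
    (T ∪ (Finset.range (2 + 1)).biUnion fun i => (hfin i).toFinset)
  have hTS : T ⊆ S := Finset.subset_union_left.trans hS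
  have hSG : SGood S 2 := by
    intro i h1 h2 v hv
    by_contra hcon
    apply hv
    apply hS
    rw [Finset.mem_union, Finset.mem_biUnion]
    right
    exact ⟨i, Finset.mem_range.mpr (by omega), by
      rw [Set.Finite.mem_toFinset]; exact ⟨h1, hcon⟩⟩
  obtain ⟨D1, hD1, hcell⟩ := cellM lam hlam S hSG (Pool.Agent.W108.AK.mb S) c₀ δ hδ
  obtain ⟨D2, hD2, hcount⟩ := cells (Unit ⊕ (Fin 3 × (Fin 2 ⊕ (Bool ⊕ {v // v ∈ Spl S}))))
    (cS S) (δ / 2) (cS_nonneg S) (by positivity)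
  refine ⟨D2 * D1, by positivity, ?_⟩
  intro X E hX hEx
  have hex : ∀ x : K, ∃ P : Fin 3 → Idl K, x ∈ E →
      (IsP S x P ∧ rl (P 0) + rl (P 1) + rl (P 2) ≤ lam * ht x + c₀) := by
    intro x
    by_cases hx : x ∈ E
    · obtain ⟨_, _, P, hP, hrl⟩ := hEx x hx
      refine ⟨fun l => (P l).filter (fun v => v ∉ S), fun _ => ⟨restrict_isP hTS hP, ?_⟩⟩
      have h0 := rl_filter_le S (P 0)
      have h1 := rl_filter_le S (P 1)
      have h2 := rl_filter_le S (P 2)
      linarith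
    · exact ⟨fun _ => 0, fun h => absurd h hx⟩
  choose P hP using hex
  have hmain := hcount K (cfN S 2 P) X E hX ?_ (D1 * Real.exp ((max 1 (lam - 1) + δ / 2) * X))
    (by positivity) ?_
  · refine hmain.trans (le_of_eq ?_)
    have h1 : (max 1 (lam - 1) + δ) * X = δ / 2 * X + (max 1 (lam - 1) + δ / 2) * X := by ring
    rw [h1, Real.exp_add]
    ring
  · intro x hx j
    obtain ⟨hpt, hht, _⟩ := hEx x hx
    obtain ⟨hPx, _⟩ := hP x hx
    have hcS := cS_nonneg S
    have hlen : ∀ l, len (P x l) ≤ X + cS S := fun l => by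
      have := len_le hpt hPx l
      linarith
    rcases j with _ | ⟨l, i | (b | v)⟩
    · show -cS S ≤ ht x ∧ ht x ≤ X + cS S
      have := ht_nonneg x
      constructor <;> linarith
    · show -cS S ≤ rl (ex (P x l) {(i : ℕ) + 1}) ∧ rl (ex (P x l) {(i : ℕ) + 1}) ≤ X + cS S
      have h1 := rl_nonneg (ex (P x l) {(i : ℕ) + 1})
      have h2 := rl_ex_le (P x l) {(i : ℕ) + 1}
      have h3 := hlen l
      constructor <;> linarith
    · rcases b with _ | _
      · show -cS S ≤ len (ex (P x l) {m | 2 < m}) ∧ len (ex (P x l) {m | 2 < m}) ≤ X + cS S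
        have h1 := len_nonneg (ex (P x l) {m | 2 < m})
        have h2 := len_ex_le (P x l) {m | 2 < m}
        have h3 := hlen l
        constructor <;> linarith
      · show -cS S ≤ rl (ex (P x l) {m | 2 < m}) ∧ rl (ex (P x l) {m | 2 < m}) ≤ X + cS S
        have h1 := rl_nonneg (ex (P x l) {m | 2 < m})
        have h2 := rl_ex_le (P x l) {m | 2 < m}
        have h3 := hlen l
        constructor <;> linarith
    · show -cS S ≤ lm v.1 l x ∧ lm v.1 l x ≤ X + cS S
      have h1 := lm_ge hpt v.1 l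
      have h2 := lm_le hpt v.2 l
      have h3 : mt v.1 * Real.log 2 ≤ cS S :=
        Finset.single_le_sum (f := fun u : Pl K => mt u * Real.log 2)
          (fun u _ => mul_nonneg (mt_pos u).le (Real.log_nonneg (by norm_num))) v.2
      constructor <;> linarith
  · intro G hGE hG
    refine hcell P G X hX ?_ ?_
    · intro x hx
      obtain ⟨hpt, hht, _⟩ := hEx x (hGE hx)
      obtain ⟨hPx, hrl⟩ := hP x (hGE hx)
      exact ⟨hpt, hPx, hht, hrl⟩
    · intro x hx y hy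
      exact ⟨hG (Sum.inl ()) x hx y hy,
        fun l i => hG (Sum.inr (l, Sum.inl i)) x hx y hy,
        fun l => hG (Sum.inr (l, Sum.inr (Sum.inl true))) x hx y hy,
        fun l => hG (Sum.inr (l, Sum.inr (Sum.inl false))) x hx y hy,
        fun l v hv => hG (Sum.inr (l, Sum.inr (Sum.inr ⟨v, hv⟩))) x hx y hy⟩

end Pool.Agent.H65KF
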