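import Pool.Agent.H65KF.Pt

set_option autoImplicit false

/-!
The exact set of limit points near almost every point, and the exact constant.
-/

namespace Pool.Agent.H65KF

open NumberField NumberField.mixedEmbedding MeasureTheory Filter Topology Metric IsDedekindDomain
open scoped ENNReal Classical

variable {K : Type} [Field K] [NumberField K]

/-- `z` is a limit point of the triples of the conductors divided by the height, for the elements
of `S` -/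
def Lp (S : Set K) (z : Fin 3 → ℝ) : Prop :=
  ∀ ε : ℝ, 0 < ε → ∀ B : ℝ, ∃ x ∈ S, Ex z ε x ∧ B ≤ hgt x

lemma Lp.le_one {S : Set K} (hS : ∀ x ∈ S, x ≠ 0 ∧ x ≠ 1) {z : Fin 3 → ℝ} (h : Lp S z) :
    ∀ i, z i ≤ 1 := by
  obtain ⟨C, hC0, hC⟩ := cond_le_height (K := K)
  have key : ∀ (f : K → ℝ) (i : Fin 3), (∀ x ∈ S, f x ≤ hgt x + C) →
      (∀ (ε : ℝ) (x : K), Ex z ε x → |f x - z i * hgt x| ≤ ε * hgt x) → z i ≤ 1 := by
    intro f i h1 h2
    by_contra hcon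
    rw [not_le] at hcon
    obtain ⟨x, hx, hx2, hx3⟩ := h ((z i - 1) / 2) (by linarith) (2 * (C + 1) / (z i - 1))
    have h3 := (abs_le.1 (h2 _ x hx2)).1
    have h4 := h1 x hx
    rw [div_le_iff₀ (by linarith)] at hx3
    nlinarith
  intro i
  fin_cases i
  · exact key (fun x => cnd x) 0 (fun x hx => (hC x (hS x hx).1 (hS x hx).2).1)
      (fun ε x hx => hx.1)
  · exact key (fun x => cnd x⁻¹) 1 (fun x hx => (hC x (hS x hx).1 (hS x hx).2).2.1)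
      (fun ε x hx => hx.2.1)
  · exact key (fun x => cnd (x - 1)) 2 (fun x hx => (hC x (hS x hx).1 (hS x hx).2).2.2)
      (fun ε x hx => hx.2.2)

lemma Lp.sum_ge {p : mixedSpace K} (hp : Gd p) {t : ℝ} (ht : 1 < t) {S : Set K}
    (hS : ∀ x ∈ S, Nr t p x) {z : Fin 3 → ℝ} (h : Lp S z) : 1 + t ≤ z 0 + z 1 + z 2 := by
  by_contra hcon
  rw [not_le] at hcon
  obtain ⟨M, hM0, hM⟩ := bdd_of_finite (hp.2 t
    (z 0 + z 1 + z 2 + 3 * ((1 + t - (z 0 + z 1 + z 2)) / 6)) ht (by linarith))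
  obtain ⟨x, hx, hx2, hx3⟩ := h ((1 + t - (z 0 + z 1 + z 2)) / 6) (by linarith) M
  obtain ⟨hx0, hx1, hxw⟩ := hS x hx
  exact absurd (hM x ⟨hx0, hx1, hxw, hx2.cond3_le⟩) (not_lt.2 hx3)

/-- the exact set of limit points -/
theorem lp_iff {p : mixedSpace K} (hp : Gd p) {t : ℝ} (ht : 1 < t) (ht2 : t < 2) (y : K) (N : ℕ)
    (hN : 0 < N) (z : Fin 3 → ℝ) :
    Lp {x | Nr t p x ∧ Cg N y x} z ↔ (∀ i, z i ≤ 1) ∧ 1 + t ≤ z 0 + z 1 + z 2 := by
  constructor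
  · intro h
    exact ⟨h.le_one fun x hx => ⟨hx.1.1, hx.1.2.1⟩, h.sum_ge hp ht fun x hx => hx.1⟩
  · rintro ⟨h1, h2⟩ ε hε B
    obtain ⟨x, a1, a2, a3, a4⟩ := exists_exact' hp z h1 (1 + t) (by linarith) (by linarith) h2 t
      (by linarith) ε hε y N hN B
    exact ⟨x, ⟨a1, a2⟩, a3, a4⟩

/-- the weak abc inequality with a constant `κ > 1 / (1 + t)` -/
theorem abc_near {p : mixedSpace K} (hp : Gd p) {t : ℝ} (ht : 1 < t) {κ : ℝ}
    (hκ : 1 / (1 + t) < κ) : ∃ C : ℝ, ∀ x : K, Nr t p x → hgt x ≤ κ * cond3 x + C := by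
  have hκ0 : 0 < κ := (by positivity : (0 : ℝ) < 1 / (1 + t)).trans hκ
  have h1 : 1 / κ < 1 + t := by
    rw [div_lt_iff₀ hκ0]
    rw [div_lt_iff₀ (by linarith)] at hκ
    linarith
  obtain ⟨M, hM0, hM⟩ := bdd_of_finite (hp.2 t (1 / κ) ht h1)
  refine ⟨M, fun x hx => ?_⟩
  have h3 : 0 ≤ κ * cond3 x := by
    have := cond_nonneg x
    have := cond_nonneg x⁻¹
    have := cond_nonneg (x - 1)
    unfold cond3
    positivity
  by_cases h2 : cond3 x ≤ 1 / κ * hgt x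
  · have := hM x ⟨hx.1, hx.2.1, hx.2.2, h2⟩
    linarith
  · rw [not_le] at h2
    have h4 : hgt x < κ * cond3 x := by
      have h5 := mul_lt_mul_of_pos_left h2 hκ0
      rwa [← mul_assoc, mul_one_div_cancel hκ0.ne', one_mul] at h5
    linarith

/-- violations of the inequality with constant `κ` -/
def Vio (κ t : ℝ) (N : ℕ) (y : K) (p : mixedSpace K) : Prop :=
  ∀ C : ℝ, ∃ x : K, Nr t p x ∧ Cg N y x ∧ κ * cond3 x + C < hgt x

lemma vio_of_lp {κ σ t : ℝ} (hκ : 0 < κ) (hκσ : σ < 1 / κ) {N : ℕ} {y : K}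
    {p : mixedSpace K} (h : Lp {x | Nr t p x ∧ Cg N y x} fun _ => σ / 3) : Vio κ t N y p := by
  intro C
  have h1 : κ * σ < 1 := by rwa [lt_div_iff₀ hκ, mul_comm] at hκσ
  obtain ⟨δ, hδ⟩ : ∃ δ : ℝ, δ = 1 - κ * σ := ⟨_, rfl⟩
  have hδ0 : 0 < δ := by linarith
  obtain ⟨x, hx, hx2, hx3⟩ := h (δ / (6 * κ)) (by positivity) (2 * (max C 0 + 1) / δ)
  have h2 := hx2.cond3_le
  have hh := height_nonneg x
  refine ⟨x, hx.1, hx.2, ?_⟩
  rw [div_le_iff₀ hδ0] at hx3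
  have h3 : κ * cond3 x ≤ (1 - δ / 2) * hgt x := by
    calc κ * cond3 x ≤ κ * ((σ / 3 + σ / 3 + σ / 3 + 3 * (δ / (6 * κ))) * hgt x) :=
          mul_le_mul_of_nonneg_left h2 hκ.le
      _ = (κ * σ + δ / 2) * hgt x := by field_simp; ring
      _ = (1 - δ / 2) * hgt x := by rw [hδ]; ring
  have h4 := le_max_left C 0
  nlinarith

/-- violations near almost every point for `κ < 1 / (1 + t)` -/
theorem vio_near {p : mixedSpace K} (hp : Gd p) {t : ℝ} (ht : 1 < t) (ht2 : t < 2) {κ : ℝ}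
    (hκ0 : 0 < κ) (hκ : κ < 1 / (1 + t)) (y : K) (N : ℕ) (hN : 0 < N) : Vio κ t N y p := by
  have h1 : 1 + t < 1 / κ := by
    rw [lt_div_iff₀ hκ0]
    rw [lt_div_iff₀ (by linarith)] at hκ
    linarith
  refine vio_of_lp hκ0 h1 ((lp_iff hp ht ht2 y N hN _).2 ⟨fun _ => ?_, ?_⟩)
  · linarith
  · linarith

end Pool.Agent.H65KF
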