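import Pool.Agent.H34x.KF.Ht

set_option autoImplicit false

/-!
Integers of a number field with small coordinates.
-/

namespace Pool.Agent.H65KF.CL

open NumberField IsDedekindDomain Finset
open Module (finrank)

/-- the index set of the integral basis -/
abbrev Ix (K : Type) [Field K] [NumberField K] : Type := Module.Free.ChooseBasisIndex ℤ (𝓞 K)

variable {K : Type} [Field K] [NumberField K]

lemma card_ix : Fintype.card (Ix K) = finrank ℚ K := by
  rw [← Module.finrank_eq_card_chooseBasisIndex, RingOfIntegers.rank]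

/-- the integer with given coordinates -/
noncomputable def vv (f : Ix K → ℤ) : 𝓞 K := ∑ i, f i • RingOfIntegers.basis K i

lemma vv_sub (f g : Ix K → ℤ) : vv f - vv g = vv (fun i => f i - g i) := by
  unfold vv
  rw [← Finset.sum_sub_distrib]
  exact Finset.sum_congr rfl fun i _ => (sub_smul _ _ _).symm

lemma repr_vv (f : Ix K → ℤ) (i : Ix K) : (RingOfIntegers.basis K).repr (vv f) i = f i := by
  unfold vv
  rw [map_sum, Finsupp.finsetSum_apply]
  simp only [map_smul, Module.Basis.repr_self, Finsupp.smul_apply, smul_eq_mul]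
  rw [Finset.sum_eq_single i]
  · simp
  · intro j _ hj
    simp [hj]
  · intro h
    exact absurd (Finset.mem_univ i) h

lemma vv_inj : Function.Injective (vv (K := K)) := by
  intro f g h
  funext i
  rw [← repr_vv f i, ← repr_vv g i, h]

lemma vv_repr (z : 𝓞 K) : vv (fun i => (RingOfIntegers.basis K).repr z i) = z :=
  (RingOfIntegers.basis K).sum_repr z

/-- the constant -/
noncomputable def cc (K : Type) [Field K] [NumberField K] : ℕ :=
  ⌈∑ w : InfinitePlace K, ∑ i, w ((RingOfIntegers.basis K i : 𝓞 K) : K)⌉₊ + 1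

lemma cc_pos : 0 < cc K := Nat.succ_pos _

lemma w_intCast (w : InfinitePlace K) (n : ℤ) : w ((n : ℤ) : K) = |(n : ℝ)| := by
  rw [← mixedEmbedding.normAtPlace_apply w]
  have h : mixedEmbedding K ((n : ℤ) : K) = (n : ℝ) • (1 : mixedEmbedding.mixedSpace K) := by
    rw [map_intCast, Int.cast_smul_eq_zsmul, zsmul_eq_mul, mul_one]
  rw [h, mixedEmbedding.normAtPlace_smul, map_one, mul_one]

lemma w_vv (f : Ix K → ℤ) {r : ℝ} (hr : 0 ≤ r) (hf : ∀ i, |(f i : ℝ)| ≤ r)
    (w : InfinitePlace K) : w ((vv f : 𝓞 K) : K) ≤ cc K * r := by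
  have h1 : w ((vv f : 𝓞 K) : K) ≤ ∑ i, |(f i : ℝ)| * w ((RingOfIntegers.basis K i : 𝓞 K) : K) := by
    unfold vv
    push_cast
    refine (Finset.le_sum_of_subadditive (fun x : K => w x) (map_zero w).le
      (fun x y => w.1.add_le x y) _ _).trans ?_
    refine Finset.sum_le_sum fun i _ => ?_
    rw [zsmul_eq_mul, map_mul, w_intCast]
  have h2 : ∑ i, |(f i : ℝ)| * w ((RingOfIntegers.basis K i : 𝓞 K) : K) ≤
      ∑ i, r * w ((RingOfIntegers.basis K i : 𝓞 K) : K) :=
    Finset.sum_le_sum fun i _ => mul_le_mul_of_nonneg_right (hf i) (apply_nonneg w _)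
  rw [← Finset.mul_sum] at h2
  have h3 : ∑ i, w ((RingOfIntegers.basis K i : 𝓞 K) : K) ≤ cc K := by
    have h4 : ∑ i, w ((RingOfIntegers.basis K i : 𝓞 K) : K) ≤
        ∑ w : InfinitePlace K, ∑ i, w ((RingOfIntegers.basis K i : 𝓞 K) : K) :=
      Finset.single_le_sum (f := fun w : InfinitePlace K =>
        ∑ i, w ((RingOfIntegers.basis K i : 𝓞 K) : K))
        (fun w _ => Finset.sum_nonneg fun i _ => apply_nonneg w _) (Finset.mem_univ w)
    refine h4.trans ((Nat.le_ceil _).trans ?_)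
    unfold cc
    push_cast
    linarith
  rw [mul_comm]
  exact h1.trans (h2.trans (mul_le_mul_of_nonneg_left h3 hr))

/-- a small element of an ideal is zero -/
lemma norm_sep {I : Ideal (𝓞 K)} {z : 𝓞 K} (hz : z ∈ I) {A : ℝ}
    (hA : ∀ w : InfinitePlace K, w (z : K) ≤ A)
    (hI : A ^ finrank ℚ K < (Ideal.absNorm I : ℝ)) : z = 0 := by
  by_contra h0
  have h1 : Ideal.absNorm I ∣ Ideal.absNorm (Ideal.span {z}) :=
    Ideal.absNorm_dvd_absNorm_of_le ((Ideal.span_singleton_le_iff_mem _).2 hz)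
  have h2 : Ideal.absNorm (Ideal.span {z}) ≠ 0 := by
    rw [Ne, Ideal.absNorm_eq_zero_iff, Ideal.span_singleton_eq_bot]
    exact h0
  have h3 : (Ideal.absNorm I : ℝ) ≤ Ideal.absNorm (Ideal.span {z}) := by
    exact_mod_cast Nat.le_of_dvd (Nat.pos_of_ne_zero h2) h1
  exact absurd (h3.trans (Pool.Agent.H34x.KF.norm_le hA)) (not_le.2 hI)

/-- separation modulo an ideal -/
lemma sep {I : Ideal (𝓞 K)} {M : 𝓞 K} (hM : IsCoprime (Ideal.span {M}) I) (β : 𝓞 K) {n r : ℕ}
    (hr : 0 < r) (hI : ((cc K : ℝ) * r) ^ finrank ℚ K < (Ideal.absNorm I : ℝ))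
    (E : Finset (Ix K → ℕ)) (hE : ∀ g ∈ E, (∀ i, g i < n) ∧
      β + M * vv (fun i => (g i : ℤ)) ∈ I) :
    (E.card : ℝ) ≤ ((n : ℝ) / r + 1) ^ finrank ℚ K := by
  classical
  have hinj : Set.InjOn (fun (g : Ix K → ℕ) (i : Ix K) => g i / r) (E : Set (Ix K → ℕ)) := by
    intro g hg g' hg' h
    have h1 : M * vv (fun i => (g i : ℤ) - (g' i : ℤ)) ∈ I := by
      rw [← vv_sub, mul_sub]
      have h2 := I.sub_mem (hE g hg).2 (hE g' hg').2
      have h3 : β + M * vv (fun i => (g i : ℤ)) - (β + M * vv (fun i => (g' i : ℤ))) =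
          M * vv (fun i => (g i : ℤ)) - M * vv (fun i => (g' i : ℤ)) := by ring
      rwa [h3] at h2
    have h4 : vv (fun i => (g i : ℤ) - (g' i : ℤ)) ∈ I := by
      obtain ⟨a, ha, b, hb, hab⟩ := Ideal.isCoprime_iff_exists.1 hM
      obtain ⟨c, rfl⟩ := Ideal.mem_span_singleton'.1 ha
      have h5 : vv (fun i => (g i : ℤ) - (g' i : ℤ)) =
          c * (M * vv (fun i => (g i : ℤ) - (g' i : ℤ))) +
            b * vv (fun i => (g i : ℤ) - (g' i : ℤ)) := by
        calc vv (fun i => (g i : ℤ) - (g' i : ℤ)) =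
            (c * M + b) * vv (fun i => (g i : ℤ) - (g' i : ℤ)) := by rw [hab, one_mul]
          _ = _ := by ring
      rw [h5]
      exact I.add_mem (I.mul_mem_left _ h1) (I.mul_mem_right _ hb)
    have h6 : vv (fun i => (g i : ℤ) - (g' i : ℤ)) = 0 := by
      refine norm_sep h4 (A := (cc K : ℝ) * r) (fun w => w_vv _ (Nat.cast_nonneg _)
        (fun i => ?_) w) hI
      have h7 : g i / r = g' i / r := congrFun h i
      have h8 := Nat.div_add_mod (g i) r
      have h9 := Nat.div_add_mod (g' i) r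
      have h10 := Nat.mod_lt (g i) hr
      have h11 := Nat.mod_lt (g' i) hr
      rw [h7] at h8
      have h12 : g i ≤ g' i + r := by omega
      have h13 : g' i ≤ g i + r := by omega
      have h14 : (g i : ℝ) ≤ g' i + r := by exact_mod_cast h12
      have h15 : (g' i : ℝ) ≤ g i + r := by exact_mod_cast h13
      push_cast
      rw [abs_le]
      constructor <;> linarith
    have h7 : (fun i => (g i : ℤ) - (g' i : ℤ)) = fun _ : Ix K => (0 : ℤ) := by
      apply vv_inj
      rw [h6]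
      unfold vv
      simp
    funext i
    have h8 : (g i : ℤ) - (g' i : ℤ) = 0 := congrFun h7 i
    omega
  rw [← Finset.card_image_of_injOn hinj]
  have h1 : (E.image fun (g : Ix K → ℕ) (i : Ix K) => g i / r) ⊆
      Fintype.piFinset fun _ : Ix K => Finset.range (n / r + 1) := by
    intro h hh
    obtain ⟨g, hg, rfl⟩ := Finset.mem_image.1 hh
    rw [Fintype.mem_piFinset]
    intro i
    rw [Finset.mem_range]
    have := Nat.div_le_div_right (c := r) ((hE g hg).1 i).le
    omega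
  have h2 := Finset.card_le_card h1
  rw [Fintype.card_piFinset, Finset.prod_const, Finset.card_range, Finset.card_univ,
    card_ix] at h2
  have h3 : (((E.image fun (g : Ix K → ℕ) (i : Ix K) => g i / r).card : ℕ) : ℝ) ≤
      ((n / r + 1 : ℕ) : ℝ) ^ finrank ℚ K := by exact_mod_cast h2
  refine h3.trans (pow_le_pow_left₀ (by positivity) ?_ _)
  push_cast
  have := Nat.cast_div_le (α := ℝ) (m := n) (n := r)
  linarith

/-- the number of the integers with small conjugates -/
lemma small_card (K : Type) [Field K] [NumberField K] : ∃ C : ℝ, 1 ≤ C ∧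
    ∀ (R : ℝ) (E : Finset (𝓞 K)), 1 ≤ R →
      (∀ z ∈ E, ∀ w : InfinitePlace K, w (z : K) ≤ R) → (E.card : ℝ) ≤ C * R ^ finrank ℚ K := by
  classical
  obtain ⟨C1, hC1, hC⟩ : ∃ C1 : ℝ, 0 ≤ C1 ∧ ∀ (x : mixedEmbedding.mixedSpace K) (i : Ix K),
      |(mixedEmbedding.latticeBasis K).repr x i| ≤ C1 * ‖x‖ := by
    let L := LinearMap.toContinuousLinearMap
      ((mixedEmbedding.latticeBasis K).equivFun.toLinearMap)
    refine ⟨‖L‖, norm_nonneg _, fun x i => ?_⟩
    have h1 := L.le_opNorm x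
    have h2 := norm_le_pi_norm (L x) i
    exact h2.trans h1
  refine ⟨(2 * C1 + 1) ^ finrank ℚ K, one_le_pow₀ (by linarith), fun R E hR hE => ?_⟩
  have hco : ∀ z ∈ E, ∀ i, |((RingOfIntegers.basis K).repr z i : ℝ)| ≤ C1 * R := by
    intro z hz i
    have h1 := hC (mixedEmbedding K (z : K)) i
    rw [mixedEmbedding.latticeBasis_repr_apply, integralBasis_repr_apply] at h1
    have h2 : ‖mixedEmbedding K (z : K)‖ ≤ R := by
      rw [mixedEmbedding.norm_eq_sup'_normAtPlace]
      refine Finset.sup'_le _ _ fun w _ => ?_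
      rw [mixedEmbedding.normAtPlace_apply]
      exact hE z hz w
    refine le_trans ?_ (h1.trans (mul_le_mul_of_nonneg_left h2 hC1))
    refine le_of_eq ?_
    simp
  have hinj : Set.InjOn (fun (z : 𝓞 K) (i : Ix K) => (RingOfIntegers.basis K).repr z i)
      (E : Set (𝓞 K)) := by
    intro z _ z' _ h
    rw [← vv_repr z, ← vv_repr z']
    exact congrArg vv h
  rw [← Finset.card_image_of_injOn hinj]
  have h1 : (E.image fun (z : 𝓞 K) (i : Ix K) => (RingOfIntegers.basis K).repr z i) ⊆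
      Fintype.piFinset fun _ : Ix K => Finset.Icc (-(⌊C1 * R⌋₊ : ℤ)) (⌊C1 * R⌋₊ : ℤ) := by
    intro h hh
    obtain ⟨z, hz, rfl⟩ := Finset.mem_image.1 hh
    rw [Fintype.mem_piFinset]
    intro i
    have h2 := hco z hz i
    have h3 : ((RingOfIntegers.basis K).repr z i).natAbs ≤ ⌊C1 * R⌋₊ := by
      apply Nat.le_floor
      rw [Nat.cast_natAbs]
      push_cast
      exact h2
    rw [Finset.mem_Icc]
    omega
  have h2 := Finset.card_le_card h1
  rw [Fintype.card_piFinset, Finset.prod_const, Int.card_Icc, Finset.card_univ, card_ix] at h2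
  have h3 : ((⌊C1 * R⌋₊ : ℤ) + 1 - -(⌊C1 * R⌋₊ : ℤ)).toNat = 2 * ⌊C1 * R⌋₊ + 1 := by omega
  rw [h3] at h2
  have h4 : (((E.image fun (z : 𝓞 K) (i : Ix K) => (RingOfIntegers.basis K).repr z i).card : ℕ) :
      ℝ) ≤ ((2 * ⌊C1 * R⌋₊ + 1 : ℕ) : ℝ) ^ finrank ℚ K := by exact_mod_cast h2
  refine h4.trans ?_
  rw [← mul_pow]
  refine pow_le_pow_left₀ (by positivity) ?_ _
  push_cast
  have h5 : ((⌊C1 * R⌋₊ : ℕ) : ℝ) ≤ C1 * R := Nat.floor_le (by positivity)
  nlinarith

/-- reduction modulo an integer -/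
lemma red (M : ℕ) (hM : 0 < M) (β : 𝓞 K) : ∃ β' : 𝓞 K, (M : 𝓞 K) ∣ β' - β ∧
    ∀ w : InfinitePlace K, w (β' : K) ≤ cc K * M := by
  obtain ⟨c, rfl⟩ : ∃ c : Ix K → ℤ, vv c = β := ⟨_, vv_repr β⟩
  refine ⟨vv fun i => c i % (M : ℤ), ?_, fun w => ?_⟩
  · rw [vv_sub]
    refine ⟨vv fun i => -(c i / (M : ℤ)), ?_⟩
    unfold vv
    rw [Finset.mul_sum]
    refine Finset.sum_congr rfl fun i _ => ?_
    have h1 := Int.emod_add_mul_ediv (c i) (M : ℤ)
    have h2 : c i % (M : ℤ) - c i = (M : ℤ) * -(c i / (M : ℤ)) := by linarith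
    beta_reduce
    rw [h2, zsmul_eq_mul, zsmul_eq_mul]
    push_cast
    ring
  · refine w_vv _ (Nat.cast_nonneg _) (fun i => ?_) w
    have hM' : (0 : ℤ) < M := by exact_mod_cast hM
    have h1 := Int.emod_nonneg (c i) hM'.ne'
    have h2 := Int.emod_lt_of_pos (c i) hM'
    have h3 : (0 : ℝ) ≤ ((c i % (M : ℤ) : ℤ) : ℝ) := by exact_mod_cast h1
    have h4 : ((c i % (M : ℤ) : ℤ) : ℝ) ≤ M := by exact_mod_cast h2.le
    rw [abs_of_nonneg h3]
    exact h4

end Pool.Agent.H65KF.CL
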