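import Pool.Agent.H65KF.Stm

set_option autoImplicit false

/-!
Nested balls with weights: a version of `Pool.Agent.H438R2.nest`.
-/

open MeasureTheory Set Metric
open scoped ENNReal

namespace Pool.Agent.H65KF

theorem nestw : S_NESTW := by
  classical
  intro X _ _ _ _ s κ hs hκ hκ1 V step x0 R0 hR0 h0
  obtain ⟨t, u, hcov, hu, htu, hsum⟩ :=
    Pool.Agent.H438R2.exists_radii hs h0 (ε := κ * R0 ^ s) (by positivity)
  obtain ⟨W, hW⟩ : ∃ W : X × ℝ → ℝ≥0∞, W = fun b => ∑' i, if (t i ∩ closedBall b.1 b.2).Nonempty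
    then ENNReal.ofReal (u i ^ s) else 0 := ⟨_, rfl⟩
  have hW0 : W (x0, R0) ≤ ENNReal.ofReal (κ * R0 ^ s) := by
    rw [hW]
    refine le_trans (ENNReal.tsum_le_tsum (fun i => ?_)) hsum
    split_ifs
    · exact le_rfl
    · exact zero_le
  have hstep : ∀ (k : ℕ) (b : {b : X × ℝ // 0 < b.2 ∧ W b ≤ ENNReal.ofReal (κ * b.2 ^ s)}),
      ∃ b' : {b : X × ℝ // 0 < b.2 ∧ W b ≤ ENNReal.ofReal (κ * b.2 ^ s)},
        closedBall b'.1.1 b'.1.2 ⊆ closedBall b.1.1 b.1.2 ∧ closedBall b'.1.1 b'.1.2 ⊆ V k ∧
        ∀ i ≤ k, ¬ (t i ∩ closedBall b'.1.1 b'.1.2).Nonempty := by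
    rintro k ⟨b, hR, hWb⟩
    -- choose `δ`
    obtain ⟨δ, hδ, hδu⟩ : ∃ δ : ℝ, 0 < δ ∧ ∀ i ≤ k, δ ≤ u i := by
      obtain ⟨i0, _, hi0⟩ := (Finset.range (k + 1)).exists_min_image u ⟨0, by simp⟩
      exact ⟨u i0, hu i0, fun i hi => hi0 i (Finset.mem_range.2 (by omega))⟩
    obtain ⟨F, q, m, hF, hN, hG⟩ := step b.1 b.2 k δ hR hδ
    -- the weights
    obtain ⟨w, hw⟩ : ∃ w : ℕ → X → ℝ, w = fun i y => if q y ≤ u i then 1 else
      u i ^ s / (κ * q y ^ s) := ⟨_, rfl⟩
    by_contra hcon
    push Not at hcon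
    have hbad : ∀ y ∈ F, (1 : ℝ≥0∞) ≤ ∑' i, if (t i ∩ closedBall y (q y)).Nonempty
        then ENNReal.ofReal (w i y) else 0 := by
      intro y hy
      have hqy := (hF y hy).1
      by_cases h1 : ∃ i, q y ≤ u i ∧ (t i ∩ closedBall y (q y)).Nonempty
      · obtain ⟨i, hi1, hi2⟩ := h1
        refine le_trans ?_ (ENNReal.le_tsum i)
        rw [if_pos hi2, hw]
        simp [hi1]
      · push Not at h1
        have h2 : ¬ W (y, q y) ≤ ENNReal.ofReal (κ * q y ^ s) := by
          intro h3
          obtain ⟨i, hi, hi2⟩ := hcon ⟨(y, q y), hqy, h3⟩ (hF y hy).2.2.1 (hF y hy).2.2.2.1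
          have h4 := h1 i ((hF y hy).2.1.trans (hδu i hi))
          rw [Set.nonempty_iff_ne_empty] at hi2
          exact hi2 h4
        push Not at h2
        have h3 : W (y, q y) = ENNReal.ofReal (κ * q y ^ s) *
            ∑' i, if (t i ∩ closedBall y (q y)).Nonempty then ENNReal.ofReal (w i y) else 0 := by
          rw [hW, ← ENNReal.tsum_mul_left]
          refine tsum_congr (fun i => ?_)
          by_cases h4 : (t i ∩ closedBall y (q y)).Nonempty
          · rw [if_pos h4, if_pos h4]
            have h5 : ¬ q y ≤ u i := fun h6 => by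
              have h7 := h1 i h6
              rw [Set.nonempty_iff_ne_empty] at h4
              exact h4 h7
            rw [← ENNReal.ofReal_mul (by positivity), hw]
            simp only [h5, if_false]
            congr 1
            field_simp
          · rw [if_neg h4, if_neg h4, mul_zero]
        rw [h3] at h2
        by_contra h4
        push Not at h4
        have h5 : ENNReal.ofReal (κ * q y ^ s) * (∑' i, if (t i ∩ closedBall y (q y)).Nonempty
            then ENNReal.ofReal (w i y) else 0) ≤ ENNReal.ofReal (κ * q y ^ s) * 1 := by gcongr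
        rw [mul_one] at h5
        exact absurd h2 (not_lt.2 h5)
    have hT : ENNReal.ofReal (∑ y ∈ F, m y) ≤ ∑ y ∈ F, ∑' i,
        if (t i ∩ closedBall y (q y)).Nonempty
        then ENNReal.ofReal (m y * w i y) else 0 := by
      rw [ENNReal.ofReal_sum_of_nonneg fun y hy => (hF y hy).2.2.2.2.1]
      refine Finset.sum_le_sum fun y hy => ?_
      calc ENNReal.ofReal (m y) = ENNReal.ofReal (m y) * 1 := (mul_one _).symm
        _ ≤ ENNReal.ofReal (m y) * ∑' i, (if (t i ∩ closedBall y (q y)).Nonempty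
            then ENNReal.ofReal (w i y) else 0) := by gcongr; exact hbad y hy
        _ = _ := by
          rw [← ENNReal.tsum_mul_left]
          refine tsum_congr fun i => ?_
          split_ifs
          · rw [ENNReal.ofReal_mul (hF y hy).2.2.2.2.1]
          · rw [mul_zero]
    rw [← (Summable.tsum_finsetSum (fun y _ => ENNReal.summable))] at hT
    have hterm : ∀ i, (∑ y ∈ F, if (t i ∩ closedBall y (q y)).Nonempty
        then ENNReal.ofReal (m y * w i y) else 0) ≤ ENNReal.ofReal (1 / (4 * κ * b.2 ^ s)) *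
        (if (t i ∩ closedBall b.1 b.2).Nonempty then ENNReal.ofReal (u i ^ s) else 0) := by
      intro i
      have hui := hu i
      by_cases h1 : (t i ∩ closedBall b.1 b.2).Nonempty
      · rw [if_pos h1]
        -- `u i ≤ b.2`
        have h2 : u i ≤ b.2 := by
          have h3 : ENNReal.ofReal (u i ^ s) ≤ W b := by
            rw [hW]
            refine le_trans ?_ (ENNReal.le_tsum i)
            rw [if_pos h1]
          have h4 := h3.trans hWb
          rw [ENNReal.ofReal_le_ofReal_iff (by positivity)] at h4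
          have h5 : u i ^ s ≤ b.2 ^ s := by
            have : 0 < b.2 ^ s := by positivity
            nlinarith
          exact (Real.rpow_le_rpow_iff (hu i).le hR.le hs).1 h5
        obtain ⟨G, hGd⟩ : ∃ G : Finset X, G = F.filter (fun y => (t i ∩ closedBall y (q y)).Nonempty) :=
          ⟨_, rfl⟩
        have hGF : G ⊆ F := by rw [hGd]; exact Finset.filter_subset _ _
        obtain ⟨hg1, hg2⟩ := hG (t i) (u i) (hu i) (htu i) G hGF
          (fun y hy => by rw [hGd] at hy; exact (Finset.mem_filter.1 hy).2)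
        rw [← Finset.sum_filter, ← hGd, ← ENNReal.ofReal_mul (by positivity),
          ← ENNReal.ofReal_sum_of_nonneg (fun y hy => mul_nonneg (hF y (hGF hy)).2.2.2.2.1 (by
            have := (hF y (hGF hy)).1
            rw [hw]; dsimp only; split_ifs <;> positivity))]
        refine ENNReal.ofReal_le_ofReal ?_
        by_cases h6 : ∃ y ∈ G, u i < q y
        · have h7 := hg1 h6
          obtain ⟨y, hy, hy2⟩ := h6
          have hGy : G = {y} := by
            refine Finset.eq_singleton_iff_unique_mem.2 ⟨hy, fun z hz => ?_⟩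
            exact Finset.card_le_one.1 h7 z hz y hy
          rw [hGy, Finset.sum_singleton]
          have hqy := (hF y (hGF hy)).1
          have hmy := (hF y (hGF hy)).2.2.2.2.2
          have h8 : w i y = u i ^ s / (κ * q y ^ s) := by
            rw [hw]; simp only [not_le.2 hy2, if_false]
          rw [h8]
          rw [Real.div_rpow hqy.le hR.le] at hmy
          have h10 : 0 < q y ^ s := by positivity
          have h11 : 0 < b.2 ^ s := by positivity
          have h12 : 0 < u i ^ s := by positivity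
          calc _ ≤ (1 / 4 * (q y ^ s / b.2 ^ s)) * (u i ^ s / (κ * q y ^ s)) := by gcongr
            _ = _ := by field_simp
        · push Not at h6
          have h7 := hg2 h6 h2
          have h8 : ∑ y ∈ G, m y * w i y = ∑ y ∈ G, m y := by
            refine Finset.sum_congr rfl fun y hy => ?_
            rw [hw]; simp only [h6 y hy, if_true, mul_one]
          rw [h8]
          refine h7.trans (le_of_eq ?_)
          rw [Real.div_rpow (hu i).le hR.le]
          field_simp
      · rw [if_neg h1, mul_zero]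
        refine le_of_eq (Finset.sum_eq_zero (fun y hy => ?_))
        rw [if_neg]
        rintro ⟨z, hz1, hz2⟩
        exact h1 ⟨z, hz1, (hF y hy).2.2.1 hz2⟩
    have hT2 := hT.trans (ENNReal.tsum_le_tsum hterm)
    rw [ENNReal.tsum_mul_left] at hT2
    have hT3 : ENNReal.ofReal (∑ y ∈ F, m y) ≤
        ENNReal.ofReal (1 / (4 * κ * b.2 ^ s)) * ENNReal.ofReal (κ * b.2 ^ s) := by
      refine hT2.trans ?_
      have : W b = ∑' i, if (t i ∩ closedBall b.1 b.2).Nonempty
        then ENNReal.ofReal (u i ^ s) else 0 := by rw [hW]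
      rw [← this]
      gcongr
    rw [← ENNReal.ofReal_mul (by positivity), ENNReal.ofReal_le_ofReal_iff (by positivity)] at hT3
    have h1 : (1 : ℝ) / (4 * κ * b.2 ^ s) * (κ * b.2 ^ s) = 1 / 4 := by
      have : 0 < b.2 ^ s := by positivity
      field_simp
    rw [h1] at hT3
    linarith
  choose nx hnx1 hnx2 hnx3 using hstep
  let sq : ℕ → {b : X × ℝ // 0 < b.2 ∧ W b ≤ ENNReal.ofReal (κ * b.2 ^ s)} := fun k =>
    Nat.rec ⟨(x0, R0), hR0, hW0⟩ (fun k b => nx k b) k
  have hsq : ∀ k, sq (k + 1) = nx k (sq k) := fun k => rfl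
  have hne : (⋂ k, closedBall (sq k).1.1 (sq k).1.2).Nonempty := by
    refine IsCompact.nonempty_iInter_of_sequence_nonempty_isCompact_isClosed _ ?_ ?_ ?_ ?_
    · intro k; rw [hsq]; exact hnx1 k (sq k)
    · intro k
      refine ⟨(sq k).1.1, mem_closedBall_self ?_⟩
      exact (sq k).2.1.le
    · exact isCompact_closedBall _ _
    · intro k; exact isClosed_closedBall
  obtain ⟨x, hx⟩ := hne
  rw [mem_iInter] at hx
  have hxE : x ∈ {x | ∀ j, x ∈ V j} ∩ closedBall x0 R0 := by
    refine ⟨fun j => ?_, hx 0⟩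
    have := hx (j + 1)
    rw [hsq] at this
    exact hnx2 j _ this
  obtain ⟨i, hi⟩ := mem_iUnion.1 (hcov hxE)
  have h1 := hx (i + 1)
  rw [hsq] at h1
  exact hnx3 i (sq i) i le_rfl ⟨x, hi, h1⟩

end Pool.Agent.H65KF
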