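import Pool.Agent.H65KF.Stm

/-!
# KF: the piece VOL (finite disjoint families of large total volume)
-/

set_option autoImplicit false

namespace Pool.Agent.H65KF

open Finset Filter Topology MeasureTheory Metric
open scoped ENNReal

/-- VOL -/
theorem vol : S_VOL := by
  classical
  intro E _ _ _ _ _ μ _ C ρ hρ hlim hae x0 R J hR
  set k := Module.finrank ℝ E with hk
  -- small radii
  obtain ⟨J₁, hJ₁⟩ : ∃ J₁, ∀ j ≥ J₁, ρ j ≤ R / 16 := by
    have h1 : ∀ᶠ j in atTop, ρ j < R / 16 := hlim.eventually_lt_const (by positivity)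
    obtain ⟨J₁, h2⟩ := eventually_atTop.1 h1
    exact ⟨J₁, fun j hj => (h2 j hj).le⟩
  let T : Set (E × ℕ) := {a | max J J₁ ≤ a.2 ∧ a.1 ∈ C a.2 ∧
    (closedBall a.1 (ρ a.2) ∩ closedBall x0 (R / 2)).Nonempty}
  obtain ⟨u, huT, hdis, hcov⟩ := Vitali.exists_disjoint_subfamily_covering_enlargement_closedBall T
    (fun a => a.1) (fun a => ρ a.2) (R / 16)
    (fun a ha => hJ₁ _ ((le_max_right _ _).trans ha.1)) 5 (by norm_num)
  have hcount : u.Countable := by
    refine hdis.countable_of_nonempty_interior fun a _ => ?_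
    have : (ball a.1 (ρ a.2)).Nonempty := nonempty_ball.2 (hρ _)
    exact this.mono ball_subset_interior_closedBall
  -- the balls cover
  have hsub : closedBall x0 (R / 2) ≤ᵐ[μ] ⋃ a ∈ u, closedBall a.1 (5 * ρ a.2) := by
    filter_upwards [hae] with x hx hxb
    obtain ⟨j, hj, c, hc, hd⟩ := (frequently_atTop.1 hx) (max J J₁)
    have hT : ((c, j) : E × ℕ) ∈ T :=
      ⟨hj, hc, x, mem_closedBall.2 hd, hxb⟩
    obtain ⟨b, hb, hsubb⟩ := hcov _ hT
    have h1 : x ∈ closedBall b.1 (5 * ρ b.2) := hsubb (mem_closedBall.2 hd)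
    exact Set.mem_iUnion₂.2 ⟨b, hb, h1⟩
  have hv0 : μ (ball (0 : E) 1) ≠ 0 := (measure_ball_pos μ 0 one_pos).ne'
  have hvt : μ (ball (0 : E) 1) ≠ ⊤ := measure_ball_lt_top.ne
  have h1 : μ (closedBall x0 (R / 2)) ≤ ∑' a : u, μ (closedBall a.1.1 (5 * ρ a.1.2)) :=
    (measure_mono_ae hsub).trans (measure_biUnion_le μ hcount _)
  have h2 : ENNReal.ofReal ((R / 2) ^ k) ≤ ∑' a : u, ENNReal.ofReal ((5 * ρ a.1.2) ^ k) := by
    rw [Measure.addHaar_closedBall μ x0 (by positivity)] at h1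
    have h3 : ∀ a : u, μ (closedBall a.1.1 (5 * ρ a.1.2)) =
        ENNReal.ofReal ((5 * ρ a.1.2) ^ k) * μ (ball 0 1) := fun a =>
      Measure.addHaar_closedBall μ _ (by have := hρ a.1.2; positivity)
    rw [tsum_congr h3, ENNReal.tsum_mul_right] at h1
    exact (ENNReal.mul_le_mul_iff_left hv0 hvt).1 h1
  have h3 : ENNReal.ofReal ((R / 2) ^ k / 2) < ∑' a : u, ENNReal.ofReal ((5 * ρ a.1.2) ^ k) := by
    refine lt_of_lt_of_le ?_ h2
    have : 0 < (R / 2) ^ k := by positivity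
    exact (ENNReal.ofReal_lt_ofReal_iff this).2 (by linarith)
  rw [ENNReal.tsum_eq_iSup_sum, lt_iSup_iff] at h3
  obtain ⟨F, hF⟩ := h3
  rw [← ENNReal.ofReal_sum_of_nonneg (fun a _ => by have := hρ a.1.2; positivity)] at hF
  have h4 : (R / 2) ^ k / 2 < ∑ a ∈ F, (5 * ρ a.1.2) ^ k :=
    (ENNReal.ofReal_lt_ofReal_iff_of_nonneg (by positivity)).1 hF
  refine ⟨F.map (Function.Embedding.subtype _), ?_, ?_, ?_⟩
  · intro a ha
    obtain ⟨b, -, rfl⟩ := Finset.mem_map.1 ha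
    obtain ⟨h5, h6, y, hy1, hy2⟩ := huT b.2
    refine ⟨(le_max_left _ _).trans h5, h6, ?_⟩
    intro z hz
    have h7 := hJ₁ _ ((le_max_right _ _).trans h5)
    rw [mem_closedBall] at hy1 hy2 hz ⊢
    have h8 := dist_triangle z b.1.1 x0
    have h9 := dist_triangle b.1.1 y x0
    rw [dist_comm b.1.1 y] at h9
    have hz' : dist z b.1.1 ≤ ρ b.1.2 := hz
    have hy1' : dist y b.1.1 ≤ ρ b.1.2 := hy1
    have h7' : ρ b.1.2 ≤ R / 16 := h7
    linarith
  · intro a ha b hb hab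
    obtain ⟨a', -, rfl⟩ := Finset.mem_map.1 ha
    obtain ⟨b', -, rfl⟩ := Finset.mem_map.1 hb
    exact hdis a'.2 b'.2 hab
  · rw [Finset.sum_map]
    have h5 : ∑ a ∈ F, (5 * ρ a.1.2) ^ k = 5 ^ k * ∑ a ∈ F, (ρ a.1.2) ^ k := by
      rw [Finset.mul_sum]
      exact Finset.sum_congr rfl fun a _ => mul_pow _ _ _
    rw [h5] at h4
    have h6 : R ^ k = 2 ^ k * (R / 2) ^ k := by
      rw [← mul_pow]
      congr 1
      ring
    have h7 : (10 : ℝ) ^ k = 2 ^ k * 5 ^ k := by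
      rw [← mul_pow]
      norm_num
    rw [h6, h7]
    have h8 : (0 : ℝ) < 2 ^ k := by positivity
    have h9 : (R / 2) ^ k ≤ 2 * (5 ^ k * ∑ a ∈ F, (ρ a.1.2) ^ k) := by linarith
    have h10 := mul_le_mul_of_nonneg_left h9 h8.le
    refine h10.trans (le_of_eq ?_)
    simp only [Function.Embedding.subtype_apply]
    ring

end Pool.Agent.H65KF
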