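import Pool.Agent.H65KF.Mtp
import Pool.Agent.H65KF.Vol
import Pool.Agent.H65KF.Nestw

set_option autoImplicit false

/-!
Mass transference with countably many conditions, each with its own exponent above the dimension;
local version, with positive Hausdorff measure.
-/

namespace Pool.Agent.H65KF

open Finset Filter Topology MeasureTheory Metric
open scoped ENNReal

theorem mtp_pos (E : Type) [NormedAddCommGroup E] [NormedSpace ℝ E] [FiniteDimensional ℝ E]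
    [MeasurableSpace E] [BorelSpace E] (μ : Measure E) [μ.IsAddHaarMeasure] (s : ℝ) (hs : 0 < s)
    (S : ℕ → ℝ) (hS : ∀ i, s < S i) (hSk : ∀ i, S i ≤ Module.finrank ℝ E)
    (C : ℕ → ℕ → Set E) (ρ : ℕ → ℕ → ℝ) (hρ : ∀ i j, 0 < ρ i j)
    (hlim : ∀ i, Tendsto (ρ i) atTop (𝓝 0))
    (hae : ∀ i, ∀ᵐ x ∂μ, ∃ᶠ j in atTop, ∃ c ∈ C i j, dist x c ≤ ρ i j)
    (x0 : E) (R0 : ℝ) (hR0 : 0 < R0) :
    μH[s] ({x : E | ∀ i, ∃ᶠ j in atTop, ∃ c ∈ C i j,
      dist x c ≤ (ρ i j) ^ ((Module.finrank ℝ E : ℝ) / S i)} ∩ closedBall x0 R0) ≠ 0 := by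
  classical
  set k := Module.finrank ℝ E with hk
  set V : ℕ → Set E := fun n => {z | ∃ j ≥ (Nat.unpair n).2, ∃ c ∈ C (Nat.unpair n).1 j,
    dist z c ≤ (ρ (Nat.unpair n).1 j) ^ ((k : ℝ) / S (Nat.unpair n).1)} with hV
  have hnest := nestw E s (1 / (2 * 10 ^ k) / (4 * 3 ^ k)) hs (by positivity)
    (by
      have e1 : (1 : ℝ) ≤ 10 ^ k := one_le_pow₀ (by norm_num)
      have e2 : (1 : ℝ) ≤ 3 ^ k := one_le_pow₀ (by norm_num)
      rw [div_div, div_le_one (by positivity)]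
      nlinarith) V
    (fun x R n δ hR hδ => step vol μ hs (hS _) (hSk _) (C (Nat.unpair n).1) (ρ (Nat.unpair n).1)
      (hρ _) (hlim _) (hae _) x R (Nat.unpair n).2 δ hR hδ) x0 R0 hR0
  have hsub : {y : E | ∀ j, y ∈ V j} ⊆ {x : E | ∀ i, ∃ᶠ j in atTop,
    ∃ c ∈ C i j, dist x c ≤ (ρ i j) ^ ((k : ℝ) / S i)} := by
    intro y hy i
    rw [frequently_atTop]
    intro J
    have h3 := hy (Nat.pair i J)
    simp only [hV, Set.mem_ofPred_eq, Nat.unpair_pair] at h3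
    exact h3
  intro h0
  exact hnest (measure_mono_null (Set.inter_subset_inter_left _ hsub) h0)

end Pool.Agent.H65KF
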