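import Pool.Agent.H65KF.Final
import Pool.Agent.H65KF.Loc

set_option autoImplicit false

/-!
The sets of the points with a given set of limit points.
-/

namespace Pool.Agent.H65KF

open NumberField NumberField.mixedEmbedding MeasureTheory Filter Topology Metric IsDedekindDomain
open scoped ENNReal Classical

variable {K : Type} [Field K] [NumberField K]

/-- rational points near a point of the region -/
lemma rat_near (z : Fin 3 → ℝ) (hz1 : ∀ i, z i ≤ 1) (σ : ℝ) (hz : σ ≤ z 0 + z 1 + z 2) (ε : ℝ)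
    (hε : 0 < ε) : ∃ q : Fin 3 → ℚ, (∀ i, (q i : ℝ) ≤ 1) ∧ σ ≤ (q 0 : ℝ) + q 1 + q 2 ∧
      ∀ i, |(q i : ℝ) - z i| ≤ ε := by
  have h : ∀ i, ∃ r : ℚ, z i < r ∧ (r : ℝ) < z i + ε := fun i => exists_rat_btwn (by linarith)
  choose r hr1 hr2 using h
  have key : ∀ i, z i ≤ ((min 1 (r i) : ℚ) : ℝ) ∧ ((min 1 (r i) : ℚ) : ℝ) ≤ z i + ε ∧
      ((min 1 (r i) : ℚ) : ℝ) ≤ 1 := by
    intro i
    rw [Rat.cast_min, Rat.cast_one]
    exact ⟨le_min (hz1 i) (hr1 i).le, (min_le_right _ _).trans (hr2 i).le, min_le_left _ _⟩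
  obtain ⟨q, hq⟩ : ∃ q : Fin 3 → ℚ, ∀ i, q i = min 1 (r i) := ⟨fun i => min 1 (r i), fun _ => rfl⟩
  simp only [← hq] at key
  refine ⟨q, fun i => (key i).2.2, ?_, fun i => ?_⟩
  · have h0 := (key 0).1
    have h1 := (key 1).1
    have h2 := (key 2).1
    linarith
  · rw [abs_le]
    constructor <;> linarith [(key i).1, (key i).2.1]

/-- all points of the region are limit points -/
def Full (σ t : ℝ) (p : mixedSpace K) : Prop :=
  ∀ z : Fin 3 → ℝ, (∀ i, z i ≤ 1) → σ ≤ z 0 + z 1 + z 2 → ∀ (y : K) (N : ℕ), 0 < N →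
    Lp {x | Nr t p x ∧ Cg N y x} z

/-- the index of a condition -/
abbrev Idx (K : Type) (σ : ℝ) : Type :=
  ℕ × {q : Fin 3 → ℚ // (∀ i, (q i : ℝ) ≤ 1) ∧ σ ≤ (q 0 : ℝ) + q 1 + q 2} × K × ℕ

/-- the points with all limit points in the region have positive Hausdorff measure -/
theorem full_pos (σ t s : ℝ) (hσ : 2 ≤ σ) (hσ3 : σ < 3) (ht : 0 < t) (hs0 : 0 < s)
    (hs : s < Module.finrank ℚ K) (hst : s * t ≤ Module.finrank ℚ K * (σ - 1))
    (x0 : mixedSpace K) (R0 : ℝ) (hR0 : 0 < R0) :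
    μH[s] ({p : mixedSpace K | Full σ t p} ∩ closedBall x0 R0) ≠ 0 := by
  have hd : (0 : ℝ) < Module.finrank ℚ K := by exact_mod_cast Module.finrank_pos
  haveI : Nonempty (Idx K σ) := ⟨(0, ⟨fun _ => 1, fun _ => by simp, by
    rw [Rat.cast_one]; linarith⟩, 0, 0)⟩
  obtain ⟨e, he⟩ := exists_surjective_nat (Idx K σ)
  have hch : ∀ a : Idx K σ, ∃ τ S : ℝ, s < S ∧ S ≤ Module.finrank ℚ K ∧ 0 < τ ∧
      t < Module.finrank ℚ K * τ / S ∧ ∀ p : mixedSpace K, Gd p → ∀ B : ℝ, ∃ x : K, Nr τ p x ∧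
        Cg (a.2.2.2 + 1) a.2.2.1 x ∧ Ex (fun i => (a.2.1.1 i : ℝ)) (1 / ((a.1 : ℝ) + 1)) x ∧
        B ≤ hgt x := by
    rintro ⟨m, ⟨q, hq1, hq2⟩, y, N⟩
    obtain ⟨z', h1, h2, h3, h4, h5⟩ := bump (fun i => (q i : ℝ)) hq1 σ hσ hσ3 hq2
      (1 / (2 * ((m : ℝ) + 1))) (by positivity)
    obtain ⟨τ, h6, h7⟩ := exists_between (show σ - 1 < z' 0 + z' 1 + z' 2 - 1 by linarith)
    have hτ0 : 0 < τ := by linarith
    obtain ⟨S, h8, h9⟩ := exists_between (show s < min (Module.finrank ℚ K : ℝ)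
      (Module.finrank ℚ K * τ / t) from lt_min hs (by
        rw [lt_div_iff₀ ht]
        exact hst.trans_lt (mul_lt_mul_of_pos_left h6 hd)))
    have hS0 : 0 < S := hs0.trans h8
    have h10 := h9.trans_le (min_le_right _ _)
    rw [lt_div_iff₀ ht] at h10
    refine ⟨τ, S, h8, (h9.trans_le (min_le_left _ _)).le, hτ0, ?_, fun p hp B => ?_⟩
    · rw [lt_div_iff₀ hS0]
      linarith
    · obtain ⟨x, a1, a2, a3, a4⟩ := exists_exact hp z' h1 h2 (by linarith) τ h7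
        (1 / (2 * ((m : ℝ) + 1))) (by positivity) y (N + 1) (Nat.succ_pos N) B
      refine ⟨x, a1, a2, a3.mono fun i => ?_, a4⟩
      have h11 : (1 : ℝ) / (m + 1) - 1 / (2 * (m + 1)) = 1 / (2 * (m + 1)) := by
        field_simp
        norm_num
      have h12 := h3 i
      have h13 := h4 i
      simp only at h12 h13 ⊢
      rw [abs_of_nonneg (by linarith), h11]
      linarith
  choose τ S hS1 hS2 hτ0 hτt hex using hch
  obtain ⟨C, hC⟩ : ∃ C : ℕ → ℕ → Set (mixedSpace K), C = fun (i j : ℕ) => {q | ∃ x : K,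
      q = mixedEmbedding K x ∧ x ≠ 0 ∧ x ≠ 1 ∧ (j : ℝ) ≤ hgt x ∧ hgt x < (j : ℝ) + 1 ∧
      Cg ((e i).2.2.2 + 1) (e i).2.2.1 x ∧
      Ex (fun l => ((e i).2.1.1 l : ℝ)) (1 / (((e i).1 : ℝ) + 1)) x} := ⟨_, rfl⟩
  obtain ⟨ρ, hρ⟩ : ∃ ρ : ℕ → ℕ → ℝ, ρ = fun (i j : ℕ) => Real.exp (-τ (e i) * (j : ℝ)) :=
    ⟨_, rfl⟩
  have key := mtp_pos (mixedSpace K) volume s hs0 (fun i => S (e i)) (fun i => hS1 _)
    (fun i => by rw [mixedEmbedding.finrank]; exact hS2 _) C ρ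
    (fun i j => by rw [hρ]; exact Real.exp_pos _)
    (fun i => by
      rw [hρ]
      refine Real.tendsto_exp_atBot.comp ?_
      exact tendsto_natCast_atTop_atTop.const_mul_atTop_of_neg (by have := hτ0 (e i); linarith))
    (fun i => by
      filter_upwards [ae_gd] with p hp
      rw [frequently_atTop]
      intro J
      obtain ⟨x, a1, a2, a3, a4⟩ := hex (e i) p hp J
      have hh := height_nonneg x
      have b1 : ((⌊hgt x⌋₊ : ℕ) : ℝ) ≤ hgt x := Nat.floor_le hh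
      have b2 : hgt x < ((⌊hgt x⌋₊ : ℕ) : ℝ) + 1 := Nat.lt_floor_add_one _
      have b3 := hτ0 (e i)
      refine ⟨⌊hgt x⌋₊, Nat.le_floor a4, mixedEmbedding K x, ?_, ?_⟩
      · rw [hC]
        exact ⟨x, rfl, a1.1, a1.2.1, b1, b2, a2, a3⟩
      · rw [dist_comm, hρ]
        refine (dist_le_of p x _ a1.2.2).trans (Real.exp_le_exp.2 ?_)
        nlinarith) x0 R0 hR0
  intro h0
  refine key (measure_mono_null (Set.inter_subset_inter_left _ fun p hp => ?_) h0)
  rw [Set.mem_ofPred_eq] at hp ⊢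
  intro z hz1 hz y N hN ε hε B
  obtain ⟨q, hq1, hq2, hq3⟩ := rat_near z hz1 σ hz (ε / 2) (by positivity)
  obtain ⟨m, hm⟩ := exists_nat_one_div_lt (show 0 < ε / 2 by positivity)
  obtain ⟨i, hi⟩ := he (m, ⟨q, hq1, hq2⟩, y, N - 1)
  have hpos : 0 < Module.finrank ℚ K * τ (e i) / S (e i) - t := by
    have := hτt (e i)
    linarith
  obtain ⟨j1, hj1⟩ := exists_nat_ge
    (max B (t / (Module.finrank ℚ K * τ (e i) / S (e i) - t)))
  obtain ⟨j, hj, c, hc, hcd⟩ := (frequently_atTop.1 (hp i)) j1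
  have hjR : (j1 : ℝ) ≤ j := by exact_mod_cast hj
  rw [hC] at hc
  obtain ⟨x, rfl, hx0, hx1, hxj, hxj', hxc, hxe⟩ := hc
  have hh := height_nonneg x
  refine ⟨x, ⟨⟨hx0, hx1, fun w => ?_⟩, ?_⟩, ?_, ?_⟩
  · rw [dist_comm] at hcd
    refine (le_of_dist p x _ hcd w).trans ?_
    rw [hρ, mixedEmbedding.finrank]
    simp only
    rw [← Real.exp_mul]
    apply Real.exp_le_exp.2
    have h3 : t / (Module.finrank ℚ K * τ (e i) / S (e i) - t) ≤ j :=
      ((le_max_right _ _).trans hj1).trans hjR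
    rw [div_le_iff₀ hpos] at h3
    have h4 : -τ (e i) * (j : ℝ) * (Module.finrank ℚ K / S (e i)) =
        -((j : ℝ) * (Module.finrank ℚ K * τ (e i) / S (e i))) := by ring
    rw [h4]
    nlinarith
  · rw [hi] at hxc
    simpa only [Nat.sub_add_cancel hN] using hxc
  · rw [hi] at hxe
    refine hxe.mono fun l => ?_
    have h5 := hq3 l
    simp only
    linarith
  · exact (((le_max_left _ _).trans hj1).trans hjR).trans hxj

/-- the points near which there are infinitely many `x` with sum of conductors `≤ s' h` -/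
def Inf (t s' : ℝ) (p : mixedSpace K) : Prop :=
  {x : K | x ≠ 0 ∧ x ≠ 1 ∧
      (∀ w : InfinitePlace K, normAtPlace w (mixedEmbedding K x - p) ≤ Real.exp (-t * hgt x)) ∧
      cond3 x ≤ s' * hgt x}.Infinite

lemma Inf.mono {t s' s'' : ℝ} {p : mixedSpace K} (h : Inf t s' p) (hs : s' ≤ s'') :
    Inf t s'' p :=
  Set.Infinite.mono (fun x hx => ⟨hx.1, hx.2.1, hx.2.2.1,
    hx.2.2.2.trans (mul_le_mul_of_nonneg_right hs (height_nonneg x))⟩) h

/-- the null set -/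
lemma null_small (σ t s : ℝ) (hσ : 2 < σ) (ht : 0 < t) (hs0 : 0 < s)
    (hst : Module.finrank ℚ K * (σ - 1) ≤ s * t) :
    μH[s] {p : mixedSpace K | ∃ s' < σ, Inf t s' p} = 0 := by
  have hd : (0 : ℝ) < Module.finrank ℚ K := by exact_mod_cast Module.finrank_pos
  have h1 : ∀ n : ℕ, μH[s] {p : mixedSpace K | Inf t (max 2 (σ - 1 / ((n : ℝ) + 1))) p} = 0 := by
    intro n
    have hn : (0 : ℝ) < 1 / ((n : ℝ) + 1) := by positivity
    have hcoe : ((Real.toNNReal s : NNReal) : ℝ) = s := Real.coe_toNNReal _ hs0.le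
    rw [← hcoe]
    refine hausdorffMeasure_of_dimH_lt ?_
    refine (dim_upper t (max 2 (σ - 1 / ((n : ℝ) + 1))) ht (le_max_left _ _)).trans_lt ?_
    have h2 : ((Real.toNNReal s : NNReal) : ℝ≥0∞) = ENNReal.ofReal s := rfl
    rw [h2, ENNReal.ofReal_lt_ofReal_iff hs0, div_lt_iff₀ ht]
    refine lt_of_lt_of_le (mul_lt_mul_of_pos_left ?_ hd) hst
    have : max 2 (σ - 1 / ((n : ℝ) + 1)) < σ := max_lt hσ (by linarith)
    linarith
  refine measure_mono_null ?_ (measure_iUnion_null h1)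
  rintro p ⟨s', hs', hp⟩
  obtain ⟨n, hn⟩ := exists_nat_one_div_lt (show 0 < σ - s' by linarith)
  refine Set.mem_iUnion.2 ⟨n, hp.mono ((?_ : s' ≤ σ - 1 / ((n : ℝ) + 1)).trans (le_max_right _ _))⟩
  linarith

/-- the exact statement at a point -/
def Qx (σ t : ℝ) (p : mixedSpace K) : Prop :=
  (∀ (y : K) (N : ℕ), 0 < N → ∀ z : Fin 3 → ℝ, Lp {x | Nr t p x ∧ Cg N y x} z ↔
    (∀ i, z i ≤ 1) ∧ σ ≤ z 0 + z 1 + z 2) ∧
  (∀ κ : ℝ, 1 / σ < κ → ∃ C : ℝ, ∀ x : K, Nr t p x → hgt x ≤ κ * cond3 x + C) ∧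
  (∀ κ : ℝ, κ < 1 / σ → ∀ (y : K) (N : ℕ), 0 < N → Vio κ t N y p)

lemma cond3_nonneg (x : K) : 0 ≤ cond3 x := by
  have := cond_nonneg x
  have := cond_nonneg x⁻¹
  have := cond_nonneg (x - 1)
  unfold cond3
  positivity

lemma Vio.mono {κ κ' t : ℝ} {N : ℕ} {y : K} {p : mixedSpace K} (h : Vio κ' t N y p)
    (hκ : κ ≤ κ') : Vio κ t N y p := by
  intro C
  obtain ⟨x, h1, h2, h3⟩ := h C
  have := mul_le_mul_of_nonneg_right hκ (cond3_nonneg x)
  exact ⟨x, h1, h2, by linarith⟩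

lemma inf_of_lp {t : ℝ} {p : mixedSpace K} {S : Set K} (hS : ∀ x ∈ S, Nr t p x)
    {z : Fin 3 → ℝ} (h : Lp S z) (ε : ℝ) (hε : 0 < ε) :
    Inf t (z 0 + z 1 + z 2 + 3 * ε) p := by
  refine infinite_of_heights fun B => ?_
  obtain ⟨x, hx, hx2, hx3⟩ := h ε hε B
  have h1 := hS x hx
  exact ⟨x, ⟨h1.1, h1.2.1, h1.2.2, hx2.cond3_le⟩, hx3⟩

lemma inf_of_vio {κ t : ℝ} (hκ : 0 < κ) {N : ℕ} {y : K} {p : mixedSpace K}
    (h : Vio κ t N y p) : Inf t (1 / κ) p := by
  refine infinite_of_heights fun B => ?_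
  obtain ⟨x, hx, hx2, hx3⟩ := h (max B 0)
  have h0 : 0 ≤ κ * cond3 x := mul_nonneg hκ.le (cond3_nonneg x)
  have h1 := le_max_left B 0
  have h2 := le_max_right B 0
  refine ⟨x, ⟨hx.1, hx.2.1, hx.2.2, ?_⟩, by linarith⟩
  rw [one_div, inv_mul_eq_div, le_div_iff₀ hκ]
  linarith

lemma qx_of {σ t : ℝ} (hσ : 2 ≤ σ) (hσ3 : σ < 3) {p : mixedSpace K} (h1 : Full σ t p)
    (h2 : ∀ s' < σ, ¬ Inf t s' p) : Qx σ t p := by
  refine ⟨fun y N hN z => ⟨fun h => ⟨h.le_one fun x hx => ⟨hx.1.1, hx.1.2.1⟩, ?_⟩,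
    fun h => h1 z h.1 h.2 y N hN⟩, fun κ hκ => ?_, fun κ hκ y N hN => ?_⟩
  · by_contra hcon
    rw [not_le] at hcon
    exact h2 (z 0 + z 1 + z 2 + 3 * ((σ - (z 0 + z 1 + z 2)) / 6)) (by linarith)
      (inf_of_lp (fun x hx => hx.1) h _ (by linarith))
  · have hκ0 : 0 < κ := (by positivity : (0 : ℝ) < 1 / σ).trans hκ
    have h3 : 1 / κ < σ := by
      rw [div_lt_iff₀ hκ0]
      rw [div_lt_iff₀ (by linarith)] at hκ
      linarith
    obtain ⟨M, hM0, hM⟩ := bdd_of_finite (Set.not_infinite.1 (h2 _ h3))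
    refine ⟨M, fun x hx => ?_⟩
    have h4 : 0 ≤ κ * cond3 x := mul_nonneg hκ0.le (cond3_nonneg x)
    by_cases h5 : cond3 x ≤ 1 / κ * hgt x
    · have := hM x ⟨hx.1, hx.2.1, hx.2.2, h5⟩
      linarith
    · rw [not_le] at h5
      have h6 : hgt x < κ * cond3 x := by
        have h7 := mul_lt_mul_of_pos_left h5 hκ0
        rwa [← mul_assoc, mul_one_div_cancel hκ0.ne', one_mul] at h7
      linarith
  · obtain ⟨κ', h3, h4⟩ := exists_between (show max κ 0 < 1 / σ from max_lt hκ (by positivity))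
    have hκ'0 : 0 < κ' := (le_max_right _ _).trans_lt h3
    refine Vio.mono (vio_of_lp hκ'0 (σ := σ) ?_ (h1 _ (fun _ => ?_) ?_ y N hN))
      ((le_max_left _ _).trans h3.le)
    · rw [lt_div_iff₀ hκ'0]
      rw [lt_div_iff₀ (by linarith)] at h4
      linarith
    · linarith
    · linarith

/-- almost every point -/
theorem ae_qx : ∀ᵐ p : mixedSpace K, ∀ t : ℝ, 1 < t →
    (t < 2 → Qx (1 + t) t p) ∧
    (∀ κ : ℝ, 1 / (1 + t) < κ → ∃ C : ℝ, ∀ x : K, Nr t p x → hgt x ≤ κ * cond3 x + C) := by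
  filter_upwards [ae_gd] with p hp t ht
  refine ⟨fun ht2 => qx_of (by linarith) (by linarith) ?_ ?_, fun κ hκ => abc_near hp ht hκ⟩
  · intro z hz1 hz y N hN
    exact (lp_iff hp ht ht2 y N hN z).2 ⟨hz1, hz⟩
  · intro s' hs'
    exact Set.not_infinite.2 (hp.2 t s' ht hs')

lemma dim_le_d (A : Set (mixedSpace K)) :
    dimH A ≤ ENNReal.ofReal (Module.finrank ℚ K : ℝ) := by
  refine (dimH_mono (Set.subset_univ A)).trans ?_
  rw [Real.dimH_univ_eq_finrank, mixedEmbedding.finrank, ENNReal.ofReal_natCast]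

lemma of_lt {a : ℝ≥0∞} {m : ℝ} (h : ∀ s : ℝ, 0 < s → s < m → ENNReal.ofReal s ≤ a) :
    ENNReal.ofReal m ≤ a := by
  refine le_of_forall_lt fun c hc => ?_
  have hct : c ≠ ∞ := (hc.trans_le le_top).ne
  have hm : 0 < m := by
    by_contra hcon
    rw [not_lt] at hcon
    rw [ENNReal.ofReal_of_nonpos hcon] at hc
    exact absurd hc (not_lt.2 zero_le)
  have h1 : c.toReal < m := by
    rwa [ENNReal.lt_ofReal_iff_toReal_lt hct] at hc
  obtain ⟨s, hs1, hs2⟩ := exists_between h1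
  have hs0 : 0 < s := ENNReal.toReal_nonneg.trans_lt hs1
  refine lt_of_lt_of_le ?_ (h s hs0 hs2)
  rwa [ENNReal.lt_ofReal_iff_toReal_lt hct]

/-- upper bound for a set contained in all the sets `Inf t (σ + η)` -/
lemma dim_le_of {A : Set (mixedSpace K)} {σ t : ℝ} (hσ : 2 ≤ σ) (ht : 0 < t)
    (h : ∀ p ∈ A, ∀ η : ℝ, 0 < η → Inf t (σ + η) p) :
    dimH A ≤ ENNReal.ofReal (Module.finrank ℚ K * (σ - 1) / t) := by
  have h1 : ∀ n : ℕ, dimH A ≤
      ENNReal.ofReal (Module.finrank ℚ K * (σ + 1 / ((n : ℝ) + 1) - 1) / t) := by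
    intro n
    have hn : (0 : ℝ) < 1 / ((n : ℝ) + 1) := by positivity
    exact le_trans (dimH_mono fun p hp => h p hp _ hn)
      (dim_upper t (σ + 1 / ((n : ℝ) + 1)) ht (by linarith))
  refine ge_of_tendsto' (x := atTop) (f := fun n : ℕ => ENNReal.ofReal
    (Module.finrank ℚ K * (σ + 1 / ((n : ℝ) + 1) - 1) / t)) ?_ h1
  refine ENNReal.tendsto_ofReal ?_
  have h2 : Tendsto (fun n : ℕ => (1 : ℝ) / ((n : ℝ) + 1)) atTop (𝓝 0) :=
    tendsto_one_div_add_atTop_nhds_zero_nat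
  have h3 := (((h2.const_add σ).sub_const 1).const_mul
    (Module.finrank ℚ K : ℝ)).div_const t
  simpa only [add_zero] using h3

/-- lower bound -/
lemma dim_ge_of {A U : Set (mixedSpace K)} (hU : IsOpen U) (hU2 : U.Nonempty) {s : ℝ}
    (hs0 : 0 < s) (h : ∀ (x0 : mixedSpace K) (R0 : ℝ), 0 < R0 → μH[s] (A ∩ closedBall x0 R0) ≠ 0) :
    ENNReal.ofReal s ≤ dimH (A ∩ U) := by
  obtain ⟨x0, hx0⟩ := hU2
  obtain ⟨R, hR0, hR⟩ := Metric.isOpen_iff.1 hU x0 hx0
  have h1 : A ∩ closedBall x0 (R / 2) ⊆ A ∩ U :=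
    Set.inter_subset_inter_right _ ((closedBall_subset_ball (by linarith)).trans hR)
  have h2 : μH[s] (A ∩ U) ≠ 0 := fun h0 =>
    h x0 (R / 2) (by positivity) (measure_mono_null h1 h0)
  have hcoe : ((Real.toNNReal s : NNReal) : ℝ) = s := Real.coe_toNNReal _ hs0.le
  exact le_dimH_of_hausdorffMeasure_ne_zero (d := Real.toNNReal s) (by rw [hcoe]; exact h2)

/-- the exact dimension of the sets of points with a given set of limit points -/
theorem dim_qx (σ t : ℝ) (hσ : 2 < σ) (hσ3 : σ < 3) (ht : σ - 1 < t) (U : Set (mixedSpace K))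
    (hU : IsOpen U) (hU2 : U.Nonempty) : dimH ({p : mixedSpace K | Qx σ t p} ∩ U) =
      ENNReal.ofReal (Module.finrank ℚ K * (σ - 1) / t) := by
  have hd : (0 : ℝ) < Module.finrank ℚ K := by exact_mod_cast Module.finrank_pos
  have ht0 : 0 < t := by linarith
  refine le_antisymm (dim_le_of hσ.le ht0 ?_) (dim_ge_of hU hU2 ?_ ?_)
  · rintro p ⟨hp, -⟩ η hη
    have h1 := (hp.1 0 1 one_pos fun _ => σ / 3).2 ⟨fun _ => by linarith, by linarith⟩
    have h2 := inf_of_lp (fun x hx => hx.1) h1 (η / 3) (by positivity)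
    exact h2.mono (by linarith)
  · have : 0 < σ - 1 := by linarith
    positivity
  · intro x0 R0 hR0 h0
    have hs0 : 0 < Module.finrank ℚ K * (σ - 1) / t := by
      have : 0 < σ - 1 := by linarith
      positivity
    have hst : Module.finrank ℚ K * (σ - 1) / t * t = Module.finrank ℚ K * (σ - 1) := by
      field_simp
    refine full_pos σ t (Module.finrank ℚ K * (σ - 1) / t) hσ.le hσ3 ht0 hs0 (by
      rw [div_lt_iff₀ ht0]
      exact mul_lt_mul_of_pos_left ht hd) hst.le x0 R0 hR0 ?_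
    refine measure_mono_null ?_ (measure_union_null h0
      (null_small σ t (Module.finrank ℚ K * (σ - 1) / t) hσ ht0 hs0 hst.ge))
    rintro p ⟨hp, hp2⟩
    by_cases h1 : ∃ s' < σ, Inf t s' p
    · exact Or.inr h1
    · push Not at h1
      exact Or.inl ⟨qx_of hσ.le hσ3 hp h1, hp2⟩

/-- the exact dimension of the sets of points with a given limit point -/
theorem dim_lp (z : Fin 3 → ℝ) (hz1 : ∀ i, z i ≤ 1) (hz : 2 ≤ z 0 + z 1 + z 2) (t : ℝ)
    (ht : 0 < t) (y : K) (N : ℕ) (hN : 0 < N) (U : Set (mixedSpace K))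
    (hU : IsOpen U) (hU2 : U.Nonempty) :
    dimH ({p : mixedSpace K | Lp {x | Nr t p x ∧ Cg N y x} z} ∩ U) =
      ENNReal.ofReal (min (Module.finrank ℚ K : ℝ)
        (Module.finrank ℚ K * (z 0 + z 1 + z 2 - 1) / t)) := by
  have hd : (0 : ℝ) < Module.finrank ℚ K := by exact_mod_cast Module.finrank_pos
  have hz3 : z 0 + z 1 + z 2 ≤ 3 := by
    have := hz1 0
    have := hz1 1
    have := hz1 2
    linarith
  refine le_antisymm ?_ (of_lt fun s hs0 hs => ?_)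
  · rw [ENNReal.ofReal_min]
    refine le_min (dim_le_d _) (dim_le_of hz ht ?_)
    rintro p ⟨hp, -⟩ η hη
    have h2 := inf_of_lp (fun x hx => hx.1) hp (η / 3) (by positivity)
    exact h2.mono (by linarith)
  · have h1 := hs.trans_le (min_le_left _ _)
    have h2 := hs.trans_le (min_le_right _ _)
    rw [lt_div_iff₀ ht] at h2
    have h3 : s * t / Module.finrank ℚ K + 1 < z 0 + z 1 + z 2 := by
      have h5 : s * t / Module.finrank ℚ K < z 0 + z 1 + z 2 - 1 := (div_lt_iff₀ hd).2 (by linarith)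
      linarith
    have h4 : s * t ≤ Module.finrank ℚ K * (max 2 (s * t / Module.finrank ℚ K + 1) - 1) := by
      have h5 := le_max_right 2 (s * t / Module.finrank ℚ K + 1)
      have h6 : s * t / Module.finrank ℚ K ≤ max 2 (s * t / Module.finrank ℚ K + 1) - 1 := by
        linarith
      rw [div_le_iff₀ hd] at h6
      linarith
    refine dim_ge_of hU hU2 hs0 fun x0 R0 hR0 h0 => ?_
    refine full_pos (max 2 (s * t / Module.finrank ℚ K + 1)) t s (le_max_left _ _)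
      (max_lt (by norm_num) (by linarith)) ht hs0 h1 h4 x0 R0 hR0
      (measure_mono_null (Set.inter_subset_inter_left _ fun p hp => ?_) h0)
    exact hp z hz1 (max_le hz h3.le) y N hN

/-- the exact dimension of the set of the points near which the inequality with constant `κ`
fails -/
theorem dim_vio (κ : ℝ) (hκ : 1 / 3 ≤ κ) (hκ2 : κ < 1 / 2) (t : ℝ) (ht : 0 < t)
    (y : K) (N : ℕ) (hN : 0 < N) (U : Set (mixedSpace K)) (hU : IsOpen U) (hU2 : U.Nonempty) :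
    dimH ({p : mixedSpace K | Vio κ t N y p} ∩ U) =
      ENNReal.ofReal (min (Module.finrank ℚ K : ℝ) (Module.finrank ℚ K * (1 / κ - 1) / t)) := by
  have hd : (0 : ℝ) < Module.finrank ℚ K := by exact_mod_cast Module.finrank_pos
  have hκ0 : 0 < κ := lt_of_lt_of_le (by norm_num) hκ
  have hk2 : 2 < 1 / κ := by
    rw [lt_div_iff₀ hκ0]
    linarith
  have hk3 : 1 / κ ≤ 3 := by
    rw [div_le_iff₀ hκ0]
    linarith
  refine le_antisymm ?_ (of_lt fun s hs0 hs => ?_)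
  · rw [ENNReal.ofReal_min]
    refine le_min (dim_le_d _) (dim_le_of hk2.le ht ?_)
    rintro p ⟨hp, -⟩ η hη
    exact (inf_of_vio hκ0 hp).mono (by linarith)
  · have h1 := hs.trans_le (min_le_left _ _)
    have h2 := hs.trans_le (min_le_right _ _)
    rw [lt_div_iff₀ ht] at h2
    obtain ⟨σ, h3, h4⟩ := exists_between (show max 2 (s * t / Module.finrank ℚ K + 1) < 1 / κ from
      max_lt hk2 (by
        have h5 : s * t / Module.finrank ℚ K < 1 / κ - 1 := (div_lt_iff₀ hd).2 (by linarith)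
        linarith))
    have h5 : 2 < σ := (le_max_left _ _).trans_lt h3
    have h6 : s * t / Module.finrank ℚ K + 1 < σ := (le_max_right _ _).trans_lt h3
    have h7 : s * t ≤ Module.finrank ℚ K * (σ - 1) := by
      have h8 : s * t / Module.finrank ℚ K ≤ σ - 1 := by linarith
      rw [div_le_iff₀ hd] at h8
      linarith
    refine dim_ge_of hU hU2 hs0 fun x0 R0 hR0 h0 => ?_
    refine full_pos σ t s h5.le (by linarith) ht hs0 h1 h7 x0 R0 hR0
      (measure_mono_null (Set.inter_subset_inter_left _ fun p hp => ?_) h0)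
    exact vio_of_lp hκ0 h4 (hp _ (fun _ => by linarith) (by linarith) y N hN)

/-- the exact dimension of the set of the points near which the best constant is `κ` -/
theorem dim_best (κ : ℝ) (hκ : 1 / 3 < κ) (hκ2 : κ < 1 / 2) (t : ℝ) (ht : 1 / κ - 1 < t)
    (U : Set (mixedSpace K)) (hU : IsOpen U) (hU2 : U.Nonempty) :
    dimH ({p : mixedSpace K | (∀ κ' : ℝ, κ < κ' → ∃ C : ℝ, ∀ x : K, Nr t p x →
      hgt x ≤ κ' * cond3 x + C) ∧ (∀ κ' : ℝ, κ' < κ → ∀ C : ℝ, ∃ x : K, Nr t p x ∧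
      κ' * cond3 x + C < hgt x)} ∩ U) =
      ENNReal.ofReal (Module.finrank ℚ K * (1 / κ - 1) / t) := by
  have hκ0 : 0 < κ := lt_trans (by norm_num) hκ
  have hk2 : 2 < 1 / κ := by
    rw [lt_div_iff₀ hκ0]
    linarith
  have hk3 : 1 / κ < 3 := by
    rw [div_lt_iff₀ hκ0]
    linarith
  have ht0 : 0 < t := by linarith
  refine le_antisymm (dim_le_of hk2.le ht0 ?_) ?_
  · rintro p ⟨⟨-, hp⟩, -⟩ η hη
    have h0 : 0 < 1 / κ + η := by linarith
    have h1 : 1 / (1 / κ + η) < κ := by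
      rw [div_lt_iff₀ h0, mul_add, mul_one_div_cancel hκ0.ne']
      have := mul_pos hκ0 hη
      linarith
    have h2 : Vio (1 / (1 / κ + η)) t 1 0 p := by
      intro C
      obtain ⟨x, hx, hx2⟩ := hp _ h1 C
      refine ⟨x, hx, fun v hv => ?_, hx2⟩
      rw [Nat.cast_one, map_one] at hv
      exact absurd hv (lt_irrefl _)
    have h3 := inf_of_vio (by positivity) h2
    rwa [one_div_one_div] at h3
  · rw [← dim_qx (1 / κ) t hk2 hk3 ht U hU hU2]
    refine dimH_mono (Set.inter_subset_inter_left _ fun p hp => ?_)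
    rw [Set.mem_ofPred_eq] at hp ⊢
    obtain ⟨-, h1, h2⟩ := hp
    rw [one_div_one_div] at h1 h2
    refine ⟨h1, fun κ' hκ' C => ?_⟩
    obtain ⟨x, hx, -, hx2⟩ := h2 κ' hκ' 0 1 one_pos C
    exact ⟨x, hx, hx2⟩

end Pool.Agent.H65KF
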