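import Pool.Agent.H65KF.Stm

/-!
# KF: the piece MTP (mass transference principle)
-/

set_option autoImplicit false

namespace Pool.Agent.H65KF

open Finset Filter Topology MeasureTheory Metric
open scoped ENNReal

section

variable {E : Type} [NormedAddCommGroup E] [NormedSpace ℝ E] [FiniteDimensional ℝ E]
  [MeasurableSpace E] [BorelSpace E]

/-- volumes of disjoint balls -/
lemma sum_vol_le (μ : Measure E) [μ.IsAddHaarMeasure] {ι : Type*} (G : Finset ι) (c : ι → E)
    (r : ι → ℝ) (hr : ∀ a ∈ G, 0 < r a)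
    (hdis : ∀ a ∈ G, ∀ b ∈ G, a ≠ b → Disjoint (closedBall (c a) (r a)) (closedBall (c b) (r b)))
    (z : E) {t : ℝ} (ht : 0 ≤ t) (hsub : ∀ a ∈ G, closedBall (c a) (r a) ⊆ closedBall z t) :
    ∑ a ∈ G, (r a) ^ Module.finrank ℝ E ≤ t ^ Module.finrank ℝ E := by
  have hv0 : μ (ball (0 : E) 1) ≠ 0 := (measure_ball_pos μ 0 one_pos).ne'
  have hvt : μ (ball (0 : E) 1) ≠ ⊤ := measure_ball_lt_top.ne
  have h1 : μ (⋃ a ∈ G, closedBall (c a) (r a)) = ∑ a ∈ G, μ (closedBall (c a) (r a)) :=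
    measure_biUnion_finset (fun a ha b hb hab => hdis a ha b hb hab)
      (fun a _ => measurableSet_closedBall)
  have h2 : μ (⋃ a ∈ G, closedBall (c a) (r a)) ≤ μ (closedBall z t) :=
    measure_mono (Set.iUnion₂_subset hsub)
  rw [h1, Measure.addHaar_closedBall μ z ht, Finset.sum_congr rfl fun a ha =>
    Measure.addHaar_closedBall μ (c a) (hr a ha).le, ← Finset.sum_mul] at h2
  have h3 := (ENNReal.mul_le_mul_iff_left hv0 hvt).1 h2
  rw [← ENNReal.ofReal_sum_of_nonneg (fun a ha => pow_nonneg (hr a ha).le _)] at h3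
  exact (ENNReal.ofReal_le_ofReal_iff (by positivity)).1 h3

/-- the step of the construction -/
lemma step (h2 : S_VOL) (μ : Measure E) [μ.IsAddHaarMeasure] {s s' : ℝ} (hs' : 0 < s')
    (hss : s' < s) (hsk : s ≤ Module.finrank ℝ E) (C : ℕ → Set E) (ρ : ℕ → ℝ)
    (hρ : ∀ j, 0 < ρ j) (hlim : Tendsto ρ atTop (𝓝 0))
    (hae : ∀ᵐ x ∂μ, ∃ᶠ j in atTop, ∃ c ∈ C j, dist x c ≤ ρ j) (x : E) (R : ℝ) (J : ℕ) (δ : ℝ)
    (hR : 0 < R) (hδ : 0 < δ) :
    ∃ (F : Finset E) (q m : E → ℝ),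
      (∀ y ∈ F, 0 < q y ∧ q y ≤ δ ∧ closedBall y (q y) ⊆ closedBall x R ∧
        closedBall y (q y) ⊆ {z | ∃ j ≥ J, ∃ c ∈ C j,
          dist z c ≤ (ρ j) ^ ((Module.finrank ℝ E : ℝ) / s)} ∧
        0 ≤ m y ∧ m y ≤ 1 / 4 * (q y / R) ^ s') ∧
      1 ≤ ∑ y ∈ F, m y ∧
      ∀ (U : Set E) (u : ℝ), 0 < u → (∀ y ∈ U, ∀ z ∈ U, dist y z ≤ u) →
        ∀ G : Finset E, G ⊆ F → (∀ y ∈ G, (U ∩ closedBall y (q y)).Nonempty) →
          ((∃ y ∈ G, u < q y) → G.card ≤ 1) ∧
          ((∀ y ∈ G, q y ≤ u) → u ≤ R →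
            ∑ y ∈ G, m y ≤ 1 / (4 * (1 / (2 * 10 ^ Module.finrank ℝ E) /
              (4 * 3 ^ Module.finrank ℝ E))) * (u / R) ^ s') := by
  classical
  set k := Module.finrank ℝ E with hk
  set θ : ℝ := 1 / (2 * 10 ^ k) with hθ
  have hθ0 : 0 < θ := by positivity
  have hs : 0 < s := hs'.trans hss
  have hks : 1 ≤ (k : ℝ) / s := by rwa [le_div_iff₀ hs, one_mul]
  -- small indices
  have hlim2 : Tendsto (fun j => 8 ^ k * (ρ j) ^ (s - s')) atTop (𝓝 0) := by
    have h3 : Tendsto (fun j => (ρ j) ^ (s - s')) atTop (𝓝 0) := by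
      have h4 := hlim.rpow_const (p := s - s') (Or.inr (by linarith))
      rwa [Real.zero_rpow (by linarith)] at h4
    have h5 := h3.const_mul ((8 : ℝ) ^ k)
    rwa [mul_zero] at h5
  have hRk : 0 < θ * R ^ ((k : ℝ) - s') / 4 := by
    have := Real.rpow_pos_of_pos hR ((k : ℝ) - s')
    positivity
  obtain ⟨J₁, hJ₁⟩ : ∃ J₁, ∀ j ≥ J₁, ρ j ≤ 1 ∧ ρ j ≤ δ ∧
      8 ^ k * (ρ j) ^ (s - s') ≤ θ * R ^ ((k : ℝ) - s') / 4 := by
    have e1 : ∀ᶠ j in atTop, ρ j < 1 := hlim.eventually_lt_const one_pos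
    have e2 : ∀ᶠ j in atTop, ρ j < δ := hlim.eventually_lt_const hδ
    have e3 : ∀ᶠ j in atTop, 8 ^ k * (ρ j) ^ (s - s') < θ * R ^ ((k : ℝ) - s') / 4 :=
      hlim2.eventually_lt_const hRk
    obtain ⟨J₁, h3⟩ := eventually_atTop.1 (e1.and (e2.and e3))
    exact ⟨J₁, fun j hj => ⟨(h3 j hj).1.le, (h3 j hj).2.1.le, (h3 j hj).2.2.le⟩⟩
  obtain ⟨F', hF1, hF2, hF3⟩ := h2 E μ C ρ hρ hlim hae x R (max J J₁) hR
  -- the radii
  let qr : ℕ → ℝ := fun j => min ((ρ j) ^ ((k : ℝ) / s)) (ρ j / 8)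
  have hqr0 : ∀ j, 0 < qr j := fun j =>
    lt_min (Real.rpow_pos_of_pos (hρ j) _) (by have := hρ j; positivity)
  have hqr1 : ∀ j, qr j ≤ (ρ j) ^ ((k : ℝ) / s) := fun j => min_le_left _ _
  have hqr2 : ∀ j, qr j ≤ ρ j / 8 := fun j => min_le_right _ _
  have hmain : ∀ j ≥ J₁, (ρ j) ^ k ≤ θ * R ^ k * (1 / 4 * (qr j / R) ^ s') := by
    intro j hj
    obtain ⟨e1, e2, e3⟩ := hJ₁ j hj
    have hρj := hρ j
    have hpow : (ρ j) ^ ((k : ℝ) / s) ≤ ρ j := by
      have := Real.rpow_le_rpow_of_exponent_ge hρj e1 hks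
      rwa [Real.rpow_one] at this
    have h3 : (ρ j) ^ ((k : ℝ) / s) ≤ 8 * qr j := by
      rcases min_choice ((ρ j) ^ ((k : ℝ) / s)) (ρ j / 8) with h | h
      · have h4 : qr j = (ρ j) ^ ((k : ℝ) / s) := h
        have := Real.rpow_pos_of_pos hρj ((k : ℝ) / s)
        linarith
      · have h4 : qr j = ρ j / 8 := h
        rw [h4]
        linarith
    have h4 : (ρ j) ^ k ≤ (8 * qr j) ^ s := by
      have h5 := Real.rpow_le_rpow (Real.rpow_pos_of_pos hρj _).le h3 hs.le
      rwa [← Real.rpow_mul hρj.le, div_mul_cancel₀ _ hs.ne', Real.rpow_natCast] at h5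
    have h5 : (8 * qr j) ^ s ≤ 8 ^ k * (qr j) ^ s := by
      rw [Real.mul_rpow (by norm_num) (hqr0 j).le]
      apply mul_le_mul_of_nonneg_right _ (Real.rpow_pos_of_pos (hqr0 j) _).le
      rw [← Real.rpow_natCast]
      exact Real.rpow_le_rpow_of_exponent_le (by norm_num) hsk
    have h6 : (qr j) ^ s = (qr j) ^ (s - s') * (qr j) ^ s' := by
      rw [← Real.rpow_add (hqr0 j)]
      congr 1
      ring
    have h7 : (qr j) ^ (s - s') ≤ (ρ j) ^ (s - s') :=
      Real.rpow_le_rpow (hqr0 j).le ((hqr2 j).trans (by linarith)) (by linarith)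
    have h8 : R ^ k = R ^ ((k : ℝ) - s') * R ^ s' := by
      rw [← Real.rpow_add hR, ← Real.rpow_natCast]
      congr 1
      ring
    have h9 : (qr j / R) ^ s' = (qr j) ^ s' / R ^ s' := Real.div_rpow (hqr0 j).le hR.le _
    have hRs : 0 < R ^ s' := Real.rpow_pos_of_pos hR _
    have hqs : 0 < (qr j) ^ s' := Real.rpow_pos_of_pos (hqr0 j) _
    rw [h9, h8]
    have h10 : θ * (R ^ ((k : ℝ) - s') * R ^ s') * (1 / 4 * ((qr j) ^ s' / R ^ s')) =
        (θ * R ^ ((k : ℝ) - s') / 4) * (qr j) ^ s' := by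
      field_simp
    rw [h10]
    calc (ρ j) ^ k ≤ 8 ^ k * ((qr j) ^ (s - s') * (qr j) ^ s') := by
          rw [← h6]
          exact h4.trans h5
      _ ≤ 8 ^ k * ((ρ j) ^ (s - s') * (qr j) ^ s') := by gcongr
      _ = (8 ^ k * (ρ j) ^ (s - s')) * (qr j) ^ s' := by ring
      _ ≤ _ := mul_le_mul_of_nonneg_right e3 hqs.le
  have hinj : ∀ a ∈ F', ∀ b ∈ F', a.1 = b.1 → a = b := by
    intro a ha b hb hab
    by_contra hne
    have h3 := hF2 a ha b hb hne
    rw [Set.disjoint_left] at h3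
    exact h3 (mem_closedBall_self (hρ a.2).le) (by rw [hab]; exact mem_closedBall_self (hρ b.2).le)
  obtain ⟨g, hg⟩ : ∃ g : E → E × ℕ, ∀ a ∈ F', g a.1 = a := by
    refine ⟨fun y => if h : ∃ a ∈ F', a.1 = y then h.choose else (0, 0), fun a ha => ?_⟩
    have h3 : ∃ b ∈ F', b.1 = a.1 := ⟨a, ha, rfl⟩
    beta_reduce
    rw [dif_pos h3]
    exact hinj _ h3.choose_spec.1 _ ha h3.choose_spec.2
  set Z : ℝ := ∑ a ∈ F', (ρ a.2) ^ k with hZ
  have hZθ : θ * R ^ k ≤ Z := by
    rw [hθ, div_mul_eq_mul_div, one_mul, div_le_iff₀ (by positivity)]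
    linarith
  have hRk0 : 0 < R ^ k := by positivity
  have hZ0 : 0 < Z := lt_of_lt_of_le (by positivity) hZθ
  have hmem : ∀ y ∈ F'.image Prod.fst, g y ∈ F' ∧ (g y).1 = y := by
    intro y hy
    obtain ⟨a, ha, rfl⟩ := Finset.mem_image.1 hy
    rw [hg a ha]
    exact ⟨ha, rfl⟩
  -- the distance of two centres
  have hdist : ∀ y ∈ F'.image Prod.fst, ∀ z ∈ F'.image Prod.fst, y ≠ z →
      ρ (g y).2 < dist y z ∧ ρ (g z).2 < dist y z := by
    intro y hy z hz hyz
    obtain ⟨h3, h4⟩ := hmem y hy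
    obtain ⟨h5, h6⟩ := hmem z hz
    have hne : g y ≠ g z := fun h => hyz (by rw [← h4, ← h6, h])
    have h7 := hF2 _ h3 _ h5 hne
    rw [h4, h6, Set.disjoint_left] at h7
    constructor
    · by_contra hcon
      refine h7 (a := z) ?_ (mem_closedBall_self (hρ _).le)
      rw [mem_closedBall, dist_comm]
      exact not_lt.1 hcon
    · by_contra hcon
      refine h7 (a := y) (mem_closedBall_self (hρ _).le) ?_
      rw [mem_closedBall]
      exact not_lt.1 hcon
  have hmb : ∀ y ∈ F'.image Prod.fst, (ρ (g y).2) ^ k / Z ≤ 1 / 4 * (qr (g y).2 / R) ^ s' := by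
    intro y hy
    obtain ⟨h3, -⟩ := hmem y hy
    have h4 := hmain (g y).2 ((le_max_right _ _).trans (hF1 _ h3).1)
    rw [div_le_iff₀ hZ0]
    refine h4.trans ?_
    rw [mul_comm]
    apply mul_le_mul_of_nonneg_left hZθ
    have := Real.rpow_pos_of_pos (div_pos (hqr0 (g y).2) hR) s'
    positivity
  refine ⟨F'.image Prod.fst, fun y => qr (g y).2, fun y => (ρ (g y).2) ^ k / Z, ?_, ?_, ?_⟩
  · intro y hy
    obtain ⟨h3, h4⟩ := hmem y hy
    obtain ⟨h5, h6, h7⟩ := hF1 _ h3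
    have hjJ₁ : J₁ ≤ (g y).2 := (le_max_right _ _).trans h5
    obtain ⟨e1, e2, e3⟩ := hJ₁ _ hjJ₁
    have hρy := hρ (g y).2
    have hq8 := hqr2 (g y).2
    refine ⟨hqr0 _, by linarith, ?_, ?_, by positivity, hmb y hy⟩
    · refine Set.Subset.trans (closedBall_subset_closedBall (by linarith)) (h4 ▸ h7)
    · intro z hz
      refine ⟨(g y).2, (le_max_left _ _).trans h5, y, ?_, ?_⟩
      · have := h6
        rwa [h4] at this
      · exact (mem_closedBall.1 hz).trans (hqr1 _)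
  · rw [Finset.sum_image (fun a ha b hb h => hinj a ha b hb h)]
    rw [← Finset.sum_div]
    have h3 : ∑ a ∈ F', (ρ (g a.1).2) ^ k = Z := by
      rw [hZ]
      exact Finset.sum_congr rfl fun a ha => by rw [hg a ha]
    rw [h3, div_self hZ0.ne']
  · intro U u hu hU G hGF hGU
    have hu' : 0 < u / R := by positivity
    have hus : 0 < (u / R) ^ s' := Real.rpow_pos_of_pos hu' _
    -- points of the balls
    have hpt : ∀ y ∈ G, ∀ z ∈ G, dist y z ≤ qr (g y).2 + u + qr (g z).2 := by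
      intro y hy z hz
      obtain ⟨y', hy1, hy2⟩ := hGU y hy
      obtain ⟨z', hz1, hz2⟩ := hGU z hz
      rw [mem_closedBall] at hy2 hz2
      have h3 := hU y' hy1 z' hz1
      have h4 := dist_triangle4 y y' z' z
      rw [dist_comm y y'] at h4
      linarith
    constructor
    · rintro ⟨y, hy, huy⟩
      rw [Finset.card_le_one]
      have hone : ∀ z ∈ G, z = y := by
        intro z hz
        by_contra hne
        have h3 := hdist y (hGF hy) z (hGF hz) (Ne.symm hne)
        have h4 := hpt y hy z hz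
        have h5 := hqr2 (g y).2
        have h6 := hqr2 (g z).2
        have h7 := hρ (g y).2
        have h8 := hρ (g z).2
        linarith [h3.1, h3.2]
      intro a ha b hb
      rw [hone a ha, hone b hb]
    · intro hqu huR
      have hκ : 1 / (4 * (θ / (4 * 3 ^ k))) = 3 ^ k / θ := by
        field_simp
      rw [hκ]
      rcases Nat.lt_or_ge 1 G.card with hG | hG
      · -- at least two children
        have hρu : ∀ y ∈ G, 3 / 4 * ρ (g y).2 ≤ u := by
          intro y hy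
          obtain ⟨z, hz, hzy⟩ := Finset.exists_mem_ne hG y
          have h3 := hdist y (hGF hy) z (hGF hz) (Ne.symm hzy)
          have h4 := hpt y hy z hz
          have h5 := hqr2 (g y).2
          have h6 := hqr2 (g z).2
          have h7 := hρ (g y).2
          have h8 := hρ (g z).2
          rcases le_total (ρ (g y).2) (ρ (g z).2) with h9 | h9
          · linarith [h3.2]
          · linarith [h3.1]
        obtain ⟨y₀, hy₀⟩ : G.Nonempty := Finset.card_pos.1 (by omega)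
        obtain ⟨z₀, hz1, hz2⟩ := hGU y₀ hy₀
        have h3 := sum_vol_le μ G (fun y => y) (fun y => ρ (g y).2) (fun y _ => hρ _)
          (fun a ha b hb hab => by
            obtain ⟨h3, h4⟩ := hmem a (hGF ha)
            obtain ⟨h5, h6⟩ := hmem b (hGF hb)
            have hne : g a ≠ g b := fun h => hab (by rw [← h4, ← h6, h])
            have h7 := hF2 _ h3 _ h5 hne
            rwa [h4, h6] at h7) z₀ (t := 3 * u) (by positivity) (by
            intro y hy w hw
            obtain ⟨y', hy1, hy2⟩ := hGU y hy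
            rw [mem_closedBall] at hy2 hw ⊢
            have h4 := hU y' hy1 z₀ hz1
            have h5 := dist_triangle4 w y y' z₀
            rw [dist_comm y y'] at h5
            have h6 := hqr2 (g y).2
            have h7 := hρu y hy
            have h8 := hρ (g y).2
            linarith)
        rw [← Finset.sum_div, div_le_iff₀ hZ0]
        have h4 : (u / R) ^ k ≤ (u / R) ^ s' := by
          rw [← Real.rpow_natCast (u / R) k]
          exact Real.rpow_le_rpow_of_exponent_ge hu' ((div_le_one hR).2 huR) (hss.le.trans hsk)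
        calc ∑ y ∈ G, (ρ (g y).2) ^ k ≤ (3 * u) ^ k := h3
          _ = 3 ^ k / θ * (u / R) ^ k * (θ * R ^ k) := by
              rw [mul_pow, div_pow]
              field_simp
          _ ≤ 3 ^ k / θ * (u / R) ^ s' * Z := by gcongr
      · -- at most one child
        have h3k : 1 / 4 ≤ 3 ^ k / θ := by
          have h3 : (1 : ℝ) ≤ 3 ^ k := one_le_pow₀ (by norm_num)
          have h4 : θ ≤ 1 := by
            rw [hθ, div_le_one (by positivity)]
            have : (1 : ℝ) ≤ 10 ^ k := one_le_pow₀ (by norm_num)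
            linarith
          rw [le_div_iff₀ hθ0]
          linarith
        rcases Finset.eq_empty_or_nonempty G with rfl | ⟨y, hy⟩
        · rw [Finset.sum_empty]
          positivity
        · have hGy : G = {y} := by
            apply Finset.eq_singleton_iff_unique_mem.2
            exact ⟨hy, fun z hz => Finset.card_le_one.1 hG z hz y hy⟩
          rw [hGy, Finset.sum_singleton]
          refine (hmb y (hGF hy)).trans ?_
          have h4 : (qr (g y).2 / R) ^ s' ≤ (u / R) ^ s' := by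
            apply Real.rpow_le_rpow (div_pos (hqr0 _) hR).le _ hs'.le
            exact div_le_div_of_nonneg_right (hqu y hy) hR.le
          calc 1 / 4 * (qr (g y).2 / R) ^ s' ≤ 1 / 4 * (u / R) ^ s' := by gcongr
            _ ≤ 3 ^ k / θ * (u / R) ^ s' := by gcongr

end

/-- MTP -/
theorem mtp (h1 : S_NESTW) (h2 : S_VOL) : S_MTP := by
  classical
  intro E _ _ _ _ _ μ _ s hs hsk C ρ hρ hlim hae
  set k := Module.finrank ℝ E with hk
  have key : ∀ s' : ℝ, 0 < s' → s' < s → ENNReal.ofReal s' ≤ dimH {x : E | ∀ i, ∃ᶠ j in atTop,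
      ∃ c ∈ C i j, dist x c ≤ (ρ i j) ^ ((k : ℝ) / s)} := by
    intro s' hs' hss
    set V : ℕ → Set E := fun n => {z | ∃ j ≥ (Nat.unpair n).2, ∃ c ∈ C (Nat.unpair n).1 j,
      dist z c ≤ (ρ (Nat.unpair n).1 j) ^ ((k : ℝ) / s)} with hV
    have hnest := h1 E s' (1 / (2 * 10 ^ k) / (4 * 3 ^ k)) hs' (by positivity)
      (by
        have e1 : (1 : ℝ) ≤ 10 ^ k := one_le_pow₀ (by norm_num)
        have e2 : (1 : ℝ) ≤ 3 ^ k := one_le_pow₀ (by norm_num)
        rw [div_div, div_le_one (by positivity)]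
        nlinarith) V
      (fun x R n δ hR hδ => step h2 μ hs' hss hsk (C (Nat.unpair n).1) (ρ (Nat.unpair n).1)
        (hρ _) (hlim _) (hae _) x R (Nat.unpair n).2 δ hR hδ) 0 1 one_pos
    have hsub : {y : E | ∀ j, y ∈ V j} ⊆ {x : E | ∀ i, ∃ᶠ j in atTop,
      ∃ c ∈ C i j, dist x c ≤ (ρ i j) ^ ((k : ℝ) / s)} := by
      intro y hy i
      rw [frequently_atTop]
      intro J
      have h3 := hy (Nat.pair i J)
      simp only [hV, Set.mem_ofPred_eq, Nat.unpair_pair] at h3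
      exact h3
    have hne : μH[s'] {x : E | ∀ i, ∃ᶠ j in atTop,
      ∃ c ∈ C i j, dist x c ≤ (ρ i j) ^ ((k : ℝ) / s)} ≠ 0 := by
      intro h0
      exact hnest (measure_mono_null (Set.inter_subset_left.trans hsub) h0)
    have hcoe : ((Real.toNNReal s' : NNReal) : ℝ) = s' := Real.coe_toNNReal _ hs'.le
    exact le_dimH_of_hausdorffMeasure_ne_zero (d := Real.toNNReal s') (by rw [hcoe]; exact hne)
  apply le_of_forall_lt
  intro c hc
  have hct : c ≠ ⊤ := ne_top_of_lt hc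
  obtain ⟨s', hs1, hs2⟩ := exists_between ((ENNReal.lt_ofReal_iff_toReal_lt hct).1 hc)
  have hs'0 : 0 < s' := lt_of_le_of_lt ENNReal.toReal_nonneg hs1
  refine lt_of_lt_of_le ?_ (key s' hs'0 hs2)
  rwa [ENNReal.lt_ofReal_iff_toReal_lt hct]

end Pool.Agent.H65KF
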