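import Pool.Agent.H65KF.Lat
import Pool.Agent.H65KF.Div
import Pool.Agent.H34x.KG.Lat

set_option autoImplicit false

/-!
Pairs of integers with prescribed divisibilities and small common divisors.
-/

namespace Pool.Agent.H65KF.CL

open NumberField IsDedekindDomain Finset
open Module (finrank)
open Pool.Agent.H34x.KF (height cond)
open Pool.Agent.H34x.KG (w_nat cast_coprime)

variable {K : Type} [Field K] [NumberField K]

/-- integers with natural coordinates -/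
noncomputable def vn (f : Ix K → ℕ) : 𝓞 K := vv fun i => (f i : ℤ)

lemma vn_inj : Function.Injective (vn (K := K)) := by
  intro f g h
  have h1 := vv_inj h
  funext i
  have h2 : (f i : ℤ) = (g i : ℤ) := congrFun h1 i
  exact_mod_cast h2

lemma w_vn {f : Ix K → ℕ} {n : ℕ} (hf : ∀ i, f i < n) (w : InfinitePlace K) :
    w ((vn f : 𝓞 K) : K) ≤ cc K * n := by
  refine w_vv _ (Nat.cast_nonneg _) (fun i => ?_) w
  push_cast
  rw [abs_of_nonneg (Nat.cast_nonneg _)]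
  exact_mod_cast (hf i).le

/-- the denominator -/
noncomputable def gam (k1 n : ℕ) (f : Ix K → ℕ) : 𝓞 K :=
  (3 : 𝓞 K) ^ k1 * (((20 * cc K * n + 1 : ℕ) : 𝓞 K) + 10 * vn f)

lemma three_ne : (3 : 𝓞 K) ≠ 0 := by exact_mod_cast (by norm_num : (3 : ℕ) ≠ 0)

lemma gam_inj (k1 n : ℕ) : Function.Injective (gam (K := K) k1 n) := by
  intro f g h
  unfold gam at h
  have h1 := mul_left_cancel₀ (pow_ne_zero k1 (three_ne (K := K))) h
  have h2 := add_left_cancel h1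
  have h3 : (10 : 𝓞 K) ≠ 0 := by exact_mod_cast (by norm_num : (10 : ℕ) ≠ 0)
  exact vn_inj (mul_left_cancel₀ h3 h2)

lemma w_ofNat3 (w : InfinitePlace K) : w (3 : K) = 3 := by
  have := w_nat w 3
  exact_mod_cast this

lemma w_ofNat10 (w : InfinitePlace K) : w (10 : K) = 10 := by
  have := w_nat w 10
  exact_mod_cast this

lemma gam_coe (k1 n : ℕ) (f : Ix K → ℕ) : ((gam k1 n f : 𝓞 K) : K) =
    (3 : K) ^ k1 * (((20 * cc K * n + 1 : ℕ) : K) + 10 * ((vn f : 𝓞 K) : K)) := by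
  unfold gam
  push_cast
  norm_cast

lemma w_gam_le (k1 : ℕ) {n : ℕ} (hn : 0 < n) {f : Ix K → ℕ} (hf : ∀ i, f i < n)
    (w : InfinitePlace K) : w ((gam k1 n f : 𝓞 K) : K) ≤ 3 ^ k1 * (31 * cc K * n) := by
  rw [gam_coe, map_mul, map_pow, w_ofNat3]
  refine mul_le_mul_of_nonneg_left ?_ (by positivity)
  refine (w.1.add_le _ _).trans ?_
  have h1 : w.1 (((20 * cc K * n + 1 : ℕ) : K)) = ((20 * cc K * n + 1 : ℕ) : ℝ) := w_nat w _
  have h2 : w.1 (10 * ((vn f : 𝓞 K) : K)) = 10 * w ((vn f : 𝓞 K) : K) := by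
    rw [map_mul]
    congr 1
    exact w_ofNat10 w
  rw [h1, h2]
  have h3 := w_vn hf w
  have h4 : (1 : ℝ) ≤ cc K * n := by
    have : 1 ≤ cc K * n := Nat.mul_pos cc_pos hn
    exact_mod_cast this
  push_cast
  linarith

lemma le_w_gam (k1 : ℕ) {n : ℕ} {f : Ix K → ℕ} (hf : ∀ i, f i < n)
    (w : InfinitePlace K) : 3 ^ k1 * (10 * cc K * n) ≤ w ((gam k1 n f : 𝓞 K) : K) := by
  rw [gam_coe, map_mul, map_pow, w_ofNat3]
  refine mul_le_mul_of_nonneg_left ?_ (by positivity)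
  have h1 : w.1 (((20 * cc K * n + 1 : ℕ) : K)) = ((20 * cc K * n + 1 : ℕ) : ℝ) := w_nat w _
  have h2 : w.1 (10 * ((vn f : 𝓞 K) : K)) = 10 * w ((vn f : 𝓞 K) : K) := by
    rw [map_mul]
    congr 1
    exact w_ofNat10 w
  have h3 := w_vn hf w
  have h5 := w.1.add_le (((20 * cc K * n + 1 : ℕ) : K) + 10 * ((vn f : 𝓞 K) : K))
    (-(10 * ((vn f : 𝓞 K) : K)))
  rw [add_neg_cancel_right, AbsoluteValue.map_neg, h1, h2] at h5
  push_cast at h5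
  have h6 : w.1 ((20 * (cc K : K) * (n : K) + 1) + 10 * ((vn f : 𝓞 K) : K)) =
      w (((20 * cc K * n + 1 : ℕ) : K) + 10 * ((vn f : 𝓞 K) : K)) := by
    push_cast
    rfl
  rw [h6] at h5
  linarith

lemma gam_cop (k1 n : ℕ) (f : Ix K → ℕ) : IsCoprime (gam k1 n f : 𝓞 K) 10 := by
  have h1 : Nat.Coprime (3 ^ k1 * (20 * cc K * n + 1)) 10 := by
    refine Nat.Coprime.mul_left ?_ ?_
    · exact Nat.Coprime.pow_left _ (by norm_num)
    · have : 20 * cc K * n + 1 = 10 * (2 * cc K * n) + 1 := by ring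
      rw [this, Nat.coprime_comm]
      simp
  have h2 := cast_coprime (K := K) h1
  have h3 : (gam k1 n f : 𝓞 K) = ((3 ^ k1 * (20 * cc K * n + 1) : ℕ) : 𝓞 K) +
      ((10 : ℕ) : 𝓞 K) * (3 ^ k1 * vn f) := by
    unfold gam
    push_cast
    ring
  have h4 : (10 : 𝓞 K) = ((10 : ℕ) : 𝓞 K) := by norm_cast
  rw [h3, h4]
  exact h2.add_mul_left_left _

lemma not_dvd_one {b : ℕ} (hb : 2 ≤ b) : ¬ (b : 𝓞 K) ∣ 1 := by
  intro h
  have h1 : Ideal.absNorm (Ideal.span {(b : 𝓞 K)}) = b ^ Module.finrank ℚ K := by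
    rw [Ideal.absNorm_span_singleton]
    have : (b : 𝓞 K) = algebraMap ℤ (𝓞 K) b := by simp
    rw [this, Algebra.norm_algebraMap, Int.natAbs_pow, Int.natAbs_natCast, RingOfIntegers.rank]
  rw [Ideal.span_singleton_eq_top.2 (isUnit_of_dvd_one h), Ideal.absNorm_top] at h1
  have h2 : 1 < b ^ Module.finrank ℚ K := Nat.one_lt_pow Module.finrank_pos.ne' (by omega)
  omega

lemma gam_ne (k1 n : ℕ) (f : Ix K → ℕ) : (gam k1 n f : 𝓞 K) ≠ 0 := by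
  intro h
  have h1 := gam_cop k1 n f
  rw [h, isCoprime_zero_left] at h1
  have h2 : ((10 : ℕ) : 𝓞 K) ∣ 1 := by
    rw [← isUnit_iff_dvd_one]
    exact_mod_cast h1
  exact not_dvd_one (by norm_num) h2

/-- the modulus -/
def MM (k0 k2 : ℕ) : ℕ := 3 * 2 ^ k0 * 5 ^ k2

lemma MM_pos (k0 k2 : ℕ) : 0 < MM k0 k2 := by unfold MM; positivity

lemma exists_beta (k0 k2 : ℕ) (γ : 𝓞 K) : ∃ β : 𝓞 K, (2 : 𝓞 K) ^ k0 ∣ β ∧
    (5 : 𝓞 K) ^ k2 ∣ β - γ ∧ (3 : 𝓞 K) ∣ β - 1 ∧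
    ∀ w : InfinitePlace K, w (β : K) ≤ cc K * (MM k0 k2 : ℕ) := by
  have c1 : IsCoprime ((5 : 𝓞 K) ^ k2) (3 * 2 ^ k0) := by
    have h : Nat.Coprime (5 ^ k2) (3 * 2 ^ k0) :=
      Nat.Coprime.pow_left _ (Nat.Coprime.mul_right (by norm_num)
        (Nat.Coprime.pow_right _ (by norm_num)))
    have := cast_coprime (K := K) h
    push_cast at this
    exact this
  have c2 : IsCoprime (3 : 𝓞 K) (2 ^ k0 * 5 ^ k2) := by
    have h : Nat.Coprime 3 (2 ^ k0 * 5 ^ k2) :=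
      Nat.Coprime.mul_right (Nat.Coprime.pow_right _ (by norm_num))
        (Nat.Coprime.pow_right _ (by norm_num))
    have := cast_coprime (K := K) h
    push_cast at this
    exact this
  obtain ⟨u, v, huv⟩ := c1
  obtain ⟨u', v', huv'⟩ := c2
  obtain ⟨β, hβ1, hβ2⟩ := red (MM k0 k2) (MM_pos k0 k2)
    (v * (3 * 2 ^ k0) * γ + v' * (2 ^ k0 * 5 ^ k2))
  obtain ⟨c, hc⟩ := hβ1
  have hM : ((MM k0 k2 : ℕ) : 𝓞 K) = 3 * 2 ^ k0 * 5 ^ k2 := by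
    unfold MM
    push_cast
    ring
  rw [hM] at hc
  refine ⟨β, ⟨v * 3 * γ + v' * 5 ^ k2 + 3 * 5 ^ k2 * c, ?_⟩,
    ⟨-(u * γ) + v' * 2 ^ k0 + 3 * 2 ^ k0 * c, ?_⟩,
    ⟨v * 2 ^ k0 * γ - u' + 2 ^ k0 * 5 ^ k2 * c, ?_⟩, hβ2⟩
  · linear_combination hc
  · linear_combination hc + γ * huv
  · linear_combination hc + huv'

/-- the numerator -/
noncomputable def alp (k0 k2 : ℕ) (γ : 𝓞 K) (g : Ix K → ℕ) : 𝓞 K :=
  (exists_beta k0 k2 γ).choose + ((MM k0 k2 : ℕ) : 𝓞 K) * vn g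

lemma MM_coe (k0 k2 : ℕ) : ((MM k0 k2 : ℕ) : 𝓞 K) = 3 * 2 ^ k0 * 5 ^ k2 := by
  unfold MM
  push_cast
  ring

lemma alp_two (k0 k2 : ℕ) (γ : 𝓞 K) (g : Ix K → ℕ) : (2 : 𝓞 K) ^ k0 ∣ alp k0 k2 γ g := by
  unfold alp
  refine dvd_add (exists_beta k0 k2 γ).choose_spec.1 ?_
  rw [MM_coe]
  exact ⟨3 * 5 ^ k2 * vn g, by ring⟩

lemma alp_five (k0 k2 : ℕ) (γ : 𝓞 K) (g : Ix K → ℕ) :
    (5 : 𝓞 K) ^ k2 ∣ alp k0 k2 γ g - γ := by
  have h : alp k0 k2 γ g - γ = ((exists_beta k0 k2 γ).choose - γ) +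
      ((MM k0 k2 : ℕ) : 𝓞 K) * vn g := by
    unfold alp
    ring
  rw [h]
  refine dvd_add (exists_beta k0 k2 γ).choose_spec.2.1 ?_
  rw [MM_coe]
  exact ⟨3 * 2 ^ k0 * vn g, by ring⟩

lemma alp_three (k0 k2 : ℕ) (γ : 𝓞 K) (g : Ix K → ℕ) : (3 : 𝓞 K) ∣ alp k0 k2 γ g - 1 := by
  have h : alp k0 k2 γ g - 1 = ((exists_beta k0 k2 γ).choose - 1) +
      ((MM k0 k2 : ℕ) : 𝓞 K) * vn g := by
    unfold alp
    ring
  rw [h]
  refine dvd_add (exists_beta k0 k2 γ).choose_spec.2.2.1 ?_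
  rw [MM_coe]
  exact ⟨2 ^ k0 * 5 ^ k2 * vn g, by ring⟩

lemma w_alp (k0 k2 : ℕ) (γ : 𝓞 K) {g : Ix K → ℕ} {n' : ℕ} (hg : ∀ i, g i < n')
    (w : InfinitePlace K) : w ((alp k0 k2 γ g : 𝓞 K) : K) ≤ cc K * MM k0 k2 * (n' + 1) := by
  have h : ((alp k0 k2 γ g : 𝓞 K) : K) = (((exists_beta k0 k2 γ).choose : 𝓞 K) : K) +
      ((MM k0 k2 : ℕ) : K) * ((vn g : 𝓞 K) : K) := by
    unfold alp
    push_cast
    rfl
  rw [h]
  refine (w.1.add_le _ _).trans ?_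
  have h1 := (exists_beta k0 k2 γ).choose_spec.2.2.2 w
  have h2 : w.1 (((MM k0 k2 : ℕ) : K) * ((vn g : 𝓞 K) : K)) =
      (MM k0 k2 : ℕ) * w ((vn g : 𝓞 K) : K) := by
    rw [map_mul]
    congr 1
    exact w_nat w _
  rw [h2]
  have h3 := mul_le_mul_of_nonneg_left (w_vn hg w) (Nat.cast_nonneg (α := ℝ) (MM k0 k2))
  have h4 : w.1 (((exists_beta k0 k2 γ).choose : 𝓞 K) : K) ≤ cc K * (MM k0 k2 : ℕ) := h1
  calc _ ≤ (cc K : ℝ) * (MM k0 k2 : ℕ) + (MM k0 k2 : ℕ) * (cc K * n') := add_le_add h4 h3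
    _ = _ := by ring

lemma alp_inj (k0 k2 : ℕ) (γ : 𝓞 K) : Function.Injective (alp k0 k2 γ) := by
  intro g g' h
  unfold alp at h
  have h1 := add_left_cancel h
  have h2 : ((MM k0 k2 : ℕ) : 𝓞 K) ≠ 0 := by exact_mod_cast (MM_pos k0 k2).ne'
  exact vn_inj (mul_left_cancel₀ h2 h1)

lemma alp_cop (k0 k2 : ℕ) (γ : 𝓞 K) (g : Ix K → ℕ) : IsCoprime (alp k0 k2 γ g) 3 := by
  obtain ⟨c, hc⟩ := alp_three k0 k2 γ g
  exact ⟨1, -c, by linear_combination hc⟩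

lemma alp_ne (k0 k2 : ℕ) (γ : 𝓞 K) (g : Ix K → ℕ) : alp k0 k2 γ g ≠ 0 := by
  intro h
  have h1 := alp_cop k0 k2 γ g
  rw [h, isCoprime_zero_left] at h1
  have h2 : ((3 : ℕ) : 𝓞 K) ∣ 1 := by
    rw [← isUnit_iff_dvd_one]
    exact_mod_cast h1
  exact not_dvd_one (by norm_num) h2

lemma alp_ne_gam {k0 : ℕ} (hk0 : 1 ≤ k0) (k2 : ℕ) {γ : 𝓞 K} (hγ : IsCoprime γ 10)
    (g : Ix K → ℕ) : alp k0 k2 γ g ≠ γ := by
  intro h
  have h1 : (2 : 𝓞 K) ∣ γ := by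
    have h2 := alp_two k0 k2 γ g
    rw [h] at h2
    exact (dvd_pow_self 2 (by omega)).trans h2
  have h3 : (2 : 𝓞 K) ∣ 10 := ⟨5, by norm_num⟩
  have h4 := hγ.isUnit_of_dvd' h1 h3
  have h5 : ((2 : ℕ) : 𝓞 K) ∣ 1 := by
    rw [← isUnit_iff_dvd_one]
    exact_mod_cast h4
  exact not_dvd_one (by norm_num) h5

/-- the common divisor is prime to the modulus -/
lemma span_cop (k0 k2 : ℕ) {γ : 𝓞 K} (hγ : IsCoprime γ 10) (g : Ix K → ℕ) :
    IsCoprime (Ideal.span {((MM k0 k2 : ℕ) : 𝓞 K)}) (Ideal.span {alp k0 k2 γ g, γ}) := by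
  have h0 : IsCoprime γ (2 * 5 : 𝓞 K) := by
    have : (2 * 5 : 𝓞 K) = 10 := by norm_num
    rwa [this]
  have h1 : IsCoprime γ (2 ^ k0 * 5 ^ k2 : 𝓞 K) :=
    (h0.of_mul_right_left.pow_right).mul_right (h0.of_mul_right_right.pow_right)
  obtain ⟨u, v, huv⟩ := h1
  obtain ⟨u', v', huv'⟩ := alp_cop k0 k2 γ g
  rw [Ideal.isCoprime_iff_exists]
  refine ⟨v * v' * (MM k0 k2 : ℕ), Ideal.mul_mem_left _ _ (Ideal.mem_span_singleton_self _),
    (v * (2 ^ k0 * 5 ^ k2) * u') * alp k0 k2 γ g + (u * (u' * alp k0 k2 γ g + v' * 3)) * γ, ?_, ?_⟩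
  · exact Ideal.mem_span_pair.2 ⟨_, _, rfl⟩
  · rw [MM_coe]
    linear_combination (u' * alp k0 k2 γ g + v' * 3) * huv + huv'

/-- lower bound for the height -/
lemma height_ge {α γ : 𝓞 K} (hγ : γ ≠ 0) {A G : ℝ} (hA : 0 < A)
    (h : ∀ w : InfinitePlace K, A ≤ w (γ : K))
    (hG : (Ideal.absNorm (Ideal.span {α, γ}) : ℝ) ≤ G) :
    Real.log A - Real.log G / finrank ℚ K ≤ height ((α : K) / γ) := by
  have hd : (0 : ℝ) < finrank ℚ K := by exact_mod_cast Module.finrank_pos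
  have h3 := Pool.Agent.H34x.KF.logHeight_eq (α := α) hγ
  have h4 : 0 < Ideal.absNorm (Ideal.span {α, γ} : Ideal (𝓞 K)) := by
    rw [Nat.pos_iff_ne_zero, Ne, Ideal.absNorm_eq_zero_iff, Ideal.span_eq_bot]
    intro h
    exact hγ (h γ (by simp))
  have h5 : Real.log (Ideal.absNorm (Ideal.span {α, γ} : Ideal (𝓞 K)) : ℝ) ≤ Real.log G :=
    Real.log_le_log (by exact_mod_cast h4) hG
  have h6 : (finrank ℚ K : ℝ) * Real.log A ≤
      (∑ w : InfinitePlace K, (w.mult : ℝ) * Real.log (max (w (α : K)) (w (γ : K)))) := by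
    rw [← Pool.Agent.H34x.KF.sum_mult]
    apply Finset.sum_le_sum
    intro w _
    apply mul_le_mul_of_nonneg_left _ (Nat.cast_nonneg _)
    exact Real.log_le_log hA ((h w).trans (le_max_right _ _))
  have h7 : (finrank ℚ K : ℝ) * (Real.log A - Real.log G / finrank ℚ K) ≤
      finrank ℚ K * height ((α : K) / γ) := by
    rw [mul_sub, mul_div_cancel₀ _ hd.ne']
    linarith
  exact le_of_mul_le_mul_left h7 hd

/-- few pairs have a large common divisor -/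
lemma bad_card {δ D : ℝ} (hD0 : 0 ≤ D)
    (hD : ∀ (J : Ideal (𝓞 K)) (Q : Finset (Ideal (𝓞 K))), J ≠ ⊥ →
      (∀ I ∈ Q, I ∣ J) → (Q.card : ℝ) ≤ D * (Ideal.absNorm J : ℝ) ^ δ)
    (k0 k2 : ℕ) {n' r : ℕ} {γ : 𝓞 K} (hγ : γ ≠ 0) (hcop : IsCoprime γ 10) {G : ℝ} (hr : 0 < r)
    (hG : ((cc K : ℝ) * r) ^ finrank ℚ K ≤ G) (E : Finset (Ix K → ℕ))
    (hE : ∀ g ∈ E, (∀ i, g i < n') ∧ G < (Ideal.absNorm (Ideal.span {alp k0 k2 γ g, γ}) : ℝ)) :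
    (E.card : ℝ) ≤ D * (Ideal.absNorm (Ideal.span {γ}) : ℝ) ^ δ *
      ((n' : ℝ) / r + 1) ^ finrank ℚ K := by
  classical
  refine Pool.Agent.W462.AK.card_le_mul_fib E (fun g => Ideal.span {alp k0 k2 γ g, γ}) _ _
    (by positivity) ?_ ?_
  · refine hD _ _ ?_ ?_
    · rw [Ne, Ideal.span_singleton_eq_bot]
      exact hγ
    · intro I hI
      obtain ⟨g, _, rfl⟩ := Finset.mem_image.1 hI
      rw [Ideal.dvd_iff_le]
      exact Ideal.span_mono (by simp)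
  · intro I hI
    obtain ⟨g0, hg0, rfl⟩ := Finset.mem_image.1 hI
    refine sep (span_cop k0 k2 hcop g0) (exists_beta k0 k2 γ).choose hr
      (lt_of_le_of_lt hG (hE g0 hg0).2) _ ?_
    intro g hg
    rw [Finset.mem_filter] at hg
    refine ⟨(hE g hg.1).1, ?_⟩
    have h1 : alp k0 k2 γ g ∈ Ideal.span {alp k0 k2 γ g, γ} := Ideal.subset_span (by simp)
    rw [hg.2] at h1
    exact h1

end Pool.Agent.H65KF.CL
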