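import Pool.Agent.H65KF.Ae
import Pool.Agent.Results.MP_f5a5f7_nt.ExponentAtEveryPoint

set_option autoImplicit false

/-!
Numbers with prescribed conductors near almost every point.
-/

namespace Pool.Agent.H65KF

open NumberField NumberField.mixedEmbedding MeasureTheory Filter Topology Metric IsDedekindDomain
open scoped ENNReal Classical

variable {K : Type} [Field K] [NumberField K]

section CondLe

open Pool.Agent.H691R3 Pool.Agent.W223.AK Pool.Agent.W17.WK

lemma cond_le_height : ∃ C : ℝ, 0 ≤ C ∧ ∀ x : K, x ≠ 0 → x ≠ 1 →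
    cnd x ≤ hgt x + C ∧ cnd x⁻¹ ≤ hgt x + C ∧ cnd (x - 1) ≤ hgt x + C := by
  classical
  have hd := fd_pos (K := K)
  refine ⟨max 0 (cS (∅ : Finset (Pr K)) / Module.finrank ℚ K), le_max_left _ _, ?_⟩
  intro x hx0 hx1
  have hpt : Pt (-x) := by
    refine ⟨neg_ne_zero.mpr hx0, fun h => hx1 ?_⟩
    have h5 : x = 1 - (-x + 1) := by ring
    rw [h5, h, sub_zero]
  obtain ⟨P, hP⟩ := exists_isP (∅ : Finset (Pr K)) hpt
  have e0 : ∀ v : Pr K, P 0 v ≠ 0 ↔ FinitePlace.mk v x < 1 := by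
    intro v
    rw [isP_ne_iff hP 0 v, L_zero, AbsoluteValue.map_neg, lt_max_iff]
    constructor
    · rintro (h | h)
      · exact absurd h (lt_irrefl _)
      · exact h
    · intro h
      exact Or.inr h
  have e1 : ∀ v : Pr K, P 1 v ≠ 0 ↔ FinitePlace.mk v x⁻¹ < 1 := by
    intro v
    rw [isP_ne_iff hP 1 v, L_one, AbsoluteValue.map_neg, map_one, lt_max_iff]
    have h0 : 0 < fv v x := (fv v).pos hx0
    have h1 : FinitePlace.mk v x⁻¹ = (fv v x)⁻¹ := by
      rw [← fv_apply]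
      exact map_inv₀ (fv v) x
    rw [h1, inv_lt_one₀ h0]
    constructor
    · rintro (h | h)
      · exact h
      · exact absurd h (lt_irrefl _)
    · intro h
      exact Or.inl h
  have e2 : ∀ v : Pr K, P 2 v ≠ 0 ↔ FinitePlace.mk v (x - 1) < 1 := by
    intro v
    rw [isP_ne_iff hP 2 v, L_two, AbsoluteValue.map_neg]
    have h1 : FinitePlace.mk v (x - 1) = fv v (-x + 1) := by
      rw [← fv_apply, ← AbsoluteValue.map_neg (fv v) (x - 1)]
      congr 1
      ring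
    rw [h1]
    constructor
    · intro h
      by_contra hcon
      rw [not_lt] at hcon
      rcases le_or_gt (fv v x) 1 with h2 | h2
      · rw [max_eq_right h2] at h
        exact absurd h (not_lt.mpr hcon)
      · rw [max_eq_left h2.le] at h
        have h3 := fv_na v (-x + 1) (-1)
        rw [AbsoluteValue.map_neg, map_one] at h3
        have h4 : -x + 1 + -1 = -x := by ring
        rw [h4, AbsoluteValue.map_neg] at h3
        rcases le_max_iff.mp h3 with h5 | h5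
        · exact absurd h (not_lt.mpr h5)
        · exact absurd h2 (not_lt.mpr h5)
    · intro h
      exact lt_max_of_lt_right h
  have key : ∀ (l : Fin 3), 1 / (Module.finrank ℚ K : ℝ) * rl (P l) ≤
      hgt x + max 0 (cS (∅ : Finset (Pr K)) / Module.finrank ℚ K) := by
    intro l
    have h1 := rl_le_len (P l)
    have h2 := len_le hpt hP l
    rw [ht_neg_eq] at h2
    have h3 : 1 / (Module.finrank ℚ K : ℝ) * rl (P l) ≤ 1 / (Module.finrank ℚ K : ℝ) *
        (Module.finrank ℚ K * height x + cS (∅ : Finset (Pr K))) :=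
      mul_le_mul_of_nonneg_left (h1.trans h2) (by positivity)
    refine h3.trans ?_
    have h4 : 1 / (Module.finrank ℚ K : ℝ) *
        (Module.finrank ℚ K * height x + cS (∅ : Finset (Pr K))) =
        height x + cS (∅ : Finset (Pr K)) / Module.finrank ℚ K := by
      field_simp
    rw [h4]
    have h5 := le_max_right 0 (cS (∅ : Finset (Pr K)) / Module.finrank ℚ K)
    exact add_le_add le_rfl h5
  refine ⟨?_, ?_, ?_⟩
  · have h := key 0
    rwa [← rl_finsum (P 0) _ e0] at h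
  · have h := key 1
    rwa [← rl_finsum (P 1) _ e1] at h
  · have h := key 2
    rwa [← rl_finsum (P 2) _ e2] at h

end CondLe

/-- `|x - y|_v ≤ |N|_v` for the primes `v` dividing `N` -/
def Cg (N : ℕ) (y x : K) : Prop :=
  ∀ v : HeightOneSpectrum (RingOfIntegers K), FinitePlace.mk v (N : K) < 1 →
    FinitePlace.mk v (x - y) ≤ FinitePlace.mk v (N : K)

/-- `x` is near `p` -/
def Nr (t : ℝ) (p : mixedSpace K) (x : K) : Prop :=
  x ≠ 0 ∧ x ≠ 1 ∧ ∀ w : InfinitePlace K,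
    normAtPlace w (mixedEmbedding K x - p) ≤ Real.exp (-t * hgt x)

/-- the conductors are nearly `z 0 h, z 1 h, z 2 h` -/
def Ex (z : Fin 3 → ℝ) (ε : ℝ) (x : K) : Prop :=
  |cnd x - z 0 * hgt x| ≤ ε * hgt x ∧ |cnd x⁻¹ - z 1 * hgt x| ≤ ε * hgt x ∧
    |cnd (x - 1) - z 2 * hgt x| ≤ ε * hgt x

/-- the properties of almost every point -/
def Gd (p : mixedSpace K) : Prop :=
  (∀ x : K, ∀ w : InfinitePlace K, normAtPlace w (p - mixedEmbedding K x) ≠ 0) ∧
  (∀ t s : ℝ, 1 < t → s < 1 + t →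
    {x : K | x ≠ 0 ∧ x ≠ 1 ∧ (∀ w : InfinitePlace K, normAtPlace w (mixedEmbedding K x - p) ≤
      Real.exp (-t * hgt x)) ∧ cond3 x ≤ s * hgt x}.Finite)

lemma ae_gd : ∀ᵐ p : mixedSpace K, Gd p := by
  filter_upwards [ae_avoids, ae_lower] with p h1 h2
  exact ⟨h1, h2⟩

/-- heights in a finite set are bounded -/
lemma bdd_of_finite {S : Set K} (hS : S.Finite) : ∃ M : ℝ, 0 ≤ M ∧ ∀ x ∈ S, hgt x < M := by
  obtain ⟨M, hM⟩ := (hS.image fun x : K => hgt x).bddAbove
  refine ⟨max 0 M + 1, by positivity, fun x hx => ?_⟩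
  have h1 := hM (Set.mem_image_of_mem _ hx)
  have h2 := le_max_right 0 M
  linarith

/-- the heights of the elements of a set with elements of arbitrarily large height -/
lemma infinite_of_heights {S : Set K} (h : ∀ B : ℝ, ∃ x ∈ S, B ≤ hgt x) : S.Infinite := by
  intro hS
  obtain ⟨M, _, hM⟩ := bdd_of_finite hS
  obtain ⟨x, hx, hx2⟩ := h M
  exact absurd (hM x hx) (not_lt.2 hx2)

/-- numbers with exact conductors near a good point -/
theorem exists_exact {p : mixedSpace K} (hp : Gd p) (z : Fin 3 → ℝ) (hz0 : ∀ i, 0 < z i)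
    (hz1 : ∀ i, z i ≤ 1) (hz : 2 < z 0 + z 1 + z 2) (τ : ℝ) (hτ : τ < z 0 + z 1 + z 2 - 1)
    (ε : ℝ) (hε : 0 < ε) (y : K) (N : ℕ) (hN : 0 < N) (B : ℝ) :
    ∃ x : K, Nr τ p x ∧ Cg N y x ∧ Ex z ε x ∧ B ≤ hgt x := by
  obtain ⟨τ1, h1, h2⟩ := exists_between (show max τ (max 1 (z 0 + z 1 + z 2 - 1 - ε / 2)) <
    z 0 + z 1 + z 2 - 1 from max_lt hτ (max_lt (by linarith) (by linarith)))
  have h3 : τ < τ1 := (le_max_left _ _).trans_lt h1
  have h4 : 1 < τ1 := ((le_max_left _ _).trans (le_max_right _ _)).trans_lt h1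
  have h5 : z 0 + z 1 + z 2 - 1 - ε / 2 < τ1 :=
    ((le_max_right _ _).trans (le_max_right _ _)).trans_lt h1
  obtain ⟨M, hM0, hM⟩ := bdd_of_finite (hp.2 τ1 (1 + τ1 - ε / 2) h4 (by linarith))
  obtain ⟨x, hx0, hx1, hxB, hxw, hxv, ha, hb, hc⟩ :=
    Pool.Agent.Results.MP_f5a5f7_nt.ExponentAtEveryPoint.result.1 K (z 0) (z 1) (z 2) τ1
      (hz0 0) (hz0 1) (hz0 2) (hz1 0) (hz1 1) (hz1 2) (by linarith) h2 p y N (max B M) hN
      (fun w => hp.1 0 w) (fun w => hp.1 1 w) (Or.inl fun x w => hp.1 x w)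
  have hh := height_nonneg x
  change max B M ≤ hgt x at hxB
  change ∀ w : InfinitePlace K, normAtPlace w (mixedEmbedding K x - p) ≤
    Real.exp (-τ1 * hgt x) at hxw
  change cnd x ≤ z 0 * hgt x at ha
  change cnd x⁻¹ ≤ z 1 * hgt x at hb
  change cnd (x - 1) ≤ z 2 * hgt x at hc
  have h6 : (1 + τ1 - ε / 2) * hgt x < cond3 x := by
    by_contra hcon
    rw [not_lt] at hcon
    exact absurd (hM x ⟨hx0, hx1, hxw, hcon⟩) (not_lt.2 ((le_max_right _ _).trans hxB))
  unfold cond3 at h6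
  have h7 : (z 0 + z 1 + z 2 - ε) * hgt x ≤ (1 + τ1 - ε / 2) * hgt x :=
    mul_le_mul_of_nonneg_right (by linarith) hh
  have h8 : 0 ≤ ε * hgt x := mul_nonneg hε.le hh
  refine ⟨x, ⟨hx0, hx1, fun w => (hxw w).trans (Real.exp_le_exp.2 ?_)⟩, hxv, ⟨?_, ?_, ?_⟩,
    (le_max_left _ _).trans hxB⟩
  · nlinarith
  · rw [abs_le]
    constructor <;> nlinarith
  · rw [abs_le]
    constructor <;> nlinarith
  · rw [abs_le]
    constructor <;> nlinarith

/-- a point in the interior -/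
lemma bump (z : Fin 3 → ℝ) (hz1 : ∀ i, z i ≤ 1) (σ : ℝ) (hσ : 2 ≤ σ) (hσ3 : σ < 3)
    (hz : σ ≤ z 0 + z 1 + z 2) (ε : ℝ) (hε : 0 < ε) :
    ∃ z' : Fin 3 → ℝ, (∀ i, 0 < z' i) ∧ (∀ i, z' i ≤ 1) ∧ (∀ i, z i ≤ z' i) ∧
      (∀ i, z' i ≤ z i + ε) ∧ σ < z' 0 + z' 1 + z' 2 := by
  have h0 := hz1 0
  have h1 := hz1 1
  have h2 := hz1 2
  have hz0 : ∀ i, 0 ≤ z i := by
    intro i
    fin_cases i <;> simp only [Fin.zero_eta, Fin.mk_one, Fin.reduceFinMk] <;> linarith
  refine ⟨fun i => min 1 (z i + ε), fun i => lt_min one_pos (by linarith [hz0 i]),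
    fun i => min_le_left _ _, fun i => le_min (hz1 i) (by linarith), fun i => min_le_right _ _, ?_⟩
  simp only
  have a0 : z 0 ≤ min 1 (z 0 + ε) := le_min h0 (by linarith)
  have a1 : z 1 ≤ min 1 (z 1 + ε) := le_min h1 (by linarith)
  have a2 : z 2 ≤ min 1 (z 2 + ε) := le_min h2 (by linarith)
  rcases eq_or_lt_of_le h0 with b0 | b0
  · rcases eq_or_lt_of_le h1 with b1 | b1
    · rcases eq_or_lt_of_le h2 with b2 | b2
      · linarith
      · have := lt_min b2 (show z 2 < z 2 + ε by linarith)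
        linarith
    · have := lt_min b1 (show z 1 < z 1 + ε by linarith)
      linarith
  · have := lt_min b0 (show z 0 < z 0 + ε by linarith)
    linarith

lemma Ex.mono {z z' : Fin 3 → ℝ} {ε ε' : ℝ} {x : K} (h : Ex z' ε' x)
    (hz : ∀ i, |z' i - z i| ≤ ε - ε') : Ex z ε x := by
  have hh := height_nonneg x
  have key : ∀ (c : ℝ) (i : Fin 3), |c - z' i * hgt x| ≤ ε' * hgt x →
      |c - z i * hgt x| ≤ ε * hgt x := by
    intro c i hc
    have h1 : c - z i * hgt x = (c - z' i * hgt x) + (z' i - z i) * hgt x := by ring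
    rw [h1]
    refine (abs_add_le _ _).trans ?_
    rw [abs_mul, abs_of_nonneg hh]
    have h2 := mul_le_mul_of_nonneg_right (hz i) hh
    linarith
  exact ⟨key _ 0 h.1, key _ 1 h.2.1, key _ 2 h.2.2⟩

/-- numbers with nearly exact conductors near a good point: all `z` in the closed region -/
theorem exists_exact' {p : mixedSpace K} (hp : Gd p) (z : Fin 3 → ℝ)
    (hz1 : ∀ i, z i ≤ 1) (σ : ℝ) (hσ : 2 ≤ σ) (hσ3 : σ < 3) (hz : σ ≤ z 0 + z 1 + z 2) (τ : ℝ)
    (hτ : τ ≤ σ - 1) (ε : ℝ) (hε : 0 < ε) (y : K) (N : ℕ) (hN : 0 < N) (B : ℝ) :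
    ∃ x : K, Nr τ p x ∧ Cg N y x ∧ Ex z ε x ∧ B ≤ hgt x := by
  obtain ⟨z', h1, h2, h3, h4, h5⟩ := bump z hz1 σ hσ hσ3 hz (ε / 2) (by positivity)
  obtain ⟨x, a1, a2, a3, a4⟩ := exists_exact hp z' h1 h2 (by linarith) τ (by linarith)
    (ε / 2) (by positivity) y N hN B
  refine ⟨x, a1, a2, a3.mono fun i => ?_, a4⟩
  rw [abs_of_nonneg (by linarith [h3 i])]
  linarith [h4 i]

/-- the sum of the conductors from the triple -/
lemma Ex.cond3_le {z : Fin 3 → ℝ} {ε : ℝ} {x : K} (h : Ex z ε x) :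
    cond3 x ≤ (z 0 + z 1 + z 2 + 3 * ε) * hgt x := by
  unfold cond3
  have h0 := (abs_le.1 h.1).2
  have h1 := (abs_le.1 h.2.1).2
  have h2 := (abs_le.1 h.2.2).2
  linarith

end Pool.Agent.H65KF
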