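import Pool.Agent.H65KF.Fb

set_option autoImplicit false

/-!
Many numbers with prescribed conductors, at every scale: the parameters.
-/

namespace Pool.Agent.H65KF.CL

open NumberField IsDedekindDomain Finset Filter Topology
open Module (finrank)
open Pool.Agent.H34x.KF (height)

lemma exists_pow (b : ℕ) (hb : 2 ≤ b) (y : ℝ) (hy : 0 < y) : ∃ k : ℕ, 1 ≤ k ∧
    Real.exp y ≤ (b : ℝ) ^ k ∧ (b : ℝ) ^ k ≤ b * Real.exp y := by
  have hb0 : (0 : ℝ) < b := by exact_mod_cast (by omega : 0 < b)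
  have hl : 0 < Real.log b := Real.log_pos (by exact_mod_cast (by omega : 1 < b))
  have h1 : 0 < y / Real.log b := by positivity
  have h2 := Nat.le_ceil (y / Real.log b)
  have h3 := (Nat.ceil_lt_add_one h1.le).le
  have h4 : (b : ℝ) ^ ⌈y / Real.log b⌉₊ = Real.exp (⌈y / Real.log b⌉₊ * Real.log b) := by
    rw [← Real.rpow_natCast, Real.rpow_def_of_pos hb0, mul_comm]
  refine ⟨⌈y / Real.log b⌉₊, Nat.one_le_iff_ne_zero.2 (Nat.ceil_pos.2 h1).ne', ?_, ?_⟩
  · rw [h4]
    apply Real.exp_le_exp.2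
    rwa [div_le_iff₀ hl] at h2
  · rw [h4]
    have h5 : (b : ℝ) * Real.exp y = Real.exp (y + Real.log b) := by
      rw [Real.exp_add, Real.exp_log hb0, mul_comm]
    rw [h5]
    apply Real.exp_le_exp.2
    have h6 : (⌈y / Real.log b⌉₊ : ℝ) * Real.log b ≤ (y / Real.log b + 1) * Real.log b :=
      mul_le_mul_of_nonneg_right h3 hl.le
    have h7 : (y / Real.log b + 1) * Real.log b = y + Real.log b := by
      field_simp
    linarith

/-- a power eventually exceeds a constant -/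
lemma ev_pow (p c : ℝ) (hp : 0 < p) : ∀ᶠ B : ℝ in atTop, c ≤ B ^ p :=
  (tendsto_rpow_atTop hp).eventually_ge_atTop c

/-- many numbers at every scale -/
theorem scale (K : Type) [Field K] [NumberField K] (a b c ε : ℝ) (ha : 0 < a) (hb : 0 < b)
    (hc : 0 < c) (ha1 : a ≤ 1) (hb1 : b ≤ 1) (hc1 : c ≤ 1) (hac : 1 < a + c) (hε : 0 < ε) :
    ∃ B0 : ℝ, ∀ B : ℝ, B0 ≤ B → ∃ X : Finset K, (∀ x ∈ X, x ≠ 0 ∧ x ≠ 1 ∧
      Pool.Agent.H34x.KF.cond x ≤ a * height x ∧ Pool.Agent.H34x.KF.cond x⁻¹ ≤ b * height x ∧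
      Pool.Agent.H34x.KF.cond (x - 1) ≤ c * height x ∧ Real.exp (height x) ≤ B) ∧
      B ^ ((finrank ℚ K : ℝ) * (a + b + c - 1) - ε) ≤ X.card := by
  obtain ⟨d, hd⟩ : ∃ d : ℕ, d = finrank ℚ K := ⟨_, rfl⟩
  have hd0 : 0 < d := by rw [hd]; exact Module.finrank_pos
  have hd1 : (1 : ℝ) ≤ d := by exact_mod_cast hd0
  obtain ⟨q, hq⟩ : ∃ q : ℝ, q = (cc K : ℝ) := ⟨_, rfl⟩
  have hq1 : 1 ≤ q := by rw [hq]; exact_mod_cast cc_pos (K := K)
  have hq0 : 0 < q := by linarith
  -- the small parameter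
  obtain ⟨η, hη0, hη1, hη2⟩ : ∃ η : ℝ, 0 < η ∧ 8 * η ≤ a + c - 1 ∧ 14 * η * d ≤ ε := by
    refine ⟨min ((a + c - 1) / 8) (ε / (14 * d)), lt_min (by linarith) (by positivity), ?_, ?_⟩
    · have := min_le_left ((a + c - 1) / 8) (ε / (14 * (d : ℝ)))
      linarith
    · have := min_le_right ((a + c - 1) / 8) (ε / (14 * (d : ℝ)))
      rw [le_div_iff₀ (by positivity)] at this
      linarith
  have hη3 : η ≤ 1 / 8 := by linarith
  obtain ⟨C, hC1, hC⟩ := pairs K (δ := η / (2 * d)) (by positivity)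
  rw [← hd, ← hq] at hC
  obtain ⟨κ, hκ⟩ : ∃ κ : ℝ, κ = (1 - 2 * η) * a + (1 - 2 * η) * c - 1 := ⟨_, rfl⟩
  have hκ0 : 4 * η ≤ κ := by
    rw [hκ]
    nlinarith
  have hb' : 0 < (1 - 2 * η) * b := mul_pos (by linarith) hb
  have hηd : 0 < η / d := by positivity
  have hηd' : η / d ≤ η := div_le_self hη0.le hd1
  -- the conditions on `B`
  have e1 := eventually_gt_atTop (1 : ℝ)
  have e2 := ev_pow ((1 - 2 * η) * b) (186 * q) hb'
  have e3 := ev_pow κ (120 * q) (by linarith)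
  have e4 := ev_pow (η / d) (2 * q) hηd
  have e5 := ev_pow (κ - η / d) 60 (by linarith)
  have e6 := ev_pow (η / 2) (2 * (C * (4 * q) ^ d)) (by positivity)
  have e7 := Real.tendsto_log_atTop.eventually_ge_atTop
    ((8 + Real.log 7 + Real.log 2) / (η * min a (min b c)))
  have e8 := ev_pow (ε / 2) (2 * C * ((186 * q) * (60 * q)) ^ d) (by positivity)
  obtain ⟨B0, hB0⟩ := eventually_atTop.1
    (e1.and (e2.and (e3.and (e4.and (e5.and (e6.and (e7.and e8)))))))
  refine ⟨B0, fun B hB => ?_⟩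
  obtain ⟨f1, f2, f3, f4, f5, f6, f7, f8⟩ := hB0 B hB
  have hB0' : 0 < B := by linarith
  have hL : 0 < Real.log B := Real.log_pos f1
  have hexp : ∀ y : ℝ, Real.exp (y * Real.log B) = B ^ y := by
    intro y
    rw [Real.rpow_def_of_pos hB0', mul_comm]
  have hlt : ∀ y : ℝ, 0 < y → y ≤ 1 → 0 < (1 - (1 - 2 * η) * y) * Real.log B := by
    intro y hy hy1
    refine mul_pos ?_ hL
    nlinarith
  obtain ⟨k0, hk0, g1, g2⟩ := exists_pow 2 le_rfl _ (hlt a ha ha1)
  obtain ⟨k1, hk1, g3, g4⟩ := exists_pow 3 (by norm_num) _ (hlt b hb hb1)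
  obtain ⟨k2, hk2, g5, g6⟩ := exists_pow 5 (by norm_num) _ (hlt c hc hc1)
  push_cast at g1 g2 g3 g4 g5 g6
  -- the number `n`
  have h3k : (0 : ℝ) < 3 ^ k1 := by positivity
  have hn1 : B ^ ((1 - 2 * η) * b) ≤ 93 * q * (B / (3 ^ k1 * (31 * q))) := by
    rw [hexp] at g4
    have h1 : B ^ ((1 - 2 * η) * b) * 3 ^ k1 ≤ 3 * B := by
      calc B ^ ((1 - 2 * η) * b) * 3 ^ k1 ≤
          B ^ ((1 - 2 * η) * b) * (3 * B ^ (1 - (1 - 2 * η) * b)) := by gcongr
        _ = 3 * (B ^ ((1 - 2 * η) * b) * B ^ (1 - (1 - 2 * η) * b)) := by ring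
        _ = 3 * B := by
          rw [← Real.rpow_add hB0']
          have : (1 - 2 * η) * b + (1 - (1 - 2 * η) * b) = 1 := by ring
          rw [this, Real.rpow_one]
    have h2 : 93 * q * (B / (3 ^ k1 * (31 * q))) = 3 * B / 3 ^ k1 := by
      field_simp
      norm_num
    rw [h2, le_div_iff₀ h3k]
    exact h1
  obtain ⟨u, hu⟩ : ∃ u : ℝ, u = B / (3 ^ k1 * (31 * q)) := ⟨_, rfl⟩
  rw [← hu] at hn1
  have hu2 : 2 ≤ u := by
    have : 186 * q ≤ 93 * q * u := f2.trans hn1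
    nlinarith
  obtain ⟨n, hn⟩ : ∃ n : ℕ, n = ⌊u⌋₊ := ⟨_, rfl⟩
  have hnu : (n : ℝ) ≤ u := by rw [hn]; exact Nat.floor_le (by linarith)
  have hnu' : u < n + 1 := by rw [hn]; exact Nat.lt_floor_add_one u
  have hn0 : 0 < n := by
    have : (0 : ℝ) < n := by linarith
    exact_mod_cast this
  have hnhalf : u ≤ 2 * n := by linarith
  have hnB : 3 ^ k1 * (31 * q * n) ≤ B := by
    have h1 : 3 ^ k1 * (31 * q) * (n : ℝ) ≤ 3 ^ k1 * (31 * q) * u :=
      mul_le_mul_of_nonneg_left hnu (by positivity)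
    have h2 : 3 ^ k1 * (31 * q) * u = B := by
      rw [hu]
      field_simp
    rw [h2] at h1
    linarith
  have hnB' : B / 7 ≤ 3 ^ k1 * (10 * q * n) := by
    have h2 : 3 ^ k1 * (31 * q) * u = B := by
      rw [hu]
      field_simp
    have h3 : 3 ^ k1 * (31 * q) * u ≤ 3 ^ k1 * (31 * q) * (2 * n) :=
      mul_le_mul_of_nonneg_left hnhalf (by positivity)
    have h4 : (0 : ℝ) ≤ 3 ^ k1 * (q * n) := by positivity
    linarith
  -- the number `n'`
  have hMM : (MM k0 k2 : ℝ) = 3 * 2 ^ k0 * 5 ^ k2 := by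
    unfold MM
    push_cast
    ring
  have hMM0 : (0 : ℝ) < MM k0 k2 := by exact_mod_cast MM_pos k0 k2
  have hn2 : B ^ κ ≤ 30 * q * (B / (q * MM k0 k2)) := by
    rw [hexp] at g2 g6
    have h1 : B ^ κ * MM k0 k2 ≤ 30 * B := by
      calc B ^ κ * MM k0 k2 = B ^ κ * (3 * 2 ^ k0 * 5 ^ k2) := by rw [hMM]
        _ ≤ B ^ κ * (3 * (2 * B ^ (1 - (1 - 2 * η) * a)) * (5 * B ^ (1 - (1 - 2 * η) * c))) := by
          gcongr
        _ = 30 * (B ^ κ * (B ^ (1 - (1 - 2 * η) * a) * B ^ (1 - (1 - 2 * η) * c))) := by ring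
        _ = 30 * B := by
          rw [← Real.rpow_add hB0', ← Real.rpow_add hB0']
          have : κ + (1 - (1 - 2 * η) * a + (1 - (1 - 2 * η) * c)) = 1 := by rw [hκ]; ring
          rw [this, Real.rpow_one]
    have h2 : 30 * q * (B / (q * MM k0 k2)) = 30 * B / MM k0 k2 := by
      field_simp
    rw [h2, le_div_iff₀ hMM0]
    exact h1
  obtain ⟨v, hv⟩ : ∃ v : ℝ, v = B / (q * MM k0 k2) := ⟨_, rfl⟩
  rw [← hv] at hn2
  have hv4 : 4 ≤ v := by
    have : 120 * q ≤ 30 * q * v := f3.trans hn2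
    nlinarith
  obtain ⟨n', hn'⟩ : ∃ n' : ℕ, n' = ⌊v - 1⌋₊ := ⟨_, rfl⟩
  have hnv : (n' : ℝ) ≤ v - 1 := by rw [hn']; exact Nat.floor_le (by linarith)
  have hnv' : v - 1 < n' + 1 := by rw [hn']; exact Nat.lt_floor_add_one _
  have hnvhalf : v ≤ 2 * n' := by linarith
  have hn'1 : (1 : ℝ) ≤ n' := by linarith
  have hnM : q * MM k0 k2 * (n' + 1) ≤ B := by
    have h1 : q * MM k0 k2 * ((n' : ℝ) + 1) ≤ q * MM k0 k2 * v :=
      mul_le_mul_of_nonneg_left (by linarith) (by positivity)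
    have h2 : q * MM k0 k2 * v = B := by
      rw [hv]
      field_simp
    linarith
  have hn'κ : B ^ κ ≤ 60 * q * n' := by
    refine hn2.trans ?_
    have h1 : 30 * q * v ≤ 30 * q * (2 * n') := mul_le_mul_of_nonneg_left hnvhalf (by positivity)
    linarith
  -- the number `r`
  obtain ⟨y, hy⟩ : ∃ y : ℝ, y = B ^ (η / d) / q := ⟨_, rfl⟩
  have hy2 : 2 ≤ y := by
    rw [hy, le_div_iff₀ hq0]
    exact f4
  obtain ⟨r, hr⟩ : ∃ r : ℕ, r = ⌊y⌋₊ := ⟨_, rfl⟩
  have hry : (r : ℝ) ≤ y := by rw [hr]; exact Nat.floor_le (by linarith)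
  have hry' : y < r + 1 := by rw [hr]; exact Nat.lt_floor_add_one y
  have hr0 : 0 < r := by
    have : (0 : ℝ) < r := by linarith
    exact_mod_cast this
  have hrR : (0 : ℝ) < r := by exact_mod_cast hr0
  have hyr : y ≤ 2 * r := by linarith
  have hpow : (B ^ (η / d)) ^ d = B ^ η := by
    rw [← Real.rpow_natCast, ← Real.rpow_mul hB0'.le]
    congr 1
    field_simp
  have hrG : (q * r) ^ d ≤ B ^ η := by
    rw [← hpow]
    refine pow_le_pow_left₀ (by positivity) ?_ _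
    have h1 : q * (r : ℝ) ≤ q * y := mul_le_mul_of_nonneg_left hry hq0.le
    have h2 : q * y = B ^ (η / d) := by
      rw [hy]
      field_simp
    linarith
  have hrn : (r : ℝ) ≤ n' := by
    have h1 : 60 * B ^ (η / d) ≤ B ^ κ := by
      calc 60 * B ^ (η / d) ≤ B ^ (κ - η / d) * B ^ (η / d) := by gcongr
        _ = B ^ κ := by
          rw [← Real.rpow_add hB0']
          congr 1
          ring
    have h2 : q * y = B ^ (η / d) := by
      rw [hy]
      field_simp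
    have h3 : 60 * (q * y) ≤ 60 * q * n' := by
      rw [h2]
      exact h1.trans hn'κ
    have h4 : y ≤ n' := by
      have : 60 * q * y ≤ 60 * q * n' := by linarith
      exact le_of_mul_le_mul_left this (by positivity)
    linarith
  have hmain : C * B ^ ((d : ℝ) * (η / (2 * d))) * ((n' : ℝ) / r + 1) ^ d ≤
      (n' : ℝ) ^ d / 2 := by
    have h1 : (n' : ℝ) / r + 1 ≤ n' * (4 * q / B ^ (η / d)) := by
      have h2 : (1 : ℝ) ≤ n' / r := by rw [one_le_div hrR]; exact hrn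
      have h3 : (n' : ℝ) / r + 1 ≤ n' * (2 / r) := by
        have : (n' : ℝ) * (2 / r) = 2 * (n' / r) := by ring
        rw [this]
        linarith
      refine h3.trans (mul_le_mul_of_nonneg_left ?_ (Nat.cast_nonneg _))
      have hBp : 0 < B ^ (η / d) := Real.rpow_pos_of_pos hB0' _
      rw [div_le_div_iff₀ hrR hBp]
      have h4 : q * y = B ^ (η / d) := by
        rw [hy]
        field_simp
      have h5 : q * y ≤ q * (2 * r) := mul_le_mul_of_nonneg_left hyr hq0.le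
      linarith
    have h2 : ((n' : ℝ) / r + 1) ^ d ≤ (n' : ℝ) ^ d * ((4 * q) ^ d / B ^ η) := by
      refine (pow_le_pow_left₀ (by positivity) h1 _).trans (le_of_eq ?_)
      rw [mul_pow, div_pow, hpow]
    have h3 : (d : ℝ) * (η / (2 * d)) = η / 2 := by
      field_simp
    rw [h3]
    have h4 : B ^ η = B ^ (η / 2) * B ^ (η / 2) := by
      rw [← Real.rpow_add hB0', add_halves]
    have hBp : 0 < B ^ (η / 2) := Real.rpow_pos_of_pos hB0' _
    have hC0 : 0 < C := by linarith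
    calc C * B ^ (η / 2) * ((n' : ℝ) / r + 1) ^ d ≤
        C * B ^ (η / 2) * ((n' : ℝ) ^ d * ((4 * q) ^ d / B ^ η)) := by gcongr
      _ = (n' : ℝ) ^ d * (C * (4 * q) ^ d / B ^ (η / 2)) := by
        rw [h4]
        field_simp
      _ ≤ (n' : ℝ) ^ d * (1 / 2) := by
        refine mul_le_mul_of_nonneg_left ?_ (by positivity)
        rw [div_le_iff₀ hBp]
        linarith
      _ = _ := by ring
  obtain ⟨X, hX, hX2⟩ := hC k0 k1 k2 n n' r B (B ^ η) ((1 - 2 * η) * a) ((1 - 2 * η) * b)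
    ((1 - 2 * η) * c) hn0 hr0 hk0 (Real.one_le_rpow f1.le hη0.le) f1.le hrG hnB hnM g1 g3 g5 hmain
  refine ⟨X, fun x hx => ?_, ?_⟩
  · obtain ⟨x0, x1, xh, xl, xa, xb, xc⟩ := hX x hx
    have hlow : (1 - η) * Real.log B - Real.log 7 ≤ height x := by
      have h1 : Real.log (B / 7) ≤ Real.log (3 ^ k1 * (10 * q * n)) :=
        Real.log_le_log (by positivity) hnB'
      rw [Real.log_div hB0'.ne' (by norm_num)] at h1
      rw [Real.log_rpow hB0'] at xl
      have h2 : η * Real.log B / d ≤ η * Real.log B := div_le_self (by positivity) hd1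
      linarith
    have hm0 : 0 < min a (min b c) := lt_min ha (lt_min hb hc)
    rw [div_le_iff₀ (by positivity)] at f7
    have hl7 : 0 < Real.log 7 := Real.log_pos (by norm_num)
    have hl2 : 0 < Real.log 2 := Real.log_pos (by norm_num)
    have key : ∀ (y z w : ℝ), 0 < y → y ≤ 1 → min a (min b c) ≤ y → w ≤ 8 + Real.log 2 →
        z ≤ (1 - 2 * η) * y * Real.log B + w → z ≤ y * height x := by
      intro y z w hy hy1 hmy hw hz
      have h1 : 8 + Real.log 7 + Real.log 2 ≤ Real.log B * (η * y) :=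
        f7.trans (mul_le_mul_of_nonneg_left (mul_le_mul_of_nonneg_left hmy hη0.le) hL.le)
      have h2 : y * ((1 - η) * Real.log B - Real.log 7) ≤ y * height x :=
        mul_le_mul_of_nonneg_left hlow hy.le
      have h3 : y * Real.log 7 ≤ Real.log 7 := mul_le_of_le_one_left hl7.le hy1
      have h4 : y * ((1 - η) * Real.log B - Real.log 7) =
          (1 - 2 * η) * y * Real.log B + Real.log B * (η * y) - y * Real.log 7 := by ring
      rw [h4] at h2
      linarith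
    refine ⟨x0, x1, key a _ 2 ha ha1 (min_le_left _ _) (by linarith) xa,
      key b _ 3 hb hb1 ((min_le_right _ _).trans (min_le_left _ _)) (by linarith) xb,
      key c _ _ hc hc1 ((min_le_right _ _).trans (min_le_right _ _)) (by linarith) xc, ?_⟩
    calc Real.exp (height x) ≤ Real.exp (Real.log B) := Real.exp_le_exp.2 xh
      _ = B := Real.exp_log hB0'
  · have hC0 : 0 < C := by linarith
    have h1 : (B ^ ((1 - 2 * η) * b)) ^ d ≤ (186 * q) ^ d * (n : ℝ) ^ d := by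
      rw [← mul_pow]
      refine pow_le_pow_left₀ (by positivity) (hn1.trans ?_) _
      have h2 : 93 * q * u ≤ 93 * q * (2 * n) := mul_le_mul_of_nonneg_left hnhalf (by positivity)
      linarith
    have h2 : (B ^ κ) ^ d ≤ (60 * q) ^ d * (n' : ℝ) ^ d := by
      rw [← mul_pow]
      exact pow_le_pow_left₀ (by positivity) hn'κ _
    have h3 : (B ^ ((1 - 2 * η) * b)) ^ d * (B ^ κ) ^ d ≤
        ((186 * q) * (60 * q)) ^ d * (2 * (C * (B ^ η) ^ d * X.card)) := by
      calc (B ^ ((1 - 2 * η) * b)) ^ d * (B ^ κ) ^ d ≤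
          ((186 * q) ^ d * (n : ℝ) ^ d) * ((60 * q) ^ d * (n' : ℝ) ^ d) := by gcongr
        _ = ((186 * q) * (60 * q)) ^ d * ((n : ℝ) ^ d * (n' : ℝ) ^ d) := by
          rw [mul_pow (186 * q)]
          ring
        _ ≤ _ := by
          refine mul_le_mul_of_nonneg_left ?_ (by positivity)
          linarith
    have hpw : ∀ z : ℝ, (B ^ z) ^ d = B ^ (z * d) := by
      intro z
      rw [← Real.rpow_natCast, ← Real.rpow_mul hB0'.le]
    rw [hpw, hpw, hpw, ← Real.rpow_add hB0'] at h3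
    have h4 : B ^ ((d : ℝ) * (a + b + c - 1) - ε) * B ^ (ε / 2) * B ^ (η * d) ≤
        B ^ ((1 - 2 * η) * b * d + κ * d) := by
      rw [← Real.rpow_add hB0', ← Real.rpow_add hB0']
      refine Real.rpow_le_rpow_of_exponent_le f1.le ?_
      have h5 : (1 - 2 * η) * b * d + κ * d = (d : ℝ) * (a + b + c - 1) -
          2 * η * d * (a + b + c) := by
        rw [hκ]
        ring
      rw [h5]
      have h6 : 2 * η * d * (a + b + c) ≤ 2 * η * d * 3 :=
        mul_le_mul_of_nonneg_left (by linarith) (by positivity)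
      linarith
    have hp1 : 0 < B ^ ((d : ℝ) * (a + b + c - 1) - ε) := Real.rpow_pos_of_pos hB0' _
    have hp2 : 0 < B ^ (η * d) := Real.rpow_pos_of_pos hB0' _
    have h5 : B ^ ((d : ℝ) * (a + b + c - 1) - ε) *
        (2 * C * ((186 * q) * (60 * q)) ^ d) * B ^ (η * d) ≤
        X.card * (2 * C * ((186 * q) * (60 * q)) ^ d) * B ^ (η * d) := by
      calc B ^ ((d : ℝ) * (a + b + c - 1) - ε) *
          (2 * C * ((186 * q) * (60 * q)) ^ d) * B ^ (η * d) ≤
          B ^ ((d : ℝ) * (a + b + c - 1) - ε) * B ^ (ε / 2) * B ^ (η * d) := by gcongr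
        _ ≤ _ := h4
        _ ≤ _ := h3
        _ = _ := by ring
    have h6 := le_of_mul_le_mul_right h5 hp2
    have h7 := le_of_mul_le_mul_right h6 (by positivity)
    rw [← hd]
    exact h7

end Pool.Agent.H65KF.CL
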