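import Pool.Agent.H438R2.Nest

/-!
# Project KF (helper65): mass transference principle in finite dimensional normed spaces

Goal (hard problem MP_f5a5f7_nt): exact Hausdorff dimension of the points of `K_∞` near which the weak abc inequality
over a number field fails with given exponents.  The missing tool is the mass transference principle of Beresnevich
and Velani for balls, in dimension `k`, with countably many conditions at once (for `k = 1` it is
`Pool.Agent.R485.RG.dimI`, file R485/RG/Mtp.lean).  Three pieces.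
-/

set_option autoImplicit false

namespace Pool.Agent.H65KF

open Finset Filter Topology MeasureTheory Metric
open scoped ENNReal

/-- PIECE NESTW (nested balls with weights): `theorem nestw : S_NESTW` in `Pool/Agent/H65KF/Nestw.lean`.

Proof: copy of the proof of `Pool.Agent.H438R2.nest` (H438R2/Nest.lean, 180 lines), with the number of children
replaced by the sum of their weights.  From `μH[s] A = 0` one gets (`exists_radii`) a cover `t i` of `A` with radii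
`u i`, `∑ (u i)^s ≤ κ R0^s`.  Put `W (y, r) = ∑ (u i)^s`, the sum over all `i` with `t i ∩ closedBall y r ≠ ∅`.
Invariant: `W (y, r) ≤ κ r^s` (so `u i ≤ r` for all these `i`, as `κ ≤ 1`).  Step `k`: take `δ ≤ u 0, …, u k` and
`F`, `q`, `m` for `(x, R)`, `j = k`, `δ`.  Some `y ∈ F` satisfies `W (y, q y) ≤ κ (q y)^s` and
`u i < q y` for all `i` with `t i ∩ closedBall y (q y) ≠ ∅` (so none of `t 0, …, t k` meets the child ball): otherwise
for every `y ∈ F` the sum over the `i` with `t i ∩ closedBall y (q y) ≠ ∅` of `w i y` is `≥ 1`, where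
`w i y = 1` if `q y ≤ u i` and `(u i)^s / (κ (q y)^s)` if `u i < q y`.  Multiply by `m y` and sum over `y`:
`1 ≤ ∑ m y ≤ ∑_i ∑_{y ∈ G i} m y * w i y`, `G i` = the `y ∈ F` with `t i ∩ closedBall y (q y) ≠ ∅`.  If some
`y ∈ G i` has `u i < q y` then `G i = {y}` and the inner sum is
`m y (u i)^s / (κ (q y)^s) ≤ (u i)^s / (4 κ R^s)`; otherwise it is `∑_{G i} m y ≤ (u i / R)^s / (4 κ)`.  So the
double sum is `≤ W (x, R) / (4 κ R^s) ≤ 1/4`, a contradiction.  The centres of the nested balls have a common point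
in `A`, which lies in no `t i`. -/
def S_NESTW : Prop :=
  ∀ (X : Type) [MetricSpace X] [ProperSpace X] [MeasurableSpace X] [BorelSpace X] (s κ : ℝ),
    0 < s → 0 < κ → κ ≤ 1 → ∀ (V : ℕ → Set X),
    (∀ (x : X) (R : ℝ) (j : ℕ) (δ : ℝ), 0 < R → 0 < δ → ∃ (F : Finset X) (q m : X → ℝ),
      (∀ y ∈ F, 0 < q y ∧ q y ≤ δ ∧ closedBall y (q y) ⊆ closedBall x R ∧ closedBall y (q y) ⊆ V j ∧
        0 ≤ m y ∧ m y ≤ 1 / 4 * (q y / R) ^ s) ∧
      1 ≤ ∑ y ∈ F, m y ∧
      ∀ (U : Set X) (u : ℝ), 0 < u → (∀ y ∈ U, ∀ z ∈ U, dist y z ≤ u) →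
        ∀ G : Finset X, G ⊆ F → (∀ y ∈ G, (U ∩ closedBall y (q y)).Nonempty) →
          ((∃ y ∈ G, u < q y) → G.card ≤ 1) ∧
          ((∀ y ∈ G, q y ≤ u) → u ≤ R → ∑ y ∈ G, m y ≤ 1 / (4 * κ) * (u / R) ^ s)) →
    ∀ (x : X) (R : ℝ), 0 < R → μH[s] ({y | ∀ j, y ∈ V j} ∩ closedBall x R) ≠ 0

/-- PIECE VOL (finite disjoint families of large total volume): `theorem vol : S_VOL` in
`Pool/Agent/H65KF/Vol.lean`.

Proof.  We may increase `J` so that `ρ j ≤ R / 16` for `j ≥ J`.  Let `T` be the set of the pairs `(c, j)` with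
`j ≥ J`, `c ∈ C j` and `closedBall c (ρ j) ∩ closedBall x0 (R / 2) ≠ ∅`.  By hypothesis the balls
`closedBall c (ρ j)`, `(c, j) ∈ T`, cover almost all of `closedBall x0 (R / 2)`.  By
`Vitali.exists_disjoint_subfamily_covering_enlargement_closedBall` (`τ = 5`) there is `u ⊆ T` with pairwise disjoint
balls such that every ball of `T` is contained in `closedBall c (5 ρ j)` for some `(c, j) ∈ u`; `u` is countable
(disjoint balls of positive radius in a separable space, `Set.PairwiseDisjoint.countable_of_nonempty_interior` or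
`…countable_of_isOpen` for the open balls).  With `μ (closedBall c r) = r ^ k * μ (closedBall 0 1)` (`Measure.addHaar_closedBall`),
`(R / 2) ^ k ≤ ∑' (5 ρ j) ^ k` (in `ENNReal`), so some finite part `F` of `u` has
`∑ (ρ j) ^ k ≥ (R / 2) ^ k / (2 * 5 ^ k)` (`k = finrank`, also for `k = 0`).  All balls of `F` are contained in
`closedBall x0 (R / 2 + 2 R / 16)`. -/
def S_VOL : Prop :=
  ∀ (E : Type) [NormedAddCommGroup E] [NormedSpace ℝ E] [FiniteDimensional ℝ E] [MeasurableSpace E]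
    [BorelSpace E] (μ : Measure E) [μ.IsAddHaarMeasure] (C : ℕ → Set E) (ρ : ℕ → ℝ),
    (∀ j, 0 < ρ j) → Tendsto ρ atTop (𝓝 0) → (∀ᵐ x ∂μ, ∃ᶠ j in atTop, ∃ c ∈ C j, dist x c ≤ ρ j) →
    ∀ (x0 : E) (R : ℝ) (J : ℕ), 0 < R → ∃ F : Finset (E × ℕ),
      (∀ a ∈ F, J ≤ a.2 ∧ a.1 ∈ C a.2 ∧ closedBall a.1 (ρ a.2) ⊆ closedBall x0 R) ∧
      (∀ a ∈ F, ∀ b ∈ F, a ≠ b → Disjoint (closedBall a.1 (ρ a.2)) (closedBall b.1 (ρ b.2))) ∧
      R ^ Module.finrank ℝ E ≤ 2 * 10 ^ Module.finrank ℝ E * ∑ a ∈ F, (ρ a.2) ^ Module.finrank ℝ E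

/-- PIECE MTP (mass transference principle): `theorem mtp (h1 : S_NESTW) (h2 : S_VOL) : S_MTP` in
`Pool/Agent/H65KF/Mtp.lean`.

Proof.  `k` = dimension, `θ = 1 / (2 * 10 ^ k)`.  It is enough to show `ofReal s' ≤ dimH` for all `0 < s' < s`
(`le_of_forall_lt`-type argument).  Use NESTW with `s'`, `κ = θ / (4 * 3 ^ k)`, and `V n` = the set of the `y` such that
`dist y c ≤ (ρ i j) ^ (k / s)` for some `j ≥ J`, `c ∈ C i j`, where `(i, J) = Nat.unpair n`; then
`le_dimH_of_hausdorffMeasure_ne_zero` (as at the end of `Pool.Agent.H65NT.low`, file H65NT/Low.lean).  Step: given `x`, `R`, `n`,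
`δ`, take `J' ≥ J` such that for `j ≥ J'`, with `ρ = ρ i j` and `q = ρ ^ (k / s)`: `q ≤ δ`, `q ≤ ρ / 8` if `s < k`
(for `s = k` we have `q = ρ`: take `q = ρ / 8` everywhere instead, that is `q = min (ρ ^ (k / s)) (ρ / 8)`, which is
`≥ ρ ^ (k / s) / 8` for small `ρ`), and `8 ^ k * q ^ (s - s') ≤ θ R ^ (k - s') / 4` (as `ρ → 0`); then `F'` from VOL for `C i`,
`ρ i`, `x`, `R`, `J'`.  Children: the centres `a.1`, `a ∈ F'` (distinct, as the balls are disjoint), with radius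
`q a` and weight `m a = ρ_a ^ k / ∑ ρ_b ^ k`; `∑ m = 1`.  As `ρ_a ^ k ≤ (8 q_a) ^ s ≤ 8 ^ k q_a ^ s` and
`∑ ρ_b ^ k ≥ θ R ^ k`, `m a ≤ 8 ^ k q_a ^ s / (θ R ^ k) ≤ (1/4) (q_a / R) ^ s'`.  Two children have distance
`> max (ρ_a, ρ_b)` of the centres, so points of their balls have distance `> (3/4) max (ρ_a, ρ_b) > max (q_a, q_b)`.
Let `U` have diameter `≤ u` and meet the balls of the children in `G`.  If `u < q_y` for some `y ∈ G`
then `G = {y}`.  Let `q_y ≤ u ≤ R` for all `y ∈ G`.  If `G` has one element, `m y ≤ (1/4) (q_y / R) ^ s' ≤ (1 / (4 κ)) (u / R) ^ s'`.  If it has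
more, then `(3/4) ρ_a ≤ u` for all `a` in `G`, and all the disjoint balls `closedBall a ρ_a` are contained in the ball of
radius `3 u` around a point of `U`, so `∑_G ρ_a ^ k ≤ (3 u) ^ k` (volumes) and
`∑_G m ≤ (3 u) ^ k / (θ R ^ k) ≤ (1 / (4 κ)) (u / R) ^ k ≤ (1 / (4 κ)) (u / R) ^ s'`. -/
def S_MTP : Prop :=
  ∀ (E : Type) [NormedAddCommGroup E] [NormedSpace ℝ E] [FiniteDimensional ℝ E] [MeasurableSpace E]
    [BorelSpace E] (μ : Measure E) [μ.IsAddHaarMeasure] (s : ℝ), 0 < s → s ≤ Module.finrank ℝ E →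
    ∀ (C : ℕ → ℕ → Set E) (ρ : ℕ → ℕ → ℝ), (∀ i j, 0 < ρ i j) → (∀ i, Tendsto (ρ i) atTop (𝓝 0)) →
    (∀ i, ∀ᵐ x ∂μ, ∃ᶠ j in atTop, ∃ c ∈ C i j, dist x c ≤ ρ i j) →
    ENNReal.ofReal s ≤ dimH {x : E | ∀ i, ∃ᶠ j in atTop, ∃ c ∈ C i j,
      dist x c ≤ (ρ i j) ^ ((Module.finrank ℝ E : ℝ) / s)}

end Pool.Agent.H65KF
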