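import Pool.Agent.H65KF.Sc
import Pool.Agent.H65KF.Ae

set_option autoImplicit false

/-!
Many numbers with prescribed conductors, at every scale: the final count.
-/

namespace Pool.Agent.H65KF

open NumberField IsDedekindDomain Finset Filter Topology
open Pool.Agent.H691R3 Pool.Agent.W223.AK

variable {K : Type} [Field K] [NumberField K]

lemma hgt_eq (x : K) : hgt x = Pool.Agent.H34x.KF.height x := rfl

lemma cnd_eq (x : K) : cnd x = Pool.Agent.H34x.KF.cond x := rfl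

lemma hgt_inv (x : K) : hgt x⁻¹ = hgt x := by
  have hd : (Module.finrank ℚ K : ℝ) ≠ 0 := by
    have : (0 : ℝ) < Module.finrank ℚ K := by exact_mod_cast Module.finrank_pos
    exact this.ne'
  apply mul_left_cancel₀ hd
  rw [hgt_eq, hgt_eq, Pool.Agent.H34x.KF.height_eq, Pool.Agent.H34x.KF.height_eq,
    Height.logHeight₁_inv]

lemma lt_one_inv {x : K} (hx : x ≠ 0) (v : Pr K) (h : fv v (x - 1) < 1) :
    fv v (x⁻¹ - 1) < 1 := by
  have h1 : fv v x = 1 := by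
    have h2 := fv_na v (x - 1) 1
    rw [sub_add_cancel, map_one] at h2
    have h3 := fv_na v (-(x - 1)) x
    have h4 : -(x - 1) + x = 1 := by ring
    rw [h4, map_one, AbsoluteValue.map_neg] at h3
    rcases le_max_iff.1 h3 with h5 | h5
    · exact absurd h (not_lt.2 h5)
    · refine le_antisymm (h2.trans ?_) h5
      exact max_le h.le le_rfl
  have h2 : x⁻¹ - 1 = -(x - 1) * x⁻¹ := by
    field_simp
    ring
  rw [h2, map_mul, AbsoluteValue.map_neg, map_inv₀, h1, inv_one, mul_one]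
  exact h

lemma cnd_inv_sub {x : K} (hx : x ≠ 0) : cnd (x⁻¹ - 1) = cnd (x - 1) := by
  unfold cnd Pool.Agent.W17.WK.cond
  congr 1
  refine finsum_congr fun v => ?_
  have h : FinitePlace.mk v (x⁻¹ - 1) < 1 ↔ FinitePlace.mk v (x - 1) < 1 := by
    constructor
    · intro h
      have := lt_one_inv (inv_ne_zero hx) v h
      rwa [inv_inv] at this
    · exact fun h => lt_one_inv hx v h
  by_cases h1 : FinitePlace.mk v (x - 1) < 1
  · rw [if_pos h1, if_pos (h.2 h1)]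
  · rw [if_neg h1, if_neg (fun h2 => h1 (h.1 h2))]

/-- the lower bound for the count at every scale -/
theorem count_lower (a b c ε : ℝ) (ha : 0 < a) (hb : 0 < b) (hc : 0 < c) (ha1 : a ≤ 1)
    (hb1 : b ≤ 1) (hc1 : c ≤ 1) (hs : 2 ≤ a + b + c) (hε : 0 < ε) :
    ∃ B0 : ℝ, ∀ B : ℝ, B0 ≤ B → B ^ ((Module.finrank ℚ K : ℝ) * (a + b + c - 1) - ε) ≤
    (({x : K | (x ≠ 0 ∧ x ≠ 1 ∧ cnd x ≤ a * hgt x ∧ cnd x⁻¹ ≤ b * hgt x ∧
      cnd (x - 1) ≤ c * hgt x) ∧ Real.exp (hgt x) ≤ B}.ncard : ℕ) : ℝ) := by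
  classical
  have hfin : ∀ B : ℝ, 1 ≤ B → {x : K | (x ≠ 0 ∧ x ≠ 1 ∧ cnd x ≤ a * hgt x ∧
      cnd x⁻¹ ≤ b * hgt x ∧ cnd (x - 1) ≤ c * hgt x) ∧ Real.exp (hgt x) ≤ B}.Finite := by
    obtain ⟨C', hC'⟩ := count (K := K) 3 (by norm_num) 1 one_pos
    intro B hB
    refine (hC' B hB).1.subset ?_
    rintro x ⟨⟨h3, h4, h5, h6, h7⟩, h8⟩
    refine ⟨⟨h3, h4, ?_⟩, h8⟩
    have hh := height_nonneg x
    have h9 := mul_le_mul_of_nonneg_right ha1 hh
    have h10 := mul_le_mul_of_nonneg_right hb1 hh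
    have h11 := mul_le_mul_of_nonneg_right hc1 hh
    unfold cond3
    linarith
  have fin : ∀ (B0 : ℝ), (∀ B : ℝ, B0 ≤ B → ∃ X : Finset K, (∀ x ∈ X, x ≠ 0 ∧ x ≠ 1 ∧
      cnd x ≤ a * hgt x ∧ cnd x⁻¹ ≤ b * hgt x ∧ cnd (x - 1) ≤ c * hgt x ∧
      Real.exp (hgt x) ≤ B) ∧
      B ^ ((Module.finrank ℚ K : ℝ) * (a + b + c - 1) - ε) ≤ X.card) →
      ∃ B0 : ℝ, ∀ B : ℝ, B0 ≤ B → B ^ ((Module.finrank ℚ K : ℝ) * (a + b + c - 1) - ε) ≤
      (({x : K | (x ≠ 0 ∧ x ≠ 1 ∧ cnd x ≤ a * hgt x ∧ cnd x⁻¹ ≤ b * hgt x ∧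
        cnd (x - 1) ≤ c * hgt x) ∧ Real.exp (hgt x) ≤ B}.ncard : ℕ) : ℝ) := by
    intro B0 h
    refine ⟨max B0 1, fun B hB => ?_⟩
    obtain ⟨X, hX, hX2⟩ := h B ((le_max_left _ _).trans hB)
    refine hX2.trans ?_
    rw [← Set.ncard_coe_finset]
    refine Nat.cast_le.2 (Set.ncard_le_ncard ?_ (hfin B ((le_max_right _ _).trans hB)))
    intro x hx
    obtain ⟨x0, x1, xa, xb, xc, xh⟩ := hX x hx
    exact ⟨⟨x0, x1, xa, xb, xc⟩, xh⟩
  by_cases hac : 1 < a + c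
  · obtain ⟨B0, hB0⟩ := CL.scale K a b c ε ha hb hc ha1 hb1 hc1 hac hε
    exact fin B0 hB0
  · have hbc : 1 < b + c := by linarith
    obtain ⟨B0, hB0⟩ := CL.scale K b a c ε hb ha hc hb1 ha1 hc1 hbc hε
    refine fin B0 fun B hB => ?_
    obtain ⟨X, hX, hX2⟩ := hB0 B hB
    refine ⟨X.image fun x => x⁻¹, ?_, ?_⟩
    · intro x hx
      obtain ⟨y, hy, rfl⟩ := Finset.mem_image.1 hx
      obtain ⟨y0, y1, ya, yb, yc, yh⟩ := hX y hy
      rw [← cnd_eq, ← hgt_eq] at ya yb yc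
      rw [← hgt_eq] at yh
      refine ⟨inv_ne_zero y0, fun h => y1 (by rw [← inv_inv y, h, inv_one]), ?_, ?_, ?_, ?_⟩
      · rw [hgt_inv]
        exact yb
      · rw [hgt_inv, inv_inv]
        exact ya
      · rw [hgt_inv, cnd_inv_sub y0]
        exact yc
      · rw [hgt_inv]
        exact yh
    · rw [Finset.card_image_of_injective _ inv_injective]
      have e : b + a + c = a + b + c := by ring
      rw [e] at hX2
      exact hX2

end Pool.Agent.H65KF
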