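import Pool.Agent.H65KF.Mf

set_option autoImplicit false

/-!
The set of the points near which the inequality with a constant `κ < 1` fails.
-/

namespace Pool.Agent.H65KF

open NumberField NumberField.mixedEmbedding MeasureTheory Filter Topology Metric IsDedekindDomain
open scoped ENNReal Classical

variable {K : Type} [Field K] [NumberField K]

/-- the points near which the inequality fails have positive Hausdorff measure -/
theorem vio_pos (σ κ t s : ℝ) (hσ : 1 < σ) (hσ3 : σ ≤ 3) (hκ0 : 0 < κ) (hκ : σ < 1 / κ)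
    (ht : 0 < t) (hs0 : 0 < s) (hs : s < Module.finrank ℚ K)
    (hst : s * t < Module.finrank ℚ K * (σ - 1)) (y : K) (N : ℕ) (hN : 0 < N)
    (x0 : mixedSpace K) (R0 : ℝ) (hR0 : 0 < R0) :
    μH[s] ({p : mixedSpace K | Vio κ t N y p} ∩ closedBall x0 R0) ≠ 0 := by
  have hd : (0 : ℝ) < Module.finrank ℚ K := by exact_mod_cast Module.finrank_pos
  obtain ⟨τ, h6, h7⟩ := exists_between (show s * t / Module.finrank ℚ K < σ - 1 from
    (div_lt_iff₀ hd).2 (by linarith))
  have hτ0 : 0 < τ := lt_trans (by positivity) h6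
  obtain ⟨S, h8, h9⟩ := exists_between (show s < min (Module.finrank ℚ K : ℝ)
    (Module.finrank ℚ K * τ / t) from lt_min hs (by
      rw [lt_div_iff₀ ht]
      rw [div_lt_iff₀ hd] at h6
      linarith))
  have hS0 : 0 < S := hs0.trans h8
  have h10 := h9.trans_le (min_le_right _ _)
  rw [lt_div_iff₀ ht] at h10
  obtain ⟨C, hC⟩ : ∃ C : ℕ → ℕ → Set (mixedSpace K), C = fun (_ j : ℕ) => {q | ∃ x : K,
      q = mixedEmbedding K x ∧ x ≠ 0 ∧ x ≠ 1 ∧ (j : ℝ) ≤ hgt x ∧ hgt x < (j : ℝ) + 1 ∧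
      Cg N y x ∧ cond3 x ≤ σ * hgt x} := ⟨_, rfl⟩
  obtain ⟨ρ, hρ⟩ : ∃ ρ : ℕ → ℕ → ℝ, ρ = fun (_ j : ℕ) => Real.exp (-τ * (j : ℝ)) :=
    ⟨_, rfl⟩
  have key := mtp_pos (mixedSpace K) volume s hs0 (fun _ => S) (fun _ => h8)
    (fun _ => by rw [mixedEmbedding.finrank]; exact (h9.trans_le (min_le_left _ _)).le) C ρ
    (fun i j => by rw [hρ]; exact Real.exp_pos _)
    (fun i => by
      rw [hρ]
      refine Real.tendsto_exp_atBot.comp ?_
      exact tendsto_natCast_atTop_atTop.const_mul_atTop_of_neg (by linarith))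
    (fun i => by
      filter_upwards [ae_avoids (K := K)] with p hp
      rw [frequently_atTop]
      intro J
      obtain ⟨x, hx0, hx1, hxB, hxw, hxv, ha', hb', hc'⟩ :=
        Pool.Agent.Results.MP_f5a5f7_nt.ExponentAtEveryPoint.result.1 K (σ / 3) (σ / 3) (σ / 3) τ
          (by linarith) (by linarith) (by linarith) (by linarith) (by linarith) (by linarith)
          (by linarith) (by linarith) p y N J hN
          (fun w => hp 0 w) (fun w => hp 1 w) (Or.inl fun x w => hp x w)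
      have hh := height_nonneg x
      change (J : ℝ) ≤ hgt x at hxB
      change ∀ w : InfinitePlace K, normAtPlace w (mixedEmbedding K x - p) ≤
        Real.exp (-τ * hgt x) at hxw
      change cnd x ≤ σ / 3 * hgt x at ha'
      change cnd x⁻¹ ≤ σ / 3 * hgt x at hb'
      change cnd (x - 1) ≤ σ / 3 * hgt x at hc'
      have b1 : ((⌊hgt x⌋₊ : ℕ) : ℝ) ≤ hgt x := Nat.floor_le hh
      have b2 : hgt x < ((⌊hgt x⌋₊ : ℕ) : ℝ) + 1 := Nat.lt_floor_add_one _
      refine ⟨⌊hgt x⌋₊, Nat.le_floor hxB, mixedEmbedding K x, ?_, ?_⟩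
      · rw [hC]
        refine ⟨x, rfl, hx0, hx1, b1, b2, hxv, ?_⟩
        unfold cond3
        linarith
      · rw [dist_comm, hρ]
        refine (dist_le_of p x _ hxw).trans (Real.exp_le_exp.2 ?_)
        nlinarith) x0 R0 hR0
  intro h0
  refine key (measure_mono_null (Set.inter_subset_inter_left _ fun p hp => ?_) h0)
  rw [Set.mem_ofPred_eq] at hp ⊢
  intro A
  have hpos : 0 < Module.finrank ℚ K * τ / S - t := by
    rw [sub_pos, lt_div_iff₀ hS0]
    linarith
  have hδ : 0 < 1 - κ * σ := by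
    rw [lt_div_iff₀ hκ0] at hκ
    linarith
  obtain ⟨j1, hj1⟩ := exists_nat_ge
    (max ((|A| + 1) / (1 - κ * σ)) (t / (Module.finrank ℚ K * τ / S - t)))
  obtain ⟨j, hj, c, hc, hcd⟩ := (frequently_atTop.1 (hp 0)) j1
  have hjR : (j1 : ℝ) ≤ j := by exact_mod_cast hj
  rw [hC] at hc
  obtain ⟨x, rfl, hx0, hx1, hxj, hxj', hxc, hxe⟩ := hc
  have hh := height_nonneg x
  refine ⟨x, ⟨hx0, hx1, fun w => ?_⟩, hxc, ?_⟩
  · rw [dist_comm] at hcd
    refine (le_of_dist p x _ hcd w).trans ?_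
    rw [hρ, mixedEmbedding.finrank]
    simp only
    rw [← Real.exp_mul]
    apply Real.exp_le_exp.2
    have h3 : t / (Module.finrank ℚ K * τ / S - t) ≤ j :=
      ((le_max_right _ _).trans hj1).trans hjR
    rw [div_le_iff₀ hpos] at h3
    have h4 : -τ * (j : ℝ) * (Module.finrank ℚ K / S) =
        -((j : ℝ) * (Module.finrank ℚ K * τ / S)) := by ring
    rw [h4]
    nlinarith
  · have h3 : (|A| + 1) / (1 - κ * σ) ≤ hgt x :=
      (((le_max_left _ _).trans hj1).trans hjR).trans hxj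
    rw [div_le_iff₀ hδ] at h3
    have h4 := mul_le_mul_of_nonneg_left hxe hκ0.le
    have h5 := le_abs_self A
    linarith

/-- the dimension of the set of the points near which the inequality with constant `κ` fails -/
theorem dim_vio' (κ : ℝ) (hκ : 1 / 3 ≤ κ) (hκ2 : κ < 1) (t : ℝ) (ht : 0 < t)
    (y : K) (N : ℕ) (hN : 0 < N) (U : Set (mixedSpace K)) (hU : IsOpen U) (hU2 : U.Nonempty) :
    ENNReal.ofReal (min (Module.finrank ℚ K : ℝ) (Module.finrank ℚ K * (1 / κ - 1) / t)) ≤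
      dimH ({p : mixedSpace K | Vio κ t N y p} ∩ U) ∧
    (κ ≤ 1 / 2 → dimH ({p : mixedSpace K | Vio κ t N y p} ∩ U) =
      ENNReal.ofReal (min (Module.finrank ℚ K : ℝ) (Module.finrank ℚ K * (1 / κ - 1) / t))) := by
  have hd : (0 : ℝ) < Module.finrank ℚ K := by exact_mod_cast Module.finrank_pos
  have hκ0 : 0 < κ := lt_of_lt_of_le (by norm_num) hκ
  have hk1 : 1 < 1 / κ := by
    rw [lt_div_iff₀ hκ0]
    linarith
  have hk3 : 1 / κ ≤ 3 := by
    rw [div_le_iff₀ hκ0]
    linarith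
  have hlow : ENNReal.ofReal (min (Module.finrank ℚ K : ℝ)
      (Module.finrank ℚ K * (1 / κ - 1) / t)) ≤
      dimH ({p : mixedSpace K | Vio κ t N y p} ∩ U) := by
    refine of_lt fun s hs0 hs => ?_
    have h1 := hs.trans_le (min_le_left _ _)
    have h2 := hs.trans_le (min_le_right _ _)
    rw [lt_div_iff₀ ht] at h2
    obtain ⟨σ, h3, h4⟩ := exists_between (show max 1 (s * t / Module.finrank ℚ K + 1) < 1 / κ from
      max_lt hk1 (by
        have h5 : s * t / Module.finrank ℚ K < 1 / κ - 1 := (div_lt_iff₀ hd).2 (by linarith)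
        linarith))
    have h5 : 1 < σ := (le_max_left _ _).trans_lt h3
    have h6 : s * t / Module.finrank ℚ K + 1 < σ := (le_max_right _ _).trans_lt h3
    have h7 : s * t < Module.finrank ℚ K * (σ - 1) := by
      have h8 : s * t / Module.finrank ℚ K < σ - 1 := by linarith
      rw [div_lt_iff₀ hd] at h8
      linarith
    exact dim_ge_of hU hU2 hs0 fun x0 R0 hR0 => vio_pos σ κ t s h5 (by linarith) hκ0 h4 ht hs0 h1
      h7 y N hN x0 R0 hR0
  refine ⟨hlow, fun hκ3 => le_antisymm ?_ hlow⟩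
  have hk2 : 2 ≤ 1 / κ := by
    rw [le_div_iff₀ hκ0]
    linarith
  rw [ENNReal.ofReal_min]
  refine le_min (dim_le_d _) (dim_le_of hk2 ht ?_)
  rintro p ⟨hp, -⟩ η hη
  exact (inf_of_vio hκ0 hp).mono (by linarith)

end Pool.Agent.H65KF
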